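import Pool.Agent.H97.GEN.Defs

/-!
# Generators of a union-closed family; maximal sets of disjoint intersecting pairs
-/

set_option autoImplicit false

namespace Pool.Agent.H97.GEN

open Finset

variable {α : Type*} [DecidableEq α]

/-- A set of disjoint intersecting pairs of members of `J`. -/
private def IsMatching (J : Finset (Finset α)) (P : Finset (Finset α × Finset α)) : Prop :=
  (∀ p ∈ P, p.1 ∈ J ∧ p.2 ∈ J ∧ p.1 ≠ p.2) ∧
  (∀ p ∈ P, ∀ q ∈ P, p ≠ q → p.1 ≠ q.1 ∧ p.1 ≠ q.2 ∧ p.2 ≠ q.1 ∧ p.2 ≠ q.2) ∧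
  (∀ p ∈ P, ∃ x, x ∈ p.1 ∧ x ∈ p.2)

private lemma matching_card {J : Finset (Finset α)} {P : Finset (Finset α × Finset α)}
    (h : IsMatching J P) : (P.image Prod.fst ∪ P.image Prod.snd).card = 2 * P.card := by
  obtain ⟨h1, h2, -⟩ := h
  rw [Finset.card_union_of_disjoint, Finset.card_image_of_injOn, Finset.card_image_of_injOn]
  · ring
  · intro p hp q hq hpq
    by_contra hne
    exact (h2 p hp q hq hne).2.2.2 hpq
  · intro p hp q hq hpq
    by_contra hne
    exact (h2 p hp q hq hne).1 hpq
  · rw [Finset.disjoint_left]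
    intro x hx hx'
    obtain ⟨p, hp, rfl⟩ := Finset.mem_image.1 hx
    obtain ⟨q, hq, hqp⟩ := Finset.mem_image.1 hx'
    by_cases hpq : p = q
    · subst hpq
      exact (h1 p hp).2.2 hqp.symm
    · exact (h2 p hp q hq hpq).2.1 hqp.symm

/-- Maximal set of disjoint intersecting pairs. -/
theorem matching (J : Finset (Finset α)) :
    ∃ P : Finset (Finset α × Finset α),
      (∀ p ∈ P, p.1 ∈ J ∧ p.2 ∈ J ∧ p.1 ≠ p.2) ∧
      (∀ p ∈ P, ∀ q ∈ P, p ≠ q → p.1 ≠ q.1 ∧ p.1 ≠ q.2 ∧ p.2 ≠ q.1 ∧ p.2 ≠ q.2) ∧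
      (∀ p ∈ P, ∃ x, x ∈ p.1 ∧ x ∈ p.2) ∧
      (P.image Prod.fst ∪ P.image Prod.snd).card = 2 * P.card ∧
      ∀ G ∈ J \ (P.image Prod.fst ∪ P.image Prod.snd),
        ∀ G' ∈ J \ (P.image Prod.fst ∪ P.image Prod.snd), G' ≠ G → Disjoint G' G := by
  classical
  set C : Finset (Finset (Finset α × Finset α)) :=
    (J ×ˢ J).powerset.filter fun P => IsMatching J P with hC
  have hne : C.Nonempty := by
    refine ⟨∅, ?_⟩
    rw [hC, Finset.mem_filter]
    refine ⟨Finset.mem_powerset.2 (Finset.empty_subset _), ?_, ?_, ?_⟩ <;> simp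
  obtain ⟨P, hPC, hmax⟩ := Finset.exists_max_image C (fun P => P.card) hne
  have hP : IsMatching J P := (Finset.mem_filter.1 hPC).2
  refine ⟨P, hP.1, hP.2.1, hP.2.2, matching_card hP, ?_⟩
  intro G hG G' hG' hne'
  by_contra hdis
  rw [Finset.not_disjoint_iff] at hdis
  obtain ⟨x, hx', hx⟩ := hdis
  rw [Finset.mem_sdiff, Finset.mem_union, not_or] at hG hG'
  obtain ⟨hGJ, hG1, hG2⟩ := hG
  obtain ⟨hGJ', hG1', hG2'⟩ := hG'
  have k1 : ∀ p ∈ P, p.1 ≠ G := fun p hp h => hG1 (Finset.mem_image.2 ⟨p, hp, h⟩)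
  have k2 : ∀ p ∈ P, p.2 ≠ G := fun p hp h => hG2 (Finset.mem_image.2 ⟨p, hp, h⟩)
  have k3 : ∀ p ∈ P, p.1 ≠ G' := fun p hp h => hG1' (Finset.mem_image.2 ⟨p, hp, h⟩)
  have k4 : ∀ p ∈ P, p.2 ≠ G' := fun p hp h => hG2' (Finset.mem_image.2 ⟨p, hp, h⟩)
  have hnotin : (G, G') ∉ P := fun h => k1 _ h rfl
  have hnew : IsMatching J (insert (G, G') P) := by
    refine ⟨?_, ?_, ?_⟩
    · intro p hp
      rcases Finset.mem_insert.1 hp with rfl | hp
      · exact ⟨hGJ, hGJ', hne'.symm⟩
      · exact hP.1 p hp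
    · intro p hp q hq hpq
      rcases Finset.mem_insert.1 hp with rfl | hp
      · rcases Finset.mem_insert.1 hq with rfl | hq
        · exact absurd rfl hpq
        · exact ⟨(k1 q hq).symm, (k2 q hq).symm, (k3 q hq).symm, (k4 q hq).symm⟩
      · rcases Finset.mem_insert.1 hq with rfl | hq
        · exact ⟨k1 p hp, k3 p hp, k2 p hp, k4 p hp⟩
        · exact hP.2.1 p hp q hq hpq
    · intro p hp
      rcases Finset.mem_insert.1 hp with rfl | hp
      · exact ⟨x, hx, hx'⟩
      · exact hP.2.2 p hp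
  have hin : insert (G, G') P ∈ C := by
    rw [hC, Finset.mem_filter]
    refine ⟨?_, hnew⟩
    rw [Finset.mem_powerset]
    intro p hp
    have := hnew.1 p hp
    exact Finset.mem_product.2 ⟨this.1, this.2.1⟩
  have := hmax _ hin
  rw [Finset.card_insert_of_notMem hnotin] at this
  omega

/-- The union of any two members is a member. -/
def UnionClosed (A : Finset (Finset α)) : Prop :=
  ∀ S ∈ A, ∀ T ∈ A, S ∪ T ∈ A

/-- `A` has a member, separates the points of its union, and is not the power set of its union. -/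
def SepNotPower (A : Finset (Finset α)) : Prop :=
  A.Nonempty ∧ (∀ x ∈ A.sup id, ∀ y ∈ A.sup id, x ≠ y → ∃ T ∈ A, ¬ (x ∈ T ↔ y ∈ T)) ∧
    A ≠ (A.sup id).powerset

/-- The generators: the (nonempty) members that are not the union of the members properly inside. -/
def gens (A : Finset (Finset α)) : Finset (Finset α) :=
  A.filter fun G => (A.filter fun T => T ⊂ G).sup id ≠ G

/-- The generators with at least two points. -/
def bigGens (A : Finset (Finset α)) : Finset (Finset α) := (gens A).filter fun G => 2 ≤ G.card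

lemma mem_gens {A : Finset (Finset α)} {G : Finset α} :
    G ∈ gens A ↔ G ∈ A ∧ (A.filter fun T => T ⊂ G).sup id ≠ G := Finset.mem_filter

lemma gens_subset (A : Finset (Finset α)) : gens A ⊆ A := Finset.filter_subset _ _

lemma gens_nonempty {A : Finset (Finset α)} {G : Finset α} (h : G ∈ gens A) : G.Nonempty := by
  rw [Finset.nonempty_iff_ne_empty]
  rintro rfl
  apply (mem_gens.1 h).2
  have : (A.filter fun T => T ⊂ ∅) = ∅ := by
    rw [Finset.filter_eq_empty_iff]
    intro T _
    exact Finset.not_ssubset_empty T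
  rw [this]
  rfl

lemma sup_mem_of_unionClosed {A : Finset (Finset α)} (hA : UnionClosed A) :
    ∀ S : Finset (Finset α), S ⊆ A → S.sup id ∈ insert ∅ A := by
  intro S
  induction S using Finset.induction_on with
  | empty => intro _; simp
  | insert T S hT ih =>
    intro hS
    have hTA : T ∈ A := hS (Finset.mem_insert_self _ _)
    have h := ih (fun U hU => hS (Finset.mem_insert_of_mem hU))
    rw [Finset.sup_insert]
    rcases Finset.mem_insert.1 h with h | h
    · rw [h]
      simp [hTA]
    · exact Finset.mem_insert_of_mem (hA T hTA _ h)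

lemma mem_unions_gens (A : Finset (Finset α)) :
    ∀ (n : ℕ) (T : Finset α), T ∈ A → T.card ≤ n → T ∈ unions (gens A) := by
  intro n
  induction n with
  | zero =>
    intro T _ hc
    have : T = ∅ := Finset.card_eq_zero.1 (by omega)
    rw [this]
    exact empty_mem _
  | succ n ih =>
    intro T hT hc
    by_cases hg : (A.filter fun S => S ⊂ T).sup id = T
    · rw [mem_unions]
      apply Finset.Subset.antisymm (supK_subset _ _)
      intro x hx
      rw [← hg, mem_sup_id] at hx
      obtain ⟨S, hS, hxS⟩ := hx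
      obtain ⟨hSA, hST⟩ := Finset.mem_filter.1 hS
      have hSu := ih S hSA (by
        have := Finset.card_lt_card hST
        omega)
      obtain ⟨G, hG, hGS, hxG⟩ := (mem_iff hSu x).1 hxS
      exact mem_sup_id.2 ⟨G, mem_K.2 ⟨hG, hGS.trans hST.1⟩, hxG⟩
    · exact self_mem (mem_gens.2 ⟨hT, hg⟩)

theorem unions_gens {A : Finset (Finset α)} (hA : UnionClosed A) :
    unions (gens A) = insert ∅ A := by
  apply Finset.Subset.antisymm
  · intro T hT
    obtain ⟨S, hS, rfl⟩ := Finset.mem_image.1 hT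
    exact sup_mem_of_unionClosed hA S ((Finset.mem_powerset.1 hS).trans (gens_subset A))
  · intro T hT
    rcases Finset.mem_insert.1 hT with rfl | hT
    · exact empty_mem _
    · exact mem_unions_gens A T.card T hT le_rfl

/-- A generator is not a union of other generators. -/
lemma gens_irr (A : Finset (Finset α)) {G : Finset α} (hG : G ∈ gens A) :
    G ∉ unions ((gens A).erase G) := by
  intro h
  apply (mem_gens.1 hG).2
  apply Finset.Subset.antisymm
  · apply Finset.sup_le
    intro T hT
    exact (Finset.mem_filter.1 hT).2.1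
  · intro x hx
    obtain ⟨S, hS, hSG, hxS⟩ := (mem_iff h x).1 hx
    obtain ⟨hne, hSg⟩ := Finset.mem_erase.1 hS
    exact mem_sup_id.2 ⟨S, Finset.mem_filter.2
      ⟨gens_subset A hSg, hSG.ssubset_of_ne hne⟩, hxS⟩

lemma gens_insert_empty (A : Finset (Finset α)) : gens (insert ∅ A) = gens A := by
  have key : ∀ G : Finset α,
      ((insert ∅ A).filter fun T => T ⊂ G).sup id = (A.filter fun T => T ⊂ G).sup id := by
    intro G
    apply Finset.Subset.antisymm
    · apply Finset.sup_le
      intro T hT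
      obtain ⟨hT, hTG⟩ := Finset.mem_filter.1 hT
      rcases Finset.mem_insert.1 hT with rfl | hT
      · exact Finset.empty_subset _
      · exact Finset.le_sup (f := id) (Finset.mem_filter.2 ⟨hT, hTG⟩)
    · apply Finset.sup_mono
      exact Finset.filter_subset_filter _ (Finset.subset_insert _ _)
  ext G
  constructor
  · intro h
    have hne := gens_nonempty h
    obtain ⟨h1, h2⟩ := mem_gens.1 h
    rw [key] at h2
    rcases Finset.mem_insert.1 h1 with rfl | h1
    · exact absurd hne (by simp)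
    · exact mem_gens.2 ⟨h1, h2⟩
  · intro h
    obtain ⟨h1, h2⟩ := mem_gens.1 h
    rw [← key] at h2
    exact mem_gens.2 ⟨Finset.mem_insert_of_mem h1, h2⟩

lemma sup_insert_empty (A : Finset (Finset α)) : (insert ∅ A).sup id = A.sup id := by
  simp

lemma unionClosed_insert_empty {A : Finset (Finset α)} (hA : UnionClosed A) :
    UnionClosed (insert ∅ A) := by
  intro S hS T hT
  rcases Finset.mem_insert.1 hS with rfl | hS
  · simpa using hT
  · rcases Finset.mem_insert.1 hT with rfl | hT
    · rw [Finset.union_empty]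
      exact Finset.mem_insert_of_mem hS
    · exact Finset.mem_insert_of_mem (hA S hS T hT)

lemma fr_insert_empty (A : Finset (Finset α)) (x : α) : fr (insert ∅ A) x = fr A x := by
  unfold fr
  rw [Finset.filter_insert, if_neg (by simp)]

end Pool.Agent.H97.GEN
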