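import Pool.Agent.H97.GEN.Part2

/-!
# Separating families that are not power sets: some generators meet, or some point is frequent
-/

set_option autoImplicit false

namespace Pool.Agent.H97.GEN

open Finset

variable {α : Type*} [DecidableEq α]

/-- In a separating union-closed family that is not a power set either two generators meet or some
point is in more than half of the members. -/
theorem meet_nonempty_or {A : Finset (Finset α)} (hA : UnionClosed A) (hs : SepNotPower A) :
    (meet A).Nonempty ∨ ∃ x ∈ A.sup id, A.card < 2 * fr A x := by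
  classical
  obtain ⟨hne, hsep, hnp⟩ := hs
  by_cases hm : (meet A).Nonempty
  · exact Or.inl hm
  right
  rw [Finset.not_nonempty_iff_eq_empty] at hm
  have hu := unions_gens hA
  -- the generators are pairwise disjoint
  have hdis : ∀ G ∈ gens A, ∀ G' ∈ gens A, G' ≠ G → Disjoint G' G := by
    intro G hG G' hG' hne'
    by_contra hnd
    have : G ∈ meet A := Finset.mem_filter.2 ⟨hG, G', hG', hne', hnd⟩
    rw [hm] at this
    simp at this
  -- the generators are singletons
  have hsub : ∀ G ∈ gens A, ∀ x ∈ G, G = {x} := by
    intro G hG x hx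
    apply Finset.eq_singleton_iff_unique_mem.2
    refine ⟨hx, ?_⟩
    intro y hy
    by_contra hxy
    have hxU : x ∈ A.sup id := mem_sup_id.2 ⟨G, gens_subset A hG, hx⟩
    have hyU : y ∈ A.sup id := mem_sup_id.2 ⟨G, gens_subset A hG, hy⟩
    obtain ⟨T, hT, hTxy⟩ := hsep x hxU y hyU (fun h => hxy h.symm)
    have hTu : T ∈ unions (gens A) := by
      rw [hu]
      exact Finset.mem_insert_of_mem hT
    apply hTxy
    constructor
    · intro hxT
      obtain ⟨H, hH, hHT, hxH⟩ := (mem_iff hTu x).1 hxT
      have hHG : H = G := by
        by_contra hne'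
        exact Finset.disjoint_left.1 (hdis G hG H hH hne') hxH hx
      exact hHT (hHG ▸ hy)
    · intro hyT
      obtain ⟨H, hH, hHT, hyH⟩ := (mem_iff hTu y).1 hyT
      have hHG : H = G := by
        by_contra hne'
        exact Finset.disjoint_left.1 (hdis G hG H hH hne') hyH hy
      exact hHT (hHG ▸ hx)
  -- every singleton of the universe is a generator
  have hsing : ∀ x ∈ A.sup id, ({x} : Finset α) ∈ gens A := by
    intro x hx
    obtain ⟨T, hT, hxT⟩ := mem_sup_id.1 hx
    have hTu : T ∈ unions (gens A) := by
      rw [hu]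
      exact Finset.mem_insert_of_mem hT
    obtain ⟨G, hG, -, hxG⟩ := (mem_iff hTu x).1 hxT
    have := hsub G hG x hxG
    rw [← this]
    exact hG
  have hpow : insert ∅ A = (A.sup id).powerset := by
    rw [← hu]
    apply Finset.Subset.antisymm
    · intro T hT
      rw [Finset.mem_powerset]
      intro x hx
      obtain ⟨G, hG, -, hxG⟩ := (mem_iff hT x).1 hx
      exact mem_sup_id.2 ⟨G, gens_subset A hG, hxG⟩
    · intro T hT
      rw [Finset.mem_powerset] at hT
      rw [mem_unions]
      apply Finset.Subset.antisymm (supK_subset _ _)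
      intro x hx
      exact mem_sup_id.2 ⟨{x}, mem_K.2 ⟨hsing x (hT hx), by simpa using hx⟩, by simp⟩
  have hempty : (∅ : Finset α) ∉ A := by
    intro h
    apply hnp
    rw [← hpow, Finset.insert_eq_of_mem h]
  obtain ⟨T, hT⟩ := hne
  have hTne : T.Nonempty := by
    rw [Finset.nonempty_iff_ne_empty]
    rintro rfl
    exact hempty hT
  obtain ⟨x, hx⟩ := hTne
  have hxU : x ∈ A.sup id := mem_sup_id.2 ⟨T, hT, hx⟩
  refine ⟨x, hxU, ?_⟩
  have hG := hsing x hxU
  have h1 := half_of_isolated (gens A) hG (fun G' hG' hne' => hdis {x} hG G' hG' hne')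
    (Finset.mem_singleton_self x)
  have h2 := fr_add_nfr (unions (gens A)) x
  have h3 : (unions (gens A)).card = A.card + 1 := by
    rw [hu, Finset.card_insert_of_notMem hempty]
  have h4 : fr (unions (gens A)) x = fr A x := by
    rw [hu]
    exact fr_insert_empty A x
  omega

end Pool.Agent.H97.GEN
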