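import Pool.Agent.H97.GEN.Defs

/-! # The injection and the sum of the biases (part C) -/

set_option autoImplicit false

namespace Pool.Agent.H97.GEN

open Finset

variable {α : Type*} [DecidableEq α]

lemma mem_unions_of {J : Finset (Finset α)} {A : Finset α}
    (h : ∀ x ∈ A, ∃ G ∈ J, G ⊆ A ∧ x ∈ G) : A ∈ unions J := by
  rw [mem_unions]
  apply Finset.Subset.antisymm (supK_subset _ _)
  intro x hx
  obtain ⟨G, hG, hs, hxG⟩ := h x hx
  exact mem_sup_id.2 ⟨G, mem_K.2 ⟨hG, hs⟩, hxG⟩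

section

variable {J V Q : Finset (Finset α)} {D : ℕ} {M : Finset α → Finset (Finset α)} {y : Finset α → α}

lemma FF_sub : FF J V ⊆ unions J := Finset.sdiff_subset

lemma KV_nonempty {A : Finset α} (hA : A ∈ FF J V) : (K V A).Nonempty := by
  rw [Finset.nonempty_iff_ne_empty]
  intro h
  rw [FF, Finset.mem_sdiff] at hA
  apply hA.2
  apply mem_unions_of
  intro x hx
  obtain ⟨G, hG, hs, hxG⟩ := (mem_iff hA.1 x).1 hx
  refine ⟨G, ?_, hs, hxG⟩
  rw [Finset.mem_sdiff]
  refine ⟨hG, fun hV => ?_⟩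
  have : G ∈ K V A := mem_K.2 ⟨hV, hs⟩
  rw [h] at this
  exact absurd this (Finset.notMem_empty _)

lemma Setup.jQ (hS : Setup J V Q D M y) {j : Finset α} (hj : j ∈ V.biUnion M) : j ∈ Q := by
  obtain ⟨v, hv, hjv⟩ := Finset.mem_biUnion.1 hj
  exact hS.MQ v hv hjv

lemma Setup.jJ (hS : Setup J V Q D M y) {j : Finset α} (hj : j ∈ V.biUnion M) : j ∈ J :=
  (Finset.mem_sdiff.1 (hS.QJ (hS.jQ hj))).1

lemma Setup.jnV (hS : Setup J V Q D M y) {j : Finset α} (hj : j ∈ V.biUnion M) : j ∉ V :=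
  (Finset.mem_sdiff.1 (hS.QJ (hS.jQ hj))).2

lemma Setup.yj (hS : Setup J V Q D M y) {j : Finset α} (hj : j ∈ V.biUnion M) : y j ∈ j := by
  obtain ⟨v, hv, hjv⟩ := Finset.mem_biUnion.1 hj
  exact hS.ymem v hv j hjv

lemma Setup.eq_of (hS : Setup J V Q D M y) {j G : Finset α} (hj : j ∈ V.biUnion M)
    (hG : G ∈ J) (hGV : G ∉ V) {x : α} (hx : x ∈ G) (hxj : x ∈ j) : G = j := by
  by_contra hne
  exact Finset.disjoint_left.1 (hS.meet j (hS.jQ hj) G hG hGV hne) hx hxj

/-- The part of `A` inside `j`, when `y j ∉ A`. -/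
lemma Setup.fibre (hS : Setup J V Q D M y) {j : Finset α} (hj : j ∈ V.biUnion M) {A : Finset α}
    (hA : A ∈ unions J) (hy : y j ∉ A) {x : α} (hx : x ∈ j) :
    x ∈ A ↔ x ∈ (K V A).sup id := by
  constructor
  · intro hxA
    obtain ⟨G, hG, hs, hxG⟩ := (mem_iff hA x).1 hxA
    rw [mem_sup_id]
    refine ⟨G, ?_, hxG⟩
    rw [mem_K]
    refine ⟨?_, hs⟩
    by_contra hGV
    have := hS.eq_of hj hG hGV hxG hx
    subst this
    exact hy (hs (hS.yj hj))
  · intro h
    exact supK_subset _ _ h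

/-- Regular pairs. -/
lemma Setup.reg_card (hS : Setup J V Q D M y) {j : Finset α} (hj : j ∈ V.biUnion M) :
    ((FF J V).filter fun A => y j ∉ A ∧ K V (A ∪ j) = K V A ∧ A ∪ j ∈ FF J V).card
      ≤ ((FF J V).filter fun B => y j ∈ B ∧ y j ∉ (K V B).sup id).card := by
  apply Finset.card_le_card_of_injOn (fun A => A ∪ j)
  · intro A hA
    rw [Finset.mem_coe, Finset.mem_filter] at hA
    rw [Finset.mem_coe, Finset.mem_filter]
    obtain ⟨h1, h2, h3, h4⟩ := hA
    refine ⟨h4, Finset.mem_union_right _ (hS.yj hj), ?_⟩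
    simp only
    rw [h3]
    intro h
    exact h2 (supK_subset _ _ h)
  · intro A hA B hB hAB
    rw [Finset.mem_coe, Finset.mem_filter] at hA hB
    obtain ⟨h1, h2, h3, h4⟩ := hA
    obtain ⟨g1, g2, g3, g4⟩ := hB
    simp only at hAB
    have hK : K V A = K V B := by rw [← h3, ← g3, hAB]
    ext x
    by_cases hx : x ∈ j
    · rw [hS.fibre hj (FF_sub h1) h2 hx, hS.fibre hj (FF_sub g1) g2 hx, hK]
    · have : x ∈ A ∪ j ↔ x ∈ B ∪ j := by rw [hAB]
      simpa [hx] using this

/-- At most one `j` leads out of `FF`. -/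
lemma Setup.out_card (hS : Setup J V Q D M y) {A : Finset α} (hA : A ∈ FF J V) :
    ((V.biUnion M).filter fun j => y j ∉ A ∧ A ∪ j ∉ FF J V).card ≤ 1 := by
  rw [Finset.card_le_one]
  intro j hj i hi
  rw [Finset.mem_filter] at hi hj
  obtain ⟨hj1, hj2, hj3⟩ := hj
  obtain ⟨hi1, hi2, hi3⟩ := hi
  by_contra hne
  have hAJ := FF_sub hA
  have hj4 : A ∪ j ∈ unions (J \ V) := by
    by_contra h
    exact hj3 (Finset.mem_sdiff.2 ⟨union_mem hAJ (self_mem (hS.jJ hj1)), h⟩)
  have hi4 : A ∪ i ∈ unions (J \ V) := by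
    by_contra h
    exact hi3 (Finset.mem_sdiff.2 ⟨union_mem hAJ (self_mem (hS.jJ hi1)), h⟩)
  have hAi : ∀ x ∈ A, x ∉ i := by
    intro x hx hxi
    obtain ⟨G, hG, hs, hxG⟩ := (mem_iff hj4 x).1 (Finset.mem_union_left _ hx)
    rw [Finset.mem_sdiff] at hG
    have := hS.eq_of hi1 hG.1 hG.2 hxG hxi
    subst this
    have h1 := hs (hS.yj hi1)
    rw [Finset.mem_union] at h1
    rcases h1 with h1 | h1
    · exact hi2 h1
    · exact hne (hS.eq_of hi1 (hS.jJ hj1) (hS.jnV hj1) h1 (hS.yj hi1))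
  apply (Finset.mem_sdiff.1 hA).2
  apply mem_unions_of
  intro x hx
  obtain ⟨G, hG, hs, hxG⟩ := (mem_iff hi4 x).1 (Finset.mem_union_left _ hx)
  refine ⟨G, hG, ?_, hxG⟩
  intro z hz
  have hz' := hs hz
  rw [Finset.mem_union] at hz'
  rcases hz' with h | h
  · exact h
  · exfalso
    rw [Finset.mem_sdiff] at hG
    have := hS.eq_of hi1 hG.1 hG.2 hz h
    subst this
    exact hAi x hx hxG

/-- The `j` that change `K V`: as many as critical `v`. -/
lemma Setup.chg_card (hS : Setup J V Q D M y) {A : Finset α} :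
    ((V.biUnion M).filter fun j => y j ∉ A ∧ K V (A ∪ j) ≠ K V A).card
      ≤ (V.filter fun v => ¬ v ⊆ A ∧ crit V M y A v).card := by
  apply Finset.card_le_card_of_forall_subsingleton (fun j v => ¬ v ⊆ A ∧ v ⊆ A ∪ j)
  · intro j hj
    rw [Finset.mem_filter] at hj
    obtain ⟨hj1, hj2, hj3⟩ := hj
    have : ∃ v ∈ V, v ⊆ A ∪ j ∧ ¬ v ⊆ A := by
      by_contra hcon
      push Not at hcon
      apply hj3
      ext v
      rw [mem_K, mem_K]
      constructor
      · rintro ⟨h1, h2⟩
        exact ⟨h1, hcon v h1 h2⟩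
      · rintro ⟨h1, h2⟩
        exact ⟨h1, h2.trans Finset.subset_union_left⟩
    obtain ⟨v, hv, h1, h2⟩ := this
    refine ⟨v, ?_, h2, h1⟩
    rw [Finset.mem_filter]
    exact ⟨hv, h2, j, hj1, hj2, h1⟩
  · intro v hv i hi j hj
    simp only [Set.mem_setOf_eq, Finset.mem_filter] at hi hj
    obtain ⟨⟨hi1, hi2, hi3⟩, hi4, hi5⟩ := hi
    obtain ⟨⟨hj1, hj2, hj3⟩, hj4, hj5⟩ := hj
    obtain ⟨x, hx, hxA⟩ := Finset.not_subset.1 hi4
    have h1 := hi5 hx
    have h2 := hj5 hx
    rw [Finset.mem_union] at h1 h2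
    exact hS.eq_of hj1 (hS.jJ hi1) (hS.jnV hi1) (h1.resolve_left hxA) (h2.resolve_left hxA)

/-- Pointwise inequality. -/
lemma Setup.pointwise (hS : Setup J V Q D M y) (hD : 1 ≤ D) {A : Finset α} (hA : A ∈ FF J V) :
    ((V.biUnion M).filter fun j =>
        y j ∉ A ∧ ¬ (K V (A ∪ j) = K V A ∧ A ∪ j ∈ FF J V)).card + (D - 1)
      ≤ ((V.biUnion M).filter fun j => y j ∈ (K V A).sup id).card
        + (V.filter fun v => (¬ v ⊆ A ∧ ∀ i ∈ M v, y i ∉ (K V A).sup id) ∧ crit V M y A v).card := by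
  have h1 : ((V.biUnion M).filter fun j =>
        y j ∉ A ∧ ¬ (K V (A ∪ j) = K V A ∧ A ∪ j ∈ FF J V)).card
      ≤ (V.filter fun v => ¬ v ⊆ A ∧ crit V M y A v).card + 1 := by
    calc _ ≤ (((V.biUnion M).filter fun j => y j ∉ A ∧ K V (A ∪ j) ≠ K V A)
            ∪ ((V.biUnion M).filter fun j => y j ∉ A ∧ A ∪ j ∉ FF J V)).card := by
          apply Finset.card_le_card
          intro j hj
          rw [Finset.mem_filter] at hj
          rw [Finset.mem_union, Finset.mem_filter, Finset.mem_filter]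
          by_cases h : K V (A ∪ j) = K V A
          · right
            exact ⟨hj.1, hj.2.1, fun h' => hj.2.2 ⟨h, h'⟩⟩
          · left
            exact ⟨hj.1, hj.2.1, h⟩
      _ ≤ _ := Finset.card_union_le _ _
      _ ≤ _ := Nat.add_le_add hS.chg_card (hS.out_card hA)
  have h2 : ((V.biUnion M).filter fun j => y j ∈ (K V A).sup id).card
      = ∑ v ∈ V, ((M v).filter fun j => y j ∈ (K V A).sup id).card := by
    rw [Finset.filter_biUnion, Finset.card_biUnion]
    intro v hv w hw hvw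
    exact Finset.disjoint_of_subset_left (Finset.filter_subset _ _)
      (Finset.disjoint_of_subset_right (Finset.filter_subset _ _) (hS.Mdisj v hv w hw hvw))
  have h3 : (V.filter fun v => ¬ v ⊆ A ∧ crit V M y A v).card + D * (K V A).card
      ≤ (∑ v ∈ V, ((M v).filter fun j => y j ∈ (K V A).sup id).card)
        + (V.filter fun v => (¬ v ⊆ A ∧ ∀ i ∈ M v, y i ∉ (K V A).sup id) ∧ crit V M y A v).card := by
    rw [Finset.card_filter, Finset.card_filter, K, Finset.card_filter, Finset.mul_sum,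
      ← Finset.sum_add_distrib, ← Finset.sum_add_distrib]
    apply Finset.sum_le_sum
    intro v hv
    by_cases hvA : v ⊆ A
    · have : (M v).filter (fun j => y j ∈ (K V A).sup id) = M v := by
        apply Finset.filter_true_of_mem
        intro j hj
        rw [mem_sup_id]
        exact ⟨v, mem_K.2 ⟨hv, hvA⟩, hS.ymemV v hv j hj⟩
      have h4 : (M v).card = D := hS.Mcard v hv
      unfold K at this
      simp [hvA, this, h4]
    · by_cases hc : crit V M y A v
      · by_cases hr : ∀ i ∈ M v, y i ∉ (K V A).sup id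
        · unfold K at hr
          rw [if_pos ⟨hvA, hc⟩, if_neg hvA, if_pos ⟨⟨hvA, hr⟩, hc⟩]
          omega
        · have hr' : 0 < ((M v).filter fun j => y j ∈ (K V A).sup id).card := by
            push Not at hr
            obtain ⟨i, hi, hi2⟩ := hr
            exact Finset.card_pos.2 ⟨i, Finset.mem_filter.2 ⟨hi, hi2⟩⟩
          unfold K at hr'
          simp only [hvA, hc, not_false_eq_true, and_self, if_true, if_false, mul_zero, add_zero]
          omega
      · simp [hvA, hc]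
  have h4 : 1 ≤ (K V A).card := Finset.card_pos.2 (KV_nonempty hA)
  have h5 : D * 1 ≤ D * (K V A).card := Nat.mul_le_mul_left _ h4
  rw [h2]
  omega

theorem bias_sum (hS : Setup J V Q D M y) (hD : 1 ≤ D) :
    ∑ j ∈ V.biUnion M, nfr (FF J V) (y j) + (D - 1) * (FF J V).card
      ≤ ∑ j ∈ V.biUnion M, fr (FF J V) (y j)
        + ∑ v ∈ V, ((FFv J V M y v).filter fun A => crit V M y A v).card := by
  have h1 : ∀ j ∈ V.biUnion M, nfr (FF J V) (y j)
      + ((FF J V).filter fun A => y j ∈ (K V A).sup id).card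
      ≤ fr (FF J V) (y j) + ((FF J V).filter fun A =>
          y j ∉ A ∧ ¬ (K V (A ∪ j) = K V A ∧ A ∪ j ∈ FF J V)).card := by
    intro j hj
    have e1 : nfr (FF J V) (y j)
        = ((FF J V).filter fun A => y j ∉ A ∧ K V (A ∪ j) = K V A ∧ A ∪ j ∈ FF J V).card
          + ((FF J V).filter fun A =>
            y j ∉ A ∧ ¬ (K V (A ∪ j) = K V A ∧ A ∪ j ∈ FF J V)).card := by
      unfold nfr
      rw [← Finset.card_filter_add_card_filter_not
        (s := (FF J V).filter fun T => y j ∉ T)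
        (p := fun A => K V (A ∪ j) = K V A ∧ A ∪ j ∈ FF J V),
        Finset.filter_filter, Finset.filter_filter]
    have e2 : fr (FF J V) (y j)
        = ((FF J V).filter fun B => y j ∈ B ∧ y j ∉ (K V B).sup id).card
          + ((FF J V).filter fun A => y j ∈ (K V A).sup id).card := by
      unfold fr
      rw [← Finset.card_filter_add_card_filter_not
        (s := (FF J V).filter fun T => y j ∈ T)
        (p := fun A => y j ∉ (K V A).sup id),
        Finset.filter_filter, Finset.filter_filter]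
      congr 2
      apply Finset.filter_congr
      intro A hA
      constructor
      · rintro ⟨h1, h2⟩
        by_contra h3
        exact h2 h3
      · intro h1
        exact ⟨supK_subset _ _ h1, fun h => h h1⟩
    have := hS.reg_card hj
    omega
  have h2 := Finset.sum_le_sum h1
  rw [Finset.sum_add_distrib, Finset.sum_add_distrib] at h2
  have h3 : ∑ j ∈ V.biUnion M, ((FF J V).filter fun A => y j ∈ (K V A).sup id).card
      = ∑ A ∈ FF J V, ((V.biUnion M).filter fun j => y j ∈ (K V A).sup id).card := by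
    simp only [Finset.card_filter]
    exact Finset.sum_comm
  have h4 : ∑ j ∈ V.biUnion M, ((FF J V).filter fun A =>
          y j ∉ A ∧ ¬ (K V (A ∪ j) = K V A ∧ A ∪ j ∈ FF J V)).card
      = ∑ A ∈ FF J V, ((V.biUnion M).filter fun j =>
          y j ∉ A ∧ ¬ (K V (A ∪ j) = K V A ∧ A ∪ j ∈ FF J V)).card := by
    simp only [Finset.card_filter]
    exact Finset.sum_comm
  have h5 : ∑ v ∈ V, ((FFv J V M y v).filter fun A => crit V M y A v).card
      = ∑ A ∈ FF J V, (V.filter fun v =>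
        (¬ v ⊆ A ∧ ∀ i ∈ M v, y i ∉ (K V A).sup id) ∧ crit V M y A v).card := by
    unfold FFv
    simp only [Finset.filter_filter]
    simp only [Finset.card_filter]
    exact Finset.sum_comm
  have h6 := Finset.sum_le_sum (fun A hA => hS.pointwise hD (A := A) hA)
  rw [Finset.sum_add_distrib, Finset.sum_add_distrib, ← h3, ← h4, ← h5, Finset.sum_const,
    smul_eq_mul] at h6
  rw [Nat.mul_comm (FF J V).card] at h6
  omega

end

end Pool.Agent.H97.GEN
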