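import Mathlib

/-!
# Families with almost independent generators (MP_75f39d): definitions and basic facts

`unions J` is the family of all unions of subfamilies of `J` (the empty union included);
`K J A` is the set of the members of `J` inside `A`; `fr F x` is the number of members of `F` that
contain `x`.
-/

set_option autoImplicit false

namespace Pool.Agent.H97.GEN

open Finset

variable {α : Type*} [DecidableEq α]

/-- All unions of subfamilies of `J`. -/
def unions (J : Finset (Finset α)) : Finset (Finset α) := J.powerset.image fun S => S.sup id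

/-- The members of `J` inside `A`. -/
def K (J : Finset (Finset α)) (A : Finset α) : Finset (Finset α) := J.filter fun G => G ⊆ A

/-- Number of members of `F` that contain `x`. -/
def fr (F : Finset (Finset α)) (x : α) : ℕ := (F.filter fun T => x ∈ T).card

/-- Number of members of `F` that do not contain `x`. -/
def nfr (F : Finset (Finset α)) (x : α) : ℕ := (F.filter fun T => x ∉ T).card

lemma fr_add_nfr (F : Finset (Finset α)) (x : α) : fr F x + nfr F x = F.card := by
  unfold fr nfr
  exact Finset.card_filter_add_card_filter_not (s := F) (p := fun T => x ∈ T)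

lemma mem_K {J : Finset (Finset α)} {A G : Finset α} : G ∈ K J A ↔ G ∈ J ∧ G ⊆ A := by
  simp [K]

lemma K_subset (J : Finset (Finset α)) (A : Finset α) : K J A ⊆ J := Finset.filter_subset _ _

lemma supK_subset (J : Finset (Finset α)) (A : Finset α) : (K J A).sup id ⊆ A := by
  apply Finset.sup_le
  intro G hG
  exact (mem_K.1 hG).2

lemma mem_sup_id {S : Finset (Finset α)} {x : α} : x ∈ S.sup id ↔ ∃ G ∈ S, x ∈ G := by
  simp [Finset.mem_sup]

lemma sup_mem_unions {J S : Finset (Finset α)} (h : S ⊆ J) : S.sup id ∈ unions J :=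
  Finset.mem_image.2 ⟨S, Finset.mem_powerset.2 h, rfl⟩

lemma supK_eq {J : Finset (Finset α)} {A : Finset α} (h : A ∈ unions J) : (K J A).sup id = A := by
  obtain ⟨S, hS, rfl⟩ := Finset.mem_image.1 h
  rw [Finset.mem_powerset] at hS
  apply Finset.Subset.antisymm (supK_subset _ _)
  apply Finset.sup_mono
  intro G hG
  exact mem_K.2 ⟨hS hG, Finset.le_sup (f := id) hG⟩

lemma mem_unions {J : Finset (Finset α)} {A : Finset α} : A ∈ unions J ↔ (K J A).sup id = A :=
  ⟨supK_eq, fun h => h ▸ sup_mem_unions (K_subset _ _)⟩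

lemma mem_iff {J : Finset (Finset α)} {A : Finset α} (h : A ∈ unions J) (x : α) :
    x ∈ A ↔ ∃ G ∈ J, G ⊆ A ∧ x ∈ G := by
  conv_lhs => rw [← supK_eq h]
  rw [mem_sup_id]
  constructor
  · rintro ⟨G, hG, hx⟩
    exact ⟨G, (mem_K.1 hG).1, (mem_K.1 hG).2, hx⟩
  · rintro ⟨G, hG, hs, hx⟩
    exact ⟨G, mem_K.2 ⟨hG, hs⟩, hx⟩

lemma union_mem {J : Finset (Finset α)} {A B : Finset α} (hA : A ∈ unions J) (hB : B ∈ unions J) :
    A ∪ B ∈ unions J := by
  rw [← supK_eq hA, ← supK_eq hB, ← Finset.sup_eq_union, ← Finset.sup_union]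
  exact sup_mem_unions (Finset.union_subset (K_subset _ _) (K_subset _ _))

lemma self_mem {J : Finset (Finset α)} {G : Finset α} (h : G ∈ J) : G ∈ unions J := by
  have := sup_mem_unions (J := J) (S := {G}) (by simpa using h)
  simpa using this

lemma empty_mem (J : Finset (Finset α)) : (∅ : Finset α) ∈ unions J := by
  have := sup_mem_unions (J := J) (S := ∅) (by simp)
  simpa using this

lemma unions_mono {J J' : Finset (Finset α)} (h : J ⊆ J') : unions J ⊆ unions J' := by
  intro A hA
  obtain ⟨S, hS, rfl⟩ := Finset.mem_image.1 hA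
  exact sup_mem_unions ((Finset.mem_powerset.1 hS).trans h)

lemma K_injOn {J : Finset (Finset α)} {A B : Finset α} (hA : A ∈ unions J) (hB : B ∈ unions J)
    (h : K J A = K J B) : A = B := by rw [← supK_eq hA, ← supK_eq hB, h]

/-- The situation after the Hall step.  `J`: the generators; `V ⊆ J`; `Q ⊆ J ∖ V` such that a member of
`Q` meets only itself and members of `V`; to every `v ∈ V` a set `M v` of `D` members of `Q`, pairwise
disjoint, and for `j ∈ M v` a point `y j` of `j ∩ v`. -/
structure Setup (J V Q : Finset (Finset α)) (D : ℕ) (M : Finset α → Finset (Finset α))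
    (y : Finset α → α) : Prop where
  VJ : V ⊆ J
  QJ : Q ⊆ J \ V
  meet : ∀ G ∈ Q, ∀ G' ∈ J, G' ∉ V → G' ≠ G → Disjoint G' G
  nonempty : ∀ G ∈ J, G.Nonempty
  MQ : ∀ v ∈ V, M v ⊆ Q
  Mcard : ∀ v ∈ V, (M v).card = D
  Mdisj : ∀ v ∈ V, ∀ w ∈ V, v ≠ w → Disjoint (M v) (M w)
  ymem : ∀ v ∈ V, ∀ j ∈ M v, y j ∈ j
  ymemV : ∀ v ∈ V, ∀ j ∈ M v, y j ∈ v

/-- The members that need a member of `V`. -/
def FF (J V : Finset (Finset α)) : Finset (Finset α) := unions J \ unions (J \ V)

/-- `v` is critical at `A`: some `j ∈ V.biUnion M` with `y j ∉ A` has `v ⊆ A ∪ j`. -/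
def crit (V : Finset (Finset α)) (M : Finset α → Finset (Finset α)) (y : Finset α → α)
    (A v : Finset α) : Prop :=
  ∃ j ∈ V.biUnion M, y j ∉ A ∧ v ⊆ A ∪ j

instance (V : Finset (Finset α)) (M : Finset α → Finset (Finset α)) (y : Finset α → α)
    (A v : Finset α) : Decidable (crit V M y A v) := by unfold crit; infer_instance

/-- The members `A` of `FF J V` without `v` such that `y i` is in no member of `V` inside `A`,
for all `i ∈ M v`. -/
def FFv (J V : Finset (Finset α)) (M : Finset α → Finset (Finset α)) (y : Finset α → α)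
    (v : Finset α) : Finset (Finset α) :=
  (FF J V).filter fun A => ¬ v ⊆ A ∧ ∀ i ∈ M v, y i ∉ (K V A).sup id

end Pool.Agent.H97.GEN
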