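import Pool.Agent.H97.GEN.Core

/-! # Deleting generators (part D) -/

set_option autoImplicit false

namespace Pool.Agent.H97.GEN

open Finset

variable {α : Type*} [DecidableEq α]

/-! ### Isolated generators -/

section iso

variable (J : Finset (Finset α)) {G : Finset α}

/-- A union of the other generators is disjoint from an isolated generator. -/
lemma iso_disj (hiso : ∀ G' ∈ J, G' ≠ G → Disjoint G' G) {A : Finset α}
    (hA : A ∈ unions (J.erase G)) : Disjoint A G := by
  rw [Finset.disjoint_left]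
  intro x hxA hxG
  obtain ⟨G', hG', -, hx⟩ := (mem_iff hA x).1 hxA
  obtain ⟨hne, hJ⟩ := Finset.mem_erase.1 hG'
  exact Finset.disjoint_left.1 (hiso G' hJ hne) hx hxG

lemma iso_mem_iff (hiso : ∀ G' ∈ J, G' ≠ G → Disjoint G' G) {x : α} (hx : x ∈ G)
    {A : Finset α} : A ∈ unions (J.erase G) ↔ A ∈ unions J ∧ x ∉ A := by
  constructor
  · intro h
    refine ⟨unions_mono (Finset.erase_subset _ _) h, fun hxA => ?_⟩
    exact Finset.disjoint_left.1 (iso_disj J hiso h) hxA hx
  · rintro ⟨h, hxA⟩
    apply mem_unions_of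
    intro z hz
    obtain ⟨G', hG', hs, hzG⟩ := (mem_iff h z).1 hz
    refine ⟨G', Finset.mem_erase.2 ⟨?_, hG'⟩, hs, hzG⟩
    rintro rfl
    exact hxA (hs hx)

lemma iso_sub (hG : G ∈ J) (hiso : ∀ G' ∈ J, G' ≠ G → Disjoint G' G) {x : α} (hx : x ∈ G)
    {A : Finset α} (hA : A ∈ unions J) (hxA : x ∈ A) :
    G ⊆ A ∧ A \ G ∈ unions (J.erase G) := by
  obtain ⟨G', hG', hs, hxG⟩ := (mem_iff hA x).1 hxA
  have hGG : G' = G := by
    by_contra hne
    exact Finset.disjoint_left.1 (hiso G' hG' hne) hxG hx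
  subst hGG
  refine ⟨hs, ?_⟩
  apply mem_unions_of
  intro z hz
  obtain ⟨hzA, hzG⟩ := Finset.mem_sdiff.1 hz
  obtain ⟨H, hH, hHs, hzH⟩ := (mem_iff hA z).1 hzA
  have hne : H ≠ G' := by
    rintro rfl
    exact hzG hzH
  refine ⟨H, Finset.mem_erase.2 ⟨hne, hH⟩, ?_, hzH⟩
  intro w hw
  exact Finset.mem_sdiff.2 ⟨hHs hw, fun hwG => Finset.disjoint_left.1 (hiso H hH hne) hw hwG⟩

/-- The basic count: for a property that does not see `G`. -/
lemma iso_count (hG : G ∈ J) (hiso : ∀ G' ∈ J, G' ≠ G → Disjoint G' G) {x : α} (hx : x ∈ G)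
    (p : Finset α → Prop) [DecidablePred p] (hp : ∀ A, p (A ∪ G) ↔ p A) :
    ((unions J).filter fun A => x ∈ A ∧ p A).card = ((unions (J.erase G)).filter p).card := by
  apply Finset.card_nbij' (fun A => A \ G) (fun A => A ∪ G)
  · intro A hA
    simp only [Finset.coe_filter, Set.mem_ofPred_eq] at hA ⊢
    obtain ⟨hA, hxA, hpA⟩ := hA
    obtain ⟨h1, h2⟩ := iso_sub J hG hiso hx hA hxA
    refine ⟨h2, ?_⟩
    rw [← hp, Finset.sdiff_union_of_subset h1]
    exact hpA
  · intro A hA
    simp only [Finset.coe_filter, Set.mem_ofPred_eq] at hA ⊢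
    refine ⟨union_mem (unions_mono (Finset.erase_subset _ _) hA.1) (self_mem hG),
      Finset.mem_union_right _ hx, (hp A).2 hA.2⟩
  · intro A hA
    simp only [Finset.coe_filter, Set.mem_ofPred_eq] at hA
    exact Finset.sdiff_union_of_subset (iso_sub J hG hiso hx hA.1 hA.2.1).1
  · intro A hA
    simp only [Finset.coe_filter, Set.mem_ofPred_eq] at hA
    show (A ∪ G) \ G = A
    rw [Finset.union_sdiff_right]
    exact Finset.sdiff_eq_self_of_disjoint (iso_disj J hiso hA.1)

lemma iso_count_not (hiso : ∀ G' ∈ J, G' ≠ G → Disjoint G' G) {x : α} (hx : x ∈ G)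
    (p : Finset α → Prop) [DecidablePred p] :
    ((unions J).filter fun A => x ∉ A ∧ p A).card = ((unions (J.erase G)).filter p).card := by
  congr 1
  ext A
  simp only [Finset.mem_filter]
  rw [iso_mem_iff J hiso hx]
  tauto

/-- A generator disjoint from all others: exactly half of the members contain a point of it
(`A ↦ A ∪ G`, `A ↦ A \ G`). -/
theorem half_of_isolated (hG : G ∈ J)
    (hiso : ∀ G' ∈ J, G' ≠ G → Disjoint G' G) {x : α} (hx : x ∈ G) :
    fr (unions J) x = nfr (unions J) x := by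
  have h1 := iso_count J hG hiso hx (fun _ => True) (by simp)
  have h2 := iso_count_not J hiso hx (fun _ => True)
  simp only [and_true] at h1 h2
  unfold fr nfr
  rw [h1, h2]

/-- Removing an isolated generator: all counts are halved (`x ∉ G`). -/
theorem card_isolated (hG : G ∈ J) (hne : G.Nonempty)
    (hiso : ∀ G' ∈ J, G' ≠ G → Disjoint G' G) :
    (unions J).card = 2 * (unions (J.erase G)).card := by
  obtain ⟨x, hx⟩ := hne
  have h1 := iso_count J hG hiso hx (fun _ => True) (by simp)
  have h2 := iso_count_not J hiso hx (fun _ => True)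
  simp only [and_true, Finset.filter_true] at h1 h2
  have h3 := fr_add_nfr (unions J) x
  unfold fr nfr at h3
  omega

theorem fr_isolated (hG : G ∈ J) (hne : G.Nonempty)
    (hiso : ∀ G' ∈ J, G' ≠ G → Disjoint G' G) {x : α} (hx : x ∉ G) :
    fr (unions J) x = 2 * fr (unions (J.erase G)) x := by
  obtain ⟨z, hz⟩ := hne
  have h1 := iso_count J hG hiso hz (fun A => x ∈ A) (by
    intro A
    simp [hx])
  have h2 := iso_count_not J hiso hz (fun A => x ∈ A)
  have h3 : ((unions J).filter fun A => x ∈ A).card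
      = ((unions J).filter fun A => z ∈ A ∧ x ∈ A).card
        + ((unions J).filter fun A => z ∉ A ∧ x ∈ A).card := by
    rw [← Finset.card_filter_add_card_filter_not (s := (unions J).filter fun A => x ∈ A)
      (p := fun A => z ∈ A), Finset.filter_filter, Finset.filter_filter]
    simp only [and_comm]
  unfold fr
  omega

end iso

/-! ### The deletion count -/

section del

variable {J V Q : Finset (Finset α)} {D : ℕ} {M : Finset α → Finset (Finset α)} {y : Finset α → α}

/-- The union of `K J A \ T`. -/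
def del (J : Finset (Finset α)) (A : Finset α) (T : Finset (Finset α)) : Finset α :=
  (K J A \ T).sup id

lemma del_sub (J : Finset (Finset α)) (A : Finset α) (T : Finset (Finset α)) : del J A T ⊆ A :=
  (Finset.sup_mono Finset.sdiff_subset).trans (supK_subset J A)

lemma mem_bi {v : Finset α} (hv : v ∈ V) {i : Finset α} (hi : i ∈ M v) : i ∈ V.biUnion M :=
  Finset.mem_biUnion.2 ⟨v, hv, hi⟩

lemma K_del (hS : Setup J V Q D M y) {v : Finset α} (hv : v ∈ V) {A : Finset α}
    (hA : A ∈ FFv J V M y v) {T : Finset (Finset α)} (hT : T ⊆ K J A ∩ M v) :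
    K J (del J A T) = K J A \ T := by
  have hy := (Finset.mem_filter.1 hA).2.2
  ext G
  rw [mem_K, Finset.mem_sdiff, mem_K]
  constructor
  · rintro ⟨hG, hs⟩
    refine ⟨⟨hG, hs.trans (del_sub J A T)⟩, fun hGT => ?_⟩
    have hGM : G ∈ M v := (Finset.mem_inter.1 (hT hGT)).2
    have hb := mem_bi hv hGM
    have hyG : y G ∈ del J A T := hs (hS.yj hb)
    obtain ⟨G', hG', hyG'⟩ := mem_sup_id.1 hyG
    obtain ⟨hG'K, hG'T⟩ := Finset.mem_sdiff.1 hG'
    obtain ⟨hG'J, hG's⟩ := mem_K.1 hG'K
    have hG'V : G' ∉ V := by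
      intro h
      exact hy G hGM (mem_sup_id.2 ⟨G', mem_K.2 ⟨h, hG's⟩, hyG'⟩)
    have := hS.eq_of hb hG'J hG'V hyG' (hS.yj hb)
    subst this
    exact hG'T hGT
  · rintro ⟨⟨hG, hs⟩, hGT⟩
    exact ⟨hG, Finset.le_sup (f := id) (Finset.mem_sdiff.2 ⟨mem_K.2 ⟨hG, hs⟩, hGT⟩)⟩

lemma del_mem (hS : Setup J V Q D M y) {v : Finset α} (hv : v ∈ V) {A : Finset α}
    (hA : A ∈ FFv J V M y v) {T : Finset (Finset α)} (hT : T ⊆ K J A ∩ M v) :
    del J A T ∈ FFv J V M y v := by
  obtain ⟨hAF, hvA, hy⟩ := Finset.mem_filter.1 hA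
  obtain ⟨hAJ, hAV⟩ := Finset.mem_sdiff.1 hAF
  refine Finset.mem_filter.2 ⟨Finset.mem_sdiff.2 ⟨?_, ?_⟩, ?_, ?_⟩
  · exact sup_mem_unions (Finset.sdiff_subset.trans (K_subset J A))
  · intro h
    apply hAV
    have hTJ : T ⊆ J \ V := by
      intro G hG
      have hGM : G ∈ M v := (Finset.mem_inter.1 (hT hG)).2
      exact hS.QJ (hS.MQ v hv hGM)
    have h2 : del J A T ∪ T.sup id = A := by
      rw [del, ← Finset.sup_eq_union, ← Finset.sup_union,
        Finset.sdiff_union_of_subset (hT.trans Finset.inter_subset_left), supK_eq hAJ]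
    rw [← h2]
    exact union_mem h (sup_mem_unions hTJ)
  · exact fun h => hvA (h.trans (del_sub J A T))
  · intro i hi h
    apply hy i hi
    refine Finset.mem_of_subset ?_ h
    apply Finset.sup_mono
    intro G hG
    obtain ⟨h1, h2⟩ := mem_K.1 hG
    exact mem_K.2 ⟨h1, h2.trans (del_sub J A T)⟩

lemma fibre_count (hS : Setup J V Q D M y) {v : Finset α} (hv : v ∈ V)
    (K0 : Finset (Finset α)) :
    ((FFv J V M y v).filter fun A => K J A ∩ M v = K0).card * 2 ^ K0.card
      ≤ (FFv J V M y v).card := by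
  rw [← Finset.card_powerset, ← Finset.card_product]
  apply Finset.card_le_card_of_injOn (fun p => del J p.1 p.2)
  · rintro ⟨A, T⟩ hp
    simp only [Finset.coe_product, Set.mem_prod, Finset.mem_coe, Finset.mem_filter,
      Finset.mem_powerset] at hp
    obtain ⟨⟨hA, hK⟩, hT⟩ := hp
    rw [← hK] at hT
    exact del_mem hS hv hA hT
  · rintro ⟨A, T⟩ hp ⟨B, U⟩ hq hpq
    simp only [Finset.coe_product, Set.mem_prod, Finset.mem_coe, Finset.mem_filter,
      Finset.mem_powerset] at hp hq hpq
    obtain ⟨⟨hA, hK⟩, hT⟩ := hp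
    obtain ⟨⟨hB, hK'⟩, hU⟩ := hq
    have hT' : T ⊆ K J A ∩ M v := by rw [hK]; exact hT
    have hU' : U ⊆ K J B ∩ M v := by rw [hK']; exact hU
    have e1 := K_del hS hv hA hT'
    have e2 := K_del hS hv hB hU'
    rw [hpq, e2] at e1
    -- `e1 : K J B \ U = K J A \ T`
    have hTU : T = U := by
      ext G
      by_cases hG0 : G ∈ K0
      · have h1 : G ∈ K J A ∧ G ∈ M v := by
          rw [← hK] at hG0
          exact Finset.mem_inter.1 hG0
        have h2 : G ∈ K J B ∧ G ∈ M v := by
          rw [← hK'] at hG0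
          exact Finset.mem_inter.1 hG0
        have h3 := Finset.ext_iff.1 e1 G
        rw [Finset.mem_sdiff, Finset.mem_sdiff] at h3
        tauto
      · exact ⟨fun h => absurd (hT h) hG0, fun h => absurd (hU h) hG0⟩
    subst hTU
    have hAB : K J A = K J B := by
      have h1 := Finset.sdiff_union_of_subset (hT'.trans Finset.inter_subset_left)
      have h2 := Finset.sdiff_union_of_subset (hU'.trans Finset.inter_subset_left)
      rw [← h1, ← h2, e1]
    have hAJ : A ∈ unions J := (Finset.mem_sdiff.1 (Finset.mem_filter.1 hA).1).1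
    have hBJ : B ∈ unions J := (Finset.mem_sdiff.1 (Finset.mem_filter.1 hB).1).1
    rw [K_injOn hAJ hBJ hAB]

/-- Deletion count. -/
theorem crit_count (hS : Setup J V Q D M y) (hD : 1 ≤ D) {v : Finset α} (hv : v ∈ V) :
    2 ^ (D - 1) * ((FFv J V M y v).filter fun A => crit V M y A v).card
      ≤ (D + 1) * (FFv J V M y v).card := by
  classical
  set S : Finset (Finset (Finset α)) := insert (M v) ((M v).image fun i => (M v).erase i) with hSdef
  have hScard : S.card ≤ D + 1 := by
    refine (Finset.card_insert_le _ _).trans ?_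
    have := Finset.card_image_le (s := M v) (f := fun i => (M v).erase i)
    rw [hS.Mcard v hv] at this
    omega
  have hScard' : ∀ K0 ∈ S, D - 1 ≤ K0.card := by
    intro K0 hK0
    rcases Finset.mem_insert.1 hK0 with rfl | h
    · rw [hS.Mcard v hv]; omega
    · obtain ⟨i, hi, rfl⟩ := Finset.mem_image.1 h
      rw [Finset.card_erase_of_mem hi, hS.Mcard v hv]
  have hcrit : ∀ A ∈ FFv J V M y v, crit V M y A v → K J A ∩ M v ∈ S := by
    rintro A hA ⟨j, hj, hyj, hvA⟩
    obtain ⟨hAF, hvA', hy⟩ := Finset.mem_filter.1 hA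
    obtain ⟨hAJ, hAV⟩ := Finset.mem_sdiff.1 hAF
    have hsub : (M v).erase j ⊆ K J A ∩ M v := by
      intro i hi
      obtain ⟨hij, hiM⟩ := Finset.mem_erase.1 hi
      refine Finset.mem_inter.2 ⟨?_, hiM⟩
      have hb := mem_bi hv hiM
      have h1 : y i ∈ A ∪ j := hvA (hS.ymemV v hv i hiM)
      have h2 : y i ∈ A := by
        rcases Finset.mem_union.1 h1 with h | h
        · exact h
        · exact absurd (hS.eq_of hb (hS.jJ hj) (hS.jnV hj) h (hS.yj hb)) (Ne.symm hij)
      obtain ⟨G, hG, hs, hyG⟩ := (mem_iff hAJ _).1 h2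
      have hGV : G ∉ V := fun h => hy i hiM (mem_sup_id.2 ⟨G, mem_K.2 ⟨h, hs⟩, hyG⟩)
      have := hS.eq_of hb hG hGV hyG (hS.yj hb)
      subst this
      exact mem_K.2 ⟨hG, hs⟩
    by_cases hjM : j ∈ K J A ∩ M v
    · have : K J A ∩ M v = M v := by
        apply Finset.Subset.antisymm Finset.inter_subset_right
        intro i hi
        by_cases hij : i = j
        · rw [hij]; exact hjM
        · exact hsub (Finset.mem_erase.2 ⟨hij, hi⟩)
      rw [this]
      exact Finset.mem_insert_self _ _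
    · have h3 : K J A ∩ M v = (M v).erase j := by
        apply Finset.Subset.antisymm _ hsub
        intro i hi
        refine Finset.mem_erase.2 ⟨?_, (Finset.mem_inter.1 hi).2⟩
        rintro rfl
        exact hjM hi
      rw [h3]
      by_cases hjv : j ∈ M v
      · exact Finset.mem_insert_of_mem (Finset.mem_image.2 ⟨j, hjv, rfl⟩)
      · rw [Finset.erase_eq_of_notMem hjv]
        exact Finset.mem_insert_self _ _
  have hsum : ((FFv J V M y v).filter fun A => crit V M y A v).card
      ≤ ∑ K0 ∈ S, ((FFv J V M y v).filter fun A => K J A ∩ M v = K0).card := by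
    calc ((FFv J V M y v).filter fun A => crit V M y A v).card
        ≤ (S.biUnion fun K0 => (FFv J V M y v).filter fun A => K J A ∩ M v = K0).card := by
          apply Finset.card_le_card
          intro A hA
          obtain ⟨h1, h2⟩ := Finset.mem_filter.1 hA
          exact Finset.mem_biUnion.2 ⟨_, hcrit A h1 h2, Finset.mem_filter.2 ⟨h1, rfl⟩⟩
      _ ≤ _ := Finset.card_biUnion_le
  calc 2 ^ (D - 1) * ((FFv J V M y v).filter fun A => crit V M y A v).card
      ≤ 2 ^ (D - 1) * ∑ K0 ∈ S, ((FFv J V M y v).filter fun A => K J A ∩ M v = K0).card :=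
        Nat.mul_le_mul_left _ hsum
    _ = ∑ K0 ∈ S, 2 ^ (D - 1) * ((FFv J V M y v).filter fun A => K J A ∩ M v = K0).card :=
        Finset.mul_sum _ _ _
    _ ≤ ∑ _K0 ∈ S, (FFv J V M y v).card := by
        apply Finset.sum_le_sum
        intro K0 hK0
        refine le_trans ?_ (fibre_count hS hv K0)
        rw [mul_comm]
        exact Nat.mul_le_mul_left _ (Nat.pow_le_pow_right (by norm_num) (hScard' K0 hK0))
    _ = S.card * (FFv J V M y v).card := by rw [Finset.sum_const, smul_eq_mul]
    _ ≤ (D + 1) * (FFv J V M y v).card := Nat.mul_le_mul_right _ hScard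

end del

end Pool.Agent.H97.GEN
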