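import Pool.Agent.H97.GEN.LinCost

/-! # Theorem X, linear version -/

set_option autoImplicit false

namespace Pool.Agent.H97.GEN

open Finset

variable {α : Type*} [DecidableEq α]

/-- Enumeration of a finite set by increasing values of `E`. -/
lemma exists_enum {β : Type*} [DecidableEq β] [Inhabited β] (Q : Finset β) (E : β → ℕ) :
    ∃ f : ℕ → β, (∀ t < Q.card, f t ∈ Q) ∧ (∀ s < Q.card, ∀ t < Q.card, f s = f t → s = t) ∧
      (∀ s t, s ≤ t → t < Q.card → E (f s) ≤ E (f t)) := by
  classical
  set e := Q.equivFin.symm with he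
  set E' : Fin Q.card → ℕ := fun i => E (e i) with hE'
  set σ := Tuple.sort E' with hσ
  have hmono := Tuple.monotone_sort E'
  refine ⟨fun t => if h : t < Q.card then (e (σ ⟨t, h⟩) : β) else default, ?_, ?_, ?_⟩
  · intro t ht
    simp only [dif_pos ht]
    exact (e (σ ⟨t, ht⟩)).2
  · intro s hs t ht hst
    simp only [dif_pos hs, dif_pos ht] at hst
    have h1 := e.injective (Subtype.ext hst)
    have h2 := σ.injective h1
    simpa using h2
  · intro s t hst ht
    have hs : s < Q.card := by omega
    simp only [dif_pos hs, dif_pos ht]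
    exact hmono (show (⟨s, hs⟩ : Fin Q.card) ≤ ⟨t, ht⟩ from hst)

/-- (4), first half: bound for one `w` by the weights along the enumeration. -/
lemma w_bound {F : Finset (Finset α)} {f : ℕ → Finset α} {r : ℕ}
    (hinj : ∀ s < r, ∀ t < r, f s = f t → s = t)
    (w : Finset α) (y : Finset α → α)
    (hD : Dirs F (NN ((range r).image f) w) y)
    (hbad : ∀ j ∈ NN ((range r).image f) w,
      (F.filter fun A => Bad F (y j) j A).card ≤ EE F j) :
    (((FB F (NN ((range r).image f) w) y).filter
        fun A => nM (NN ((range r).image f) w) y A ≤ 1).card : ℝ)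
      ≤ ∑ t ∈ range r, (if ¬ Disjoint w (f t) then gg (Nat.count (fun s => ¬ Disjoint w (f s)) t)
          else 0) * EE F (f t) := by
  set N := NN ((range r).image f) w with hN
  set P : ℕ → Prop := fun s => ¬ Disjoint w (f s) with hP
  have hmemN : ∀ t < r, P t → f t ∈ N := by
    intro t ht hPt
    exact Finset.mem_filter.2 ⟨Finset.mem_image.2 ⟨t, Finset.mem_range.2 ht, rfl⟩, hPt⟩
  refine (del_bound hD).trans ?_
  have hpt : ∀ A ∈ FB F N y, gg (nK F N y A)
      ≤ ∑ t ∈ range r, (if P t ∧ Bad F (y (f t)) (f t) A then gg (Nat.count P t) else 0) := by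
    intro A hA
    have hb : 1 ≤ nB F N y A := (Finset.mem_filter.1 hA).2
    obtain ⟨j, hj⟩ := Finset.card_pos.1 (lt_of_lt_of_le Nat.zero_lt_one hb)
    obtain ⟨hjN, hjb⟩ := Finset.mem_filter.1 hj
    have hex : ∃ t, t < r ∧ P t ∧ Bad F (y (f t)) (f t) A := by
      obtain ⟨h1, h2⟩ := Finset.mem_filter.1 hjN
      obtain ⟨t, ht, rfl⟩ := Finset.mem_image.1 h1
      exact ⟨t, Finset.mem_range.1 ht, h2, hjb⟩
    classical
    set t0 := Nat.find hex with ht0
    obtain ⟨h1, h2, h3⟩ := Nat.find_spec hex
    have hmin : ∀ s < t0, P s → ¬ Bad F (y (f s)) (f s) A := by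
      intro s hs hPs hbs
      exact Nat.find_min hex hs ⟨by omega, hPs, hbs⟩
    have hcount : Nat.count P t0 ≤ nK F N y A := by
      rw [Nat.count_eq_card_filter_range]
      unfold nK
      calc ((range t0).filter P).card = (((range t0).filter P).image f).card := by
            rw [Finset.card_image_of_injOn]
            intro a ha b hb' hab
            rw [Finset.mem_coe, Finset.mem_filter, Finset.mem_range] at ha hb'
            exact hinj a (by omega) b (by omega) hab
        _ ≤ _ := by
            apply Finset.card_le_card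
            intro i hi
            obtain ⟨s, hs, rfl⟩ := Finset.mem_image.1 hi
            rw [Finset.mem_filter, Finset.mem_range] at hs
            exact Finset.mem_filter.2 ⟨hmemN s (by omega) hs.2, hmin s hs.1 hs.2⟩
    calc gg (nK F N y A) ≤ gg (Nat.count P t0) := gg_antitone hcount
      _ = (if P t0 ∧ Bad F (y (f t0)) (f t0) A then gg (Nat.count P t0) else 0) := by
          rw [if_pos ⟨h2, h3⟩]
      _ ≤ _ := by
          apply Finset.single_le_sum
            (f := fun t => if P t ∧ Bad F (y (f t)) (f t) A then gg (Nat.count P t) else 0)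
          · intro t _
            split_ifs
            · exact gg_nonneg _
            · exact le_rfl
          · exact Finset.mem_range.2 h1
  calc ∑ A ∈ FB F N y, gg (nK F N y A)
      ≤ ∑ A ∈ FB F N y, ∑ t ∈ range r,
          (if P t ∧ Bad F (y (f t)) (f t) A then gg (Nat.count P t) else 0) :=
        Finset.sum_le_sum hpt
    _ = ∑ t ∈ range r, ∑ A ∈ FB F N y,
          (if P t ∧ Bad F (y (f t)) (f t) A then gg (Nat.count P t) else 0) := Finset.sum_comm
    _ ≤ _ := by
        apply Finset.sum_le_sum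
        intro t ht
        rw [Finset.mem_range] at ht
        by_cases hPt : P t
        · have hPt' : ¬ Disjoint w (f t) := hPt
          rw [if_pos hPt']
          simp only [hPt, true_and]
          rw [← Finset.sum_filter, Finset.sum_const, nsmul_eq_mul, mul_comm]
          apply mul_le_mul_of_nonneg_left _ (gg_nonneg _)
          have h1 : ((FB F N y).filter fun A => Bad F (y (f t)) (f t) A).card
              ≤ (F.filter fun A => Bad F (y (f t)) (f t) A).card :=
            Finset.card_le_card (Finset.filter_subset_filter _ (Finset.filter_subset _ _))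
          exact_mod_cast h1.trans (hbad _ (hmemN t ht hPt))
        · have hPt' : ¬ ¬ Disjoint w (f t) := hPt
          rw [if_neg hPt', zero_mul]
          apply le_of_eq
          apply Finset.sum_eq_zero
          intro A _
          rw [if_neg (fun h => hPt h.1)]

/-- **Theorem X, linear version.** Only the members of `V` that meet some member of `Q` are
counted. -/
theorem thmXL' (V Q : Finset (Finset α)) (hVQ : Disjoint V Q) (hne : ∀ G ∈ V ∪ Q, G.Nonempty)
    (hirr : ∀ G ∈ V, G ∉ unions ((V ∪ Q).erase G))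
    (hQ : ∀ G ∈ Q, ∀ G' ∈ Q, G' ≠ G → Disjoint G' G)
    (hcard : 5 * (V.filter fun w => ∃ q ∈ Q, ¬ Disjoint w q).card < Q.card) :
    (∃ G ∈ Q, ∀ G' ∈ V ∪ Q, G' ≠ G → Disjoint G' G) ∨
      (∃ x ∈ (V ∪ Q).sup id, (unions (V ∪ Q)).card < 2 * fr (unions (V ∪ Q)) x) := by
  classical
  by_contra hcon
  push Not at hcon
  obtain ⟨hiso, hfr⟩ := hcon
  set F := unions (V ∪ Q) with hF
  have hcl : ∀ A ∈ F, ∀ j ∈ Q, A ∪ j ∈ F := fun A hA j hj =>
    union_mem hA (self_mem (Finset.mem_union_right _ hj))
  -- every direction meets some member of `V`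
  have hmeet : ∀ j ∈ Q, ∃ w ∈ V, ¬ Disjoint w j := by
    intro j hj
    obtain ⟨G', hG', hne', hnd⟩ := hiso j hj
    rcases Finset.mem_union.1 hG' with h | h
    · exact ⟨G', h, hnd⟩
    · exact absurd (hQ j hj G' h hne') hnd
  -- the points
  have hQne : Q.Nonempty := Finset.card_pos.1 (by omega)
  obtain ⟨j0, hj0⟩ := hQne
  obtain ⟨x0, -⟩ := hne j0 (Finset.mem_union_right _ hj0)
  have hpt : ∀ w j : Finset α, ∃ x : α, ¬ Disjoint w j → x ∈ w ∧ x ∈ j := by
    intro w j
    by_cases h : Disjoint w j
    · exact ⟨x0, fun h' => absurd h h'⟩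
    · obtain ⟨x, h1, h2⟩ := Finset.not_disjoint_iff.1 h
      exact ⟨x, fun _ => ⟨h1, h2⟩⟩
  choose y hy using hpt
  have hfr' : ∀ j ∈ Q, ∀ x ∈ j, 2 * fr F x ≤ F.card := by
    intro j hj x hx
    exact hfr x (mem_sup_id.2 ⟨j, Finset.mem_union_right _ hj, hx⟩)
  -- `E` is positive
  have hEpos : ∀ j ∈ Q, 1 ≤ EE F j := by
    intro j hj
    obtain ⟨w, hw, hwj⟩ := hmeet j hj
    have hwF : w ∈ F := self_mem (Finset.mem_union_left _ hw)
    have hbw : Bad F (y w j) j w := by
      by_cases hjw : j ⊆ w
      · refine Or.inr ⟨hjw, fun B hB hBj => ?_⟩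
        by_contra hxB
        apply hirr w hw
        apply mem_unions_of
        intro z hz
        rw [← hBj] at hz
        rcases Finset.mem_union.1 hz with h | h
        · obtain ⟨G, hG, hs, hzG⟩ := (mem_iff hB z).1 h
          refine ⟨G, Finset.mem_erase.2 ⟨?_, hG⟩, ?_, hzG⟩
          · rintro rfl
            exact hxB (hs (hy G j hwj).1)
          · rw [← hBj]
            exact hs.trans Finset.subset_union_left
        · refine ⟨j, Finset.mem_erase.2 ⟨?_, Finset.mem_union_right _ hj⟩, hjw, h⟩
          rintro rfl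
          exact Finset.disjoint_left.1 hVQ hw hj
      · exact Or.inl ⟨hjw, (hy w j hwj).1⟩
    refine le_trans ?_ (bad_count (hy w j hwj).2 (fun A hA => hcl A hA j hj)
      (hfr' j hj _ (hy w j hwj).2))
    exact Finset.card_pos.2 ⟨w, Finset.mem_filter.2 ⟨hwF, hbw⟩⟩
  -- the enumeration
  have : Inhabited (Finset α) := ⟨∅⟩
  obtain ⟨f, hf1, hf2, hf3⟩ := exists_enum Q (fun j => EE F j)
  set κ : ℕ → ℝ := fun t => ∑ w ∈ V,
    (if ¬ Disjoint w (f t) then gg (Nat.count (fun s => ¬ Disjoint w (f s)) t) else 0) with hκ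
  have hmain : ∀ r ≤ Q.card, ∑ t ∈ range r, ((EE F (f t) : ℕ) : ℝ)
      ≤ ∑ t ∈ range r, κ t * (EE F (f t) : ℕ) := by
    intro r hr
    set M := (range r).image f with hM
    have hMQ : M ⊆ Q := by
      intro j hj
      obtain ⟨t, ht, rfl⟩ := Finset.mem_image.1 hj
      exact hf1 t (by rw [Finset.mem_range] at ht; omega)
    have hinj : ∀ s < r, ∀ t < r, f s = f t → s = t := fun s hs t ht =>
      hf2 s (by omega) t (by omega)
    have h1 : ∑ t ∈ range r, ((EE F (f t) : ℕ) : ℝ) = ((∑ j ∈ M, EE F j : ℕ) : ℝ) := by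
      rw [hM, Finset.sum_image]
      · push_cast; rfl
      · intro s hs t ht hst
        rw [Finset.mem_coe, Finset.mem_range] at hs ht
        exact hinj s hs t ht hst
    have h2 := cost_total (V := V) hQ hMQ (y := y)
      (fun w _ j hj => hy w j (Finset.mem_filter.1 hj).2)
    have h3 : ∀ w ∈ V, (((FB F (NN M w) (y w)).filter
          fun A => nM (NN M w) (y w) A ≤ 1).card : ℝ)
        ≤ ∑ t ∈ range r, (if ¬ Disjoint w (f t) then
            gg (Nat.count (fun s => ¬ Disjoint w (f s)) t) else 0) * EE F (f t) := by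
      intro w _
      apply w_bound hinj w (y w)
      · constructor
        · intro j hj
          exact (hy w j (Finset.mem_filter.1 hj).2).2
        · intro i hi j hj hij
          exact hQ j (hMQ (Finset.mem_filter.1 hj).1) i (hMQ (Finset.mem_filter.1 hi).1) hij
        · intro A hA j hj
          exact hcl A hA j (hMQ (Finset.mem_filter.1 hj).1)
      · intro j hj
        obtain ⟨hjM, hwj⟩ := Finset.mem_filter.1 hj
        exact bad_count (hy w j hwj).2 (fun A hA => hcl A hA j (hMQ hjM))
          (hfr' j (hMQ hjM) _ (hy w j hwj).2)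
    calc ∑ t ∈ range r, ((EE F (f t) : ℕ) : ℝ) = ((∑ j ∈ M, EE F j : ℕ) : ℝ) := h1
      _ ≤ ((∑ w ∈ V, ((FB F (NN M w) (y w)).filter
          fun A => nM (NN M w) (y w) A ≤ 1).card : ℕ) : ℝ) := by exact_mod_cast h2
      _ = ∑ w ∈ V, (((FB F (NN M w) (y w)).filter
          fun A => nM (NN M w) (y w) A ≤ 1).card : ℝ) := by push_cast; rfl
      _ ≤ ∑ w ∈ V, ∑ t ∈ range r, (if ¬ Disjoint w (f t) then
            gg (Nat.count (fun s => ¬ Disjoint w (f s)) t) else 0) * EE F (f t) :=
          Finset.sum_le_sum h3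
      _ = ∑ t ∈ range r, κ t * (EE F (f t) : ℕ) := by
          rw [Finset.sum_comm]
          apply Finset.sum_congr rfl
          intro t _
          rw [hκ, Finset.sum_mul]
  have habel := abel_lemma Q.card (fun t => EE F (f t)) κ (fun t ht => hEpos _ (hf1 t ht))
    hf3 hmain
  set V' := V.filter fun w => ∃ q ∈ Q, ¬ Disjoint w q with hV'
  have hκsum : ∑ t ∈ range Q.card, κ t ≤ 5 * V'.card := by
    rw [hκ, Finset.sum_comm]
    calc ∑ w ∈ V, ∑ t ∈ range Q.card,
          (if ¬ Disjoint w (f t) then gg (Nat.count (fun s => ¬ Disjoint w (f s)) t) else 0)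
        = ∑ w ∈ V', ∑ t ∈ range Q.card,
          (if ¬ Disjoint w (f t) then gg (Nat.count (fun s => ¬ Disjoint w (f s)) t) else 0) := by
          symm
          apply Finset.sum_subset (Finset.filter_subset _ _)
          intro w hw hw'
          apply Finset.sum_eq_zero
          intro t ht
          rw [Finset.mem_range] at ht
          rw [if_neg]
          intro hnd
          exact hw' (Finset.mem_filter.2 ⟨hw, f t, hf1 t ht, hnd⟩)
      _ ≤ ∑ _w ∈ V', (5 : ℝ) := by
          apply Finset.sum_le_sum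
          intro w _
          rw [count_sum]
          exact gg_sum _
      _ = 5 * V'.card := by rw [Finset.sum_const, nsmul_eq_mul, mul_comm]
  have hlt : (5 * V'.card : ℝ) < Q.card := by exact_mod_cast hcard
  linarith

/-- **Theorem X, linear version.** -/
theorem thmXL (V Q : Finset (Finset α)) (hVQ : Disjoint V Q) (hne : ∀ G ∈ V ∪ Q, G.Nonempty)
    (hirr : ∀ G ∈ V, G ∉ unions ((V ∪ Q).erase G))
    (hQ : ∀ G ∈ Q, ∀ G' ∈ Q, G' ≠ G → Disjoint G' G)
    (hcard : 5 * V.card < Q.card) :
    (∃ G ∈ Q, ∀ G' ∈ V ∪ Q, G' ≠ G → Disjoint G' G) ∨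
      (∃ x ∈ (V ∪ Q).sup id, (unions (V ∪ Q)).card < 2 * fr (unions (V ∪ Q)) x) := by
  apply thmXL' V Q hVQ hne hirr hQ
  refine lt_of_le_of_lt ?_ hcard
  exact Nat.mul_le_mul_left _ (Finset.card_le_card (Finset.filter_subset _ _))

end Pool.Agent.H97.GEN
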