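import Pool.Agent.H97.GEN.HalfCost
import Pool.Agent.H97.GEN.LinX

/-! # Theorem X with the constant 3 -/

set_option autoImplicit false

namespace Pool.Agent.H97.GEN

open Finset

variable {α : Type*} [DecidableEq α]

/-- The weight of a member is at most the sum of the charges of its bad directions. -/
lemma charge_member {F : Finset (Finset α)} {f : ℕ → Finset α} {r : ℕ}
    (hinj : ∀ s < r, ∀ t < r, f s = f t → s = t)
    (w : Finset α) (y : Finset α → α) {A : Finset α}
    (hA : 1 ≤ nP (NN ((range r).image f) w) y A) :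
    hg (nK F (NN ((range r).image f) w) y A)
      ≤ ∑ t ∈ range r,
        ((if ¬ Disjoint w (f t) ∧ Part (y (f t)) (f t) A then
            hg (Nat.count (fun s => ¬ Disjoint w (f s)) t) else 0)
          + (if ¬ Disjoint w (f t) ∧ FullB F (y (f t)) (f t) A then
            hb (Nat.count (fun s => ¬ Disjoint w (f s)) t) else 0)) := by
  classical
  set N := NN ((range r).image f) w with hN
  set P : ℕ → Prop := fun s => ¬ Disjoint w (f s) with hP
  set wt : ℕ → ℝ := fun t => (if P t ∧ Part (y (f t)) (f t) A then hg (Nat.count P t) else 0)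
    + (if P t ∧ FullB F (y (f t)) (f t) A then hb (Nat.count P t) else 0) with hwt
  have hwt0 : ∀ t, 0 ≤ wt t := by
    intro t
    rw [hwt]
    apply add_nonneg <;> split_ifs
    · exact (hg_pos _).le
    · exact le_rfl
    · exact hb_nonneg _
    · exact le_rfl
  set I := (range r).filter fun t => P t ∧ Bad F (y (f t)) (f t) A with hI
  -- the set of directions
  have hNeq : N = ((range r).filter P).image f := by
    rw [hN]
    ext j
    simp only [NN, Finset.mem_filter, Finset.mem_image]
    constructor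
    · rintro ⟨⟨t, ht, rfl⟩, hj⟩
      exact ⟨t, ⟨ht, hj⟩, rfl⟩
    · rintro ⟨t, ⟨ht, hj⟩, rfl⟩
      exact ⟨⟨t, ht, rfl⟩, hj⟩
  have hfinj : Set.InjOn f ((range r : Finset ℕ) : Set ℕ) := by
    intro a ha b hb' hab
    rw [Finset.mem_coe, Finset.mem_range] at ha hb'
    exact hinj a ha b hb' hab
  have hNc : N.card = Nat.count P r := by
    rw [hNeq, Finset.card_image_of_injOn, Nat.count_eq_card_filter_range]
    exact hfinj.mono (by
      intro t ht
      exact Finset.mem_coe.2 (Finset.mem_filter.1 (Finset.mem_coe.1 ht)).1)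
  have hIc : nB F N y A = I.card := by
    unfold nB
    have : N.filter (fun j => Bad F (y j) j A) = I.image f := by
      rw [hNeq]
      ext j
      simp only [hI, Finset.mem_filter, Finset.mem_image]
      constructor
      · rintro ⟨⟨t, ⟨ht, hj⟩, rfl⟩, hb'⟩
        exact ⟨t, ⟨ht, hj, hb'⟩, rfl⟩
      · rintro ⟨t, ⟨ht, hj, hb'⟩, rfl⟩
        exact ⟨⟨t, ⟨ht, hj⟩, rfl⟩, hb'⟩
    rw [this, Finset.card_image_of_injOn]
    exact hfinj.mono (by
      intro t ht
      exact Finset.mem_coe.2 (Finset.mem_filter.1 (Finset.mem_coe.1 ht)).1)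
  have hKc : nB F N y A + nK F N y A = N.card := by
    unfold nB nK
    exact Finset.card_filter_add_card_filter_not _
  -- ranks
  have hρinj : Set.InjOn (Nat.count P) (I : Set ℕ) := by
    intro a ha b hb' hab
    rw [Finset.mem_coe, hI, Finset.mem_filter] at ha hb'
    exact Nat.count_injective ha.2.1 hb'.2.1 hab
  set B := I.image (Nat.count P) with hB
  have hBc : B.card = I.card := Finset.card_image_of_injOn hρinj
  have hBr : B ⊆ range (Nat.count P r) := by
    intro ρ hρ
    obtain ⟨t, ht, rfl⟩ := Finset.mem_image.1 hρ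
    rw [hI, Finset.mem_filter, Finset.mem_range] at ht
    rw [Finset.mem_range]
    exact Nat.count_strict_mono ht.2.1 ht.1
  -- the partial direction
  obtain ⟨j, hj⟩ := Finset.card_pos.1 (lt_of_lt_of_le Nat.zero_lt_one hA)
  obtain ⟨hjN, hjp⟩ := Finset.mem_filter.1 hj
  rw [hNeq] at hjN
  obtain ⟨t0, ht0, rfl⟩ := Finset.mem_image.1 hjN
  obtain ⟨ht0r, ht0P⟩ := Finset.mem_filter.1 ht0
  have ht0I : t0 ∈ I := Finset.mem_filter.2 ⟨ht0r, ht0P, bad_iff.2 (Or.inl hjp)⟩
  have hc := charge (Nat.count P r) B hBr (Finset.mem_image_of_mem (Nat.count P) ht0I)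
  have hk : Nat.count P r - B.card = nK F N y A := by omega
  rw [hk] at hc
  refine hc.trans ?_
  have hBe : B.erase (Nat.count P t0) = (I.erase t0).image (Nat.count P) := by
    ext ρ
    simp only [Finset.mem_erase, hB, Finset.mem_image]
    constructor
    · rintro ⟨h1, t, ht, rfl⟩
      exact ⟨t, ⟨fun h => h1 (by rw [h]), ht⟩, rfl⟩
    · rintro ⟨t, ⟨h1, ht⟩, rfl⟩
      refine ⟨fun h => h1 ?_, t, ht, rfl⟩
      exact hρinj (Finset.mem_coe.2 ht) (Finset.mem_coe.2 ht0I) h
  rw [hBe, Finset.sum_image (fun a ha b hb' hab => hρinj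
    (Finset.mem_coe.2 (Finset.mem_of_mem_erase (Finset.mem_coe.1 ha)))
    (Finset.mem_coe.2 (Finset.mem_of_mem_erase (Finset.mem_coe.1 hb'))) hab)]
  have hsub : ∑ t ∈ I, wt t ≤ ∑ t ∈ range r, wt t := by
    apply Finset.sum_le_sum_of_subset_of_nonneg (Finset.filter_subset _ _)
    intro t _ _
    exact hwt0 t
  refine le_trans ?_ hsub
  rw [← Finset.add_sum_erase I wt ht0I]
  apply add_le_add
  · rw [hwt]
    simp only
    rw [if_pos ⟨ht0P, hjp⟩]
    have : 0 ≤ (if P t0 ∧ FullB F (y (f t0)) (f t0) A then hb (Nat.count P t0) else 0) := by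
      split_ifs
      · exact hb_nonneg _
      · exact le_rfl
    linarith
  · apply Finset.sum_le_sum
    intro t ht
    obtain ⟨-, htI⟩ := Finset.mem_erase.1 ht
    rw [hI, Finset.mem_filter] at htI
    obtain ⟨-, htP, htb⟩ := htI
    rw [hwt]
    simp only
    rcases bad_iff.1 htb with h | h
    · rw [if_pos ⟨htP, h⟩, if_neg (fun h' => not_part_full h h'.2)]
      have := hb_le_hg (Nat.count P t)
      linarith
    · rw [if_neg (fun h' => not_part_full h'.2 h), if_pos ⟨htP, h⟩]
      linarith

/-- (4), first half: bound for one `w` by the weights along the enumeration. -/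
lemma w_boundP {F : Finset (Finset α)} {f : ℕ → Finset α} {r : ℕ}
    (hinj : ∀ s < r, ∀ t < r, f s = f t → s = t)
    (w : Finset α) (y : Finset α → α)
    (hD : Dirs F (NN ((range r).image f) w) y)
    (hbad : ∀ j ∈ NN ((range r).image f) w, ∀ a b : ℝ, 0 ≤ b → b ≤ a →
      a * (F.filter fun A => Part (y j) j A).card + b * (F.filter fun A => FullB F (y j) j A).card
        ≤ (a + b) / 2 * EE F j) :
    (((FP F (NN ((range r).image f) w) y).filter
        fun A => nM (NN ((range r).image f) w) y A ≤ 1).card : ℝ)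
      ≤ ∑ t ∈ range r, (if ¬ Disjoint w (f t) then hw (Nat.count (fun s => ¬ Disjoint w (f s)) t)
          else 0) * EE F (f t) := by
  classical
  set N := NN ((range r).image f) w with hN
  set P : ℕ → Prop := fun s => ¬ Disjoint w (f s) with hP
  refine (del_boundP hD).trans ?_
  calc ∑ A ∈ FP F N y, hg (nK F N y A)
      ≤ ∑ A ∈ FP F N y, ∑ t ∈ range r,
          ((if P t ∧ Part (y (f t)) (f t) A then hg (Nat.count P t) else 0)
            + (if P t ∧ FullB F (y (f t)) (f t) A then hb (Nat.count P t) else 0)) := by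
        apply Finset.sum_le_sum
        intro A hA
        exact charge_member hinj w y (Finset.mem_filter.1 hA).2
    _ ≤ ∑ A ∈ F, ∑ t ∈ range r,
          ((if P t ∧ Part (y (f t)) (f t) A then hg (Nat.count P t) else 0)
            + (if P t ∧ FullB F (y (f t)) (f t) A then hb (Nat.count P t) else 0)) := by
        apply Finset.sum_le_sum_of_subset_of_nonneg (Finset.filter_subset _ _)
        intro A _ _
        apply Finset.sum_nonneg
        intro t _
        apply add_nonneg <;> split_ifs
        · exact (hg_pos _).le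
        · exact le_rfl
        · exact hb_nonneg _
        · exact le_rfl
    _ = ∑ t ∈ range r, ∑ A ∈ F,
          ((if P t ∧ Part (y (f t)) (f t) A then hg (Nat.count P t) else 0)
            + (if P t ∧ FullB F (y (f t)) (f t) A then hb (Nat.count P t) else 0)) :=
        Finset.sum_comm
    _ ≤ _ := by
        apply Finset.sum_le_sum
        intro t ht
        rw [Finset.mem_range] at ht
        by_cases hPt : P t
        · have hPt' : ¬ Disjoint w (f t) := hPt
          rw [if_pos hPt']
          have hmem : f t ∈ N :=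
            Finset.mem_filter.2 ⟨Finset.mem_image.2 ⟨t, Finset.mem_range.2 ht, rfl⟩, hPt⟩
          have h1 := hbad (f t) hmem (hg (Nat.count P t)) (hb (Nat.count P t)) (hb_nonneg _)
            (hb_le_hg _)
          simp only [hPt, true_and]
          rw [Finset.sum_add_distrib, ← Finset.sum_filter, ← Finset.sum_filter, Finset.sum_const,
            Finset.sum_const, nsmul_eq_mul, nsmul_eq_mul]
          unfold hw
          linarith
        · have hPt' : ¬ ¬ Disjoint w (f t) := hPt
          rw [if_neg hPt', zero_mul]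
          apply le_of_eq
          apply Finset.sum_eq_zero
          intro A _
          rw [if_neg (fun h => hPt h.1), if_neg (fun h => hPt h.1), add_zero]

/-- **Theorem X with the constant 3.** Only the members of `V` that meet some member of `Q` are
counted. -/
theorem thmX3 (V Q : Finset (Finset α)) (hVQ : Disjoint V Q) (hne : ∀ G ∈ V ∪ Q, G.Nonempty)
    (hirr : ∀ G ∈ V, G ∉ unions ((V ∪ Q).erase G))
    (hQ : ∀ G ∈ Q, ∀ G' ∈ Q, G' ≠ G → Disjoint G' G) (hQne : Q.Nonempty)
    (hcard : 3 * (V.filter fun w => ∃ q ∈ Q, ¬ Disjoint w q).card ≤ Q.card) :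
    (∃ G ∈ Q, ∀ G' ∈ V ∪ Q, G' ≠ G → Disjoint G' G) ∨
      (∃ x ∈ Q.sup id, (unions (V ∪ Q)).card < 2 * fr (unions (V ∪ Q)) x) := by
  classical
  by_contra hcon
  push Not at hcon
  obtain ⟨hiso, hfr⟩ := hcon
  set F := unions (V ∪ Q) with hF
  have hcl : ∀ A ∈ F, ∀ j ∈ Q, A ∪ j ∈ F := fun A hA j hj =>
    union_mem hA (self_mem (Finset.mem_union_right _ hj))
  -- every direction meets some member of `V`
  have hmeet : ∀ j ∈ Q, ∃ w ∈ V, ¬ Disjoint w j := by
    intro j hj
    obtain ⟨G', hG', hne', hnd⟩ := hiso j hj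
    rcases Finset.mem_union.1 hG' with h | h
    · exact ⟨G', h, hnd⟩
    · exact absurd (hQ j hj G' h hne') hnd
  -- the points
  obtain ⟨j0, hj0⟩ := hQne
  obtain ⟨x0, -⟩ := hne j0 (Finset.mem_union_right _ hj0)
  have hpt : ∀ w j : Finset α, ∃ x : α, ¬ Disjoint w j → x ∈ w ∧ x ∈ j := by
    intro w j
    by_cases h : Disjoint w j
    · exact ⟨x0, fun h' => absurd h h'⟩
    · obtain ⟨x, h1, h2⟩ := Finset.not_disjoint_iff.1 h
      exact ⟨x, fun _ => ⟨h1, h2⟩⟩
  choose y hy using hpt
  have hfr' : ∀ j ∈ Q, ∀ x ∈ j, 2 * fr F x ≤ F.card := by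
    intro j hj x hx
    exact hfr x (mem_sup_id.2 ⟨j, hj, hx⟩)
  -- `E` is positive
  have hEpos : ∀ j ∈ Q, 1 ≤ EE F j := by
    intro j hj
    obtain ⟨w, hw, hwj⟩ := hmeet j hj
    have hwF : w ∈ F := self_mem (Finset.mem_union_left _ hw)
    have hbw : Bad F (y w j) j w := by
      by_cases hjw : j ⊆ w
      · refine Or.inr ⟨hjw, fun B hB hBj => ?_⟩
        by_contra hxB
        apply hirr w hw
        apply mem_unions_of
        intro z hz
        rw [← hBj] at hz
        rcases Finset.mem_union.1 hz with h | h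
        · obtain ⟨G, hG, hs, hzG⟩ := (mem_iff hB z).1 h
          refine ⟨G, Finset.mem_erase.2 ⟨?_, hG⟩, ?_, hzG⟩
          · rintro rfl
            exact hxB (hs (hy G j hwj).1)
          · rw [← hBj]
            exact hs.trans Finset.subset_union_left
        · refine ⟨j, Finset.mem_erase.2 ⟨?_, Finset.mem_union_right _ hj⟩, hjw, h⟩
          rintro rfl
          exact Finset.disjoint_left.1 hVQ hw hj
      · exact Or.inl ⟨hjw, (hy w j hwj).1⟩
    refine le_trans ?_ (bad_count (hy w j hwj).2 (fun A hA => hcl A hA j hj)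
      (hfr' j hj _ (hy w j hwj).2))
    exact Finset.card_pos.2 ⟨w, Finset.mem_filter.2 ⟨hwF, hbw⟩⟩
  -- the enumeration
  have : Inhabited (Finset α) := ⟨∅⟩
  obtain ⟨f, hf1, hf2, hf3⟩ := exists_enum Q (fun j => EE F j)
  set κ : ℕ → ℝ := fun t => ∑ w ∈ V,
    (if ¬ Disjoint w (f t) then hw (Nat.count (fun s => ¬ Disjoint w (f s)) t) else 0) with hκ
  have hmain : ∀ r ≤ Q.card, ∑ t ∈ range r, ((EE F (f t) : ℕ) : ℝ)
      ≤ ∑ t ∈ range r, κ t * (EE F (f t) : ℕ) := by
    intro r hr
    set M := (range r).image f with hM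
    have hMQ : M ⊆ Q := by
      intro j hj
      obtain ⟨t, ht, rfl⟩ := Finset.mem_image.1 hj
      exact hf1 t (by rw [Finset.mem_range] at ht; omega)
    have hinj : ∀ s < r, ∀ t < r, f s = f t → s = t := fun s hs t ht =>
      hf2 s (by omega) t (by omega)
    have h1 : ∑ t ∈ range r, ((EE F (f t) : ℕ) : ℝ) = ((∑ j ∈ M, EE F j : ℕ) : ℝ) := by
      rw [hM, Finset.sum_image]
      · push_cast; rfl
      · intro s hs t ht hst
        rw [Finset.mem_coe, Finset.mem_range] at hs ht
        exact hinj s hs t ht hst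
    have h2 := cost_totalP (V := V) hQ hMQ (y := y)
      (fun w _ j hj => hy w j (Finset.mem_filter.1 hj).2)
    have h3 : ∀ w ∈ V, (((FP F (NN M w) (y w)).filter
          fun A => nM (NN M w) (y w) A ≤ 1).card : ℝ)
        ≤ ∑ t ∈ range r, (if ¬ Disjoint w (f t) then
            hw (Nat.count (fun s => ¬ Disjoint w (f s)) t) else 0) * EE F (f t) := by
      intro w _
      apply w_boundP hinj w (y w)
      · constructor
        · intro j hj
          exact (hy w j (Finset.mem_filter.1 hj).2).2
        · intro i hi j hj hij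
          exact hQ j (hMQ (Finset.mem_filter.1 hj).1) i (hMQ (Finset.mem_filter.1 hi).1) hij
        · intro A hA j hj
          exact hcl A hA j (hMQ (Finset.mem_filter.1 hj).1)
      · intro j hj a b hb0 hab
        obtain ⟨hjM, hwj⟩ := Finset.mem_filter.1 hj
        exact part_weight (hy w j hwj).2 (fun A hA => hcl A hA j (hMQ hjM))
          (hfr' j (hMQ hjM) _ (hy w j hwj).2) hb0 hab
    calc ∑ t ∈ range r, ((EE F (f t) : ℕ) : ℝ) = ((∑ j ∈ M, EE F j : ℕ) : ℝ) := h1
      _ ≤ ((∑ w ∈ V, ((FP F (NN M w) (y w)).filter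
          fun A => nM (NN M w) (y w) A ≤ 1).card : ℕ) : ℝ) := by exact_mod_cast h2
      _ = ∑ w ∈ V, (((FP F (NN M w) (y w)).filter
          fun A => nM (NN M w) (y w) A ≤ 1).card : ℝ) := by push_cast; rfl
      _ ≤ ∑ w ∈ V, ∑ t ∈ range r, (if ¬ Disjoint w (f t) then
            hw (Nat.count (fun s => ¬ Disjoint w (f s)) t) else 0) * EE F (f t) :=
          Finset.sum_le_sum h3
      _ = ∑ t ∈ range r, κ t * (EE F (f t) : ℕ) := by
          rw [Finset.sum_comm]
          apply Finset.sum_congr rfl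
          intro t _
          rw [hκ, Finset.sum_mul]
  have habel := abel_lemma Q.card (fun t => EE F (f t)) κ (fun t ht => hEpos _ (hf1 t ht))
    hf3 hmain
  set V' := V.filter fun w => ∃ q ∈ Q, ¬ Disjoint w q with hV'
  have hκsum : ∑ t ∈ range Q.card, κ t ≤ 2991 / 1000 * V'.card := by
    rw [hκ, Finset.sum_comm]
    calc ∑ w ∈ V, ∑ t ∈ range Q.card,
          (if ¬ Disjoint w (f t) then hw (Nat.count (fun s => ¬ Disjoint w (f s)) t) else 0)
        = ∑ w ∈ V', ∑ t ∈ range Q.card,
          (if ¬ Disjoint w (f t) then hw (Nat.count (fun s => ¬ Disjoint w (f s)) t) else 0) := by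
          symm
          apply Finset.sum_subset (Finset.filter_subset _ _)
          intro w hw hw'
          apply Finset.sum_eq_zero
          intro t ht
          rw [Finset.mem_range] at ht
          rw [if_neg]
          intro hnd
          exact hw' (Finset.mem_filter.2 ⟨hw, f t, hf1 t ht, hnd⟩)
      _ ≤ ∑ _w ∈ V', (2991 / 1000 : ℝ) := by
          apply Finset.sum_le_sum
          intro w _
          rw [count_sum]
          exact hw_sum _
      _ = 2991 / 1000 * V'.card := by rw [Finset.sum_const, nsmul_eq_mul, mul_comm]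
  -- `V'` is not empty
  have hV'pos : 1 ≤ V'.card := by
    obtain ⟨w, hw, hwj⟩ := hmeet j0 hj0
    exact Finset.card_pos.2 ⟨w, Finset.mem_filter.2 ⟨hw, j0, hj0, hwj⟩⟩
  have hV'r : (1 : ℝ) ≤ V'.card := by exact_mod_cast hV'pos
  have hcr : 3 * (V'.card : ℝ) ≤ Q.card := by exact_mod_cast hcard
  linarith

end Pool.Agent.H97.GEN
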