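import Pool.Agent.H97.GEN.StarG2
import Pool.Agent.H97.GEN.HalfX
import Pool.Agent.H97.GEN.Part2b

/-!
# Frequent points: the range `|A| ≥ 2 ^ (11 g / 12)` and the local theorem
-/

set_option autoImplicit false

namespace Pool.Agent.H97.GEN

open Finset

variable {α : Type*} [DecidableEq α]

theorem core12 (J : Finset (Finset α)) (hne : ∀ G ∈ J, G.Nonempty)
    (hirr : ∀ G ∈ J, G ∉ unions (J.erase G)) (hJ : 1 ≤ J.card)
    (hhalf : ∀ x ∈ J.sup id, 2 * fr (unions J) x ≤ (unions J).card)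
    (hd : (2 : ℝ) ^ (11 / 12 * (J.card : ℝ)) ≤ (unions J).card) :
    ∃ G ∈ J, ∀ G' ∈ J, G' ≠ G → Disjoint G' G := by
  refine coreG 3 (11 / 12) (by norm_num) num3 ?_ J hne hirr hJ hhalf hd
  intro V Q h1 h2 h3 h4 h5
  rcases thmX3 V Q h1 h2 h3 h4 (Finset.card_pos.1 (by omega)) h5.le with h | ⟨x, hx, hlt⟩
  · exact Or.inl h
  · obtain ⟨G, hG, hxG⟩ := mem_sup_id.1 hx
    exact Or.inr ⟨x, mem_sup_id.2 ⟨G, Finset.mem_union_right _ hG, hxG⟩, hlt⟩

theorem part1_12 {A : Finset (Finset α)} (hA : UnionClosed A) (hne : ∃ T ∈ A, T.Nonempty)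
    (hd : (2 : ℝ) ^ (11 / 12 * ((gens A).card : ℝ)) ≤ A.card) :
    ∃ x ∈ A.sup id, A.card ≤ 2 * fr A x :=
  part1G (11 / 12) core12 hA hne hd

theorem part2_12 {A : Finset (Finset α)} (hA : UnionClosed A)
    (h : (meet A).Nonempty ∨ SepNotPower A)
    (hd : (2 : ℝ) ^ (((gens A).card : ℝ) - (meet A).card / 12) ≤ A.card) :
    ∃ x ∈ A.sup id, A.card < 2 * fr A x := by
  have hd' : (2 : ℝ) ^ (((gens A).card : ℝ) - (1 - 11 / 12) * (meet A).card) ≤ A.card := by
    rw [show ((gens A).card : ℝ) - (1 - 11 / 12) * (meet A).card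
      = (gens A).card - (meet A).card / 12 by ring]
    exact hd
  rcases h with h | h
  · exact part2G (11 / 12) core12 hA h hd'
  · rcases meet_nonempty_or hA h with h | h
    · exact part2G (11 / 12) core12 hA h hd'
    · exact h

/-- The local theorem. -/
theorem part3_loc {A : Finset (Finset α)} (hA : UnionClosed A) (Q : Finset (Finset α))
    (hQm : Q ⊆ meet A) (hQne : Q.Nonempty) (hQ : ∀ G ∈ Q, ∀ G' ∈ Q, G' ≠ G → Disjoint G' G)
    (hcard : 3 * ((gens A).filter fun G => G ∉ Q ∧ ∃ q ∈ Q, ¬ Disjoint G q).card ≤ Q.card) :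
    ∃ x ∈ Q.sup id, A.card < 2 * fr A x := by
  classical
  have hu := unions_gens hA
  have hQg : Q ⊆ gens A := hQm.trans (Finset.filter_subset _ _)
  have hJ : gens A \ Q ∪ Q = gens A := by
    rw [Finset.union_comm]
    exact Finset.union_sdiff_of_subset hQg
  have hX := thmX3 (gens A \ Q) Q Finset.sdiff_disjoint
    (by rw [hJ]; exact fun G hG => gens_nonempty hG)
    (by
      rw [hJ]
      intro G hG
      exact gens_irr A (Finset.mem_sdiff.1 hG).1) hQ hQne (by
      refine (Nat.mul_le_mul_left 3 (Finset.card_le_card ?_)).trans hcard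
      intro w hw
      rw [Finset.mem_filter, Finset.mem_sdiff] at hw
      exact Finset.mem_filter.2 ⟨hw.1.1, hw.1.2, hw.2⟩)
  rw [hJ] at hX
  rcases hX with ⟨G, hG, hiso⟩ | ⟨x, hx, hlt⟩
  · exfalso
    obtain ⟨-, G', hG', hne', hnd⟩ := Finset.mem_filter.1 (hQm hG)
    exact hnd (hiso G' hG' hne')
  · refine ⟨x, hx, ?_⟩
    have h1 : A.card ≤ (unions (gens A)).card := by
      rw [hu]
      exact Finset.card_le_card (Finset.subset_insert _ _)
    have h2 : fr (unions (gens A)) x = fr A x := by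
      rw [hu]
      exact fr_insert_empty A x
    omega

end Pool.Agent.H97.GEN
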