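import Pool.Agent.H97.GEN.Defs

/-!
# Gibbs bound for families with many disjoint pairs of generators that rarely occur
-/

set_option autoImplicit false

namespace Pool.Agent.H97.GEN

open Finset

/-- The weight: `3` for every pair of which neither element is in `S`. -/
private noncomputable def wt {ι : Type*} [DecidableEq ι] (P : Finset (ι × ι)) (S : Finset ι) : ℝ :=
  ∏ p ∈ P, if p.1 ∉ S ∧ p.2 ∉ S then (3 : ℝ) else 1

private lemma wt_pos {ι : Type*} [DecidableEq ι] (P : Finset (ι × ι)) (S : Finset ι) :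
    0 < wt P S := by
  unfold wt
  apply Finset.prod_pos
  intro p _
  split_ifs <;> norm_num

private lemma wt_insert_left {ι : Type*} [DecidableEq ι] (P : Finset (ι × ι)) (S : Finset ι) (a : ι)
    (h : ∀ p ∈ P, p.1 ≠ a ∧ p.2 ≠ a) : wt P (insert a S) = wt P S := by
  unfold wt
  apply Finset.prod_congr rfl
  intro p hp
  have h1 := (h p hp).1
  have h2 := (h p hp).2
  simp [Finset.mem_insert, h1, h2]

private lemma wt_sum {ι : Type*} [DecidableEq ι] (P : Finset (ι × ι)) :
    ∀ J : Finset ι, (∀ p ∈ P, p.1 ∈ J ∧ p.2 ∈ J ∧ p.1 ≠ p.2) →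
    (∀ p ∈ P, ∀ q ∈ P, p ≠ q → p.1 ≠ q.1 ∧ p.1 ≠ q.2 ∧ p.2 ≠ q.1 ∧ p.2 ≠ q.2) →
    2 ^ P.card * ∑ S ∈ J.powerset, wt P S = 3 ^ P.card * 2 ^ J.card := by
  induction P using Finset.induction_on with
  | empty =>
    intro J _ _
    simp [wt]
  | insert p0 P hp0 ih =>
    intro J hP1 hP2
    obtain ⟨a, b⟩ := p0
    have h0 := hP1 (a, b) (Finset.mem_insert_self _ _)
    simp only at h0
    obtain ⟨haJ, hbJ, hab⟩ := h0
    have hdis : ∀ p ∈ P, p.1 ≠ a ∧ p.1 ≠ b ∧ p.2 ≠ a ∧ p.2 ≠ b := by
      intro p hp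
      have hne : p ≠ (a, b) := fun h => hp0 (h ▸ hp)
      exact hP2 p (Finset.mem_insert_of_mem hp) (a, b) (Finset.mem_insert_self _ _) hne
    set J0 : Finset ι := (J.erase a).erase b with hJ0
    have hbJa : b ∈ J.erase a := Finset.mem_erase.2 ⟨hab.symm, hbJ⟩
    have hb0 : b ∉ J0 := Finset.notMem_erase _ _
    have hJb : insert b J0 = J.erase a := Finset.insert_erase hbJa
    have ha0 : a ∉ insert b J0 := by rw [hJb]; exact Finset.notMem_erase _ _
    have ha1 : a ∉ J0 := fun h => ha0 (Finset.mem_insert_of_mem h)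
    have hJa : insert a (insert b J0) = J := by rw [hJb]; exact Finset.insert_erase haJ
    have hcard : J.card = J0.card + 2 := by
      rw [← hJa, Finset.card_insert_of_notMem ha0, Finset.card_insert_of_notMem hb0]
    have ihJ := ih J0 (by
      intro p hp
      have h1 := hP1 p (Finset.mem_insert_of_mem hp)
      have h2 := hdis p hp
      refine ⟨?_, ?_, h1.2.2⟩
      · simp [hJ0, Finset.mem_erase, h1.1, h2.1, h2.2.1]
      · simp [hJ0, Finset.mem_erase, h1.2.1, h2.2.2.1, h2.2.2.2]) (by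
      intro p hp q hq hpq
      exact hP2 p (Finset.mem_insert_of_mem hp) q (Finset.mem_insert_of_mem hq) hpq)
    have hwt : ∀ S : Finset ι, wt (insert (a, b) P) S
        = (if a ∉ S ∧ b ∉ S then (3 : ℝ) else 1) * wt P S := by
      intro S
      unfold wt
      rw [Finset.prod_insert hp0]
    have hA : ∀ S : Finset ι, wt P (insert a S) = wt P S := fun S =>
      wt_insert_left P S a (fun p hp => ⟨(hdis p hp).1, (hdis p hp).2.2.1⟩)
    have hB : ∀ S : Finset ι, wt P (insert b S) = wt P S := fun S =>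
      wt_insert_left P S b (fun p hp => ⟨(hdis p hp).2.1, (hdis p hp).2.2.2⟩)
    have hsum : ∑ S ∈ J.powerset, wt (insert (a, b) P) S = 6 * ∑ S ∈ J0.powerset, wt P S := by
      rw [← hJa, Finset.sum_powerset_insert ha0, Finset.sum_powerset_insert hb0,
        Finset.sum_powerset_insert hb0]
      have e1 : ∑ S ∈ J0.powerset, wt (insert (a, b) P) S = 3 * ∑ S ∈ J0.powerset, wt P S := by
        rw [Finset.mul_sum]
        apply Finset.sum_congr rfl
        intro S hS
        have hSJ := Finset.mem_powerset.1 hS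
        rw [hwt, if_pos ⟨fun h => ha1 (hSJ h), fun h => hb0 (hSJ h)⟩]
      have e2 : ∑ S ∈ J0.powerset, wt (insert (a, b) P) (insert b S)
          = ∑ S ∈ J0.powerset, wt P S := by
        apply Finset.sum_congr rfl
        intro S hS
        rw [hwt, if_neg (by simp), hB, one_mul]
      have e3 : ∑ S ∈ J0.powerset, wt (insert (a, b) P) (insert a S)
          = ∑ S ∈ J0.powerset, wt P S := by
        apply Finset.sum_congr rfl
        intro S hS
        rw [hwt, if_neg (by simp), hA, one_mul]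
      have e4 : ∑ S ∈ J0.powerset, wt (insert (a, b) P) (insert a (insert b S))
          = ∑ S ∈ J0.powerset, wt P S := by
        apply Finset.sum_congr rfl
        intro S hS
        rw [hwt, if_neg (by simp), hA, hB, one_mul]
      rw [e1, e2, e3, e4]
      ring
    rw [hsum, Finset.card_insert_of_notMem hp0, hcard]
    have : (2 : ℝ) ^ (P.card + 1) * (6 * ∑ S ∈ J0.powerset, wt P S)
        = 12 * (2 ^ P.card * ∑ S ∈ J0.powerset, wt P S) := by ring
    rw [this, ihJ]
    ring

/-- Gibbs with the product weight: pairs: neither 1/2, other patterns 1/6; free elements 1/2. -/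
theorem pair_bound {ι : Type*} [DecidableEq ι] (J : Finset ι) (P : Finset (ι × ι))
    (hP1 : ∀ p ∈ P, p.1 ∈ J ∧ p.2 ∈ J ∧ p.1 ≠ p.2)
    (hP2 : ∀ p ∈ P, ∀ q ∈ P, p ≠ q → p.1 ≠ q.1 ∧ p.1 ≠ q.2 ∧ p.2 ≠ q.1 ∧ p.2 ≠ q.2)
    (F : Finset (Finset ι)) (hF : ∀ S ∈ F, S ⊆ J)
    (hhalf : ∀ p ∈ P, F.card ≤ 2 * (F.filter fun S => p.1 ∉ S ∧ p.2 ∉ S).card) :
    F.card ^ 2 * 4 ^ P.card ≤ 4 ^ J.card * 3 ^ P.card := by
  rcases F.eq_empty_or_nonempty with rfl | hne
  · simp
  have hFpos : (0 : ℝ) < F.card := by exact_mod_cast Finset.card_pos.2 hne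
  set N : ℝ := (F.card : ℝ) with hN
  set m : ℕ := P.card with hm
  set Z : ℝ := ∑ S ∈ J.powerset, wt P S with hZ
  have hZeq : 2 ^ m * Z = 3 ^ m * 2 ^ J.card := wt_sum P J hP1 hP2
  have hZpos : 0 < Z := by
    have h1 : (0 : ℝ) < 3 ^ m * 2 ^ J.card := by positivity
    rw [← hZeq] at h1
    exact (pos_iff_pos_of_mul_pos h1).1 (by positivity)
  have hsub : ∑ S ∈ F, wt P S ≤ Z := by
    apply Finset.sum_le_sum_of_subset_of_nonneg
    · intro S hS
      exact Finset.mem_powerset.2 (hF S hS)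
    · intro S _ _
      exact (wt_pos P S).le
  -- Gibbs
  have hG : ∑ S ∈ F, Real.log (N * wt P S / Z) ≤ 0 := by
    calc ∑ S ∈ F, Real.log (N * wt P S / Z) ≤ ∑ S ∈ F, (N * wt P S / Z - 1) := by
          apply Finset.sum_le_sum
          intro S _
          exact Real.log_le_sub_one_of_pos (div_pos (mul_pos hFpos (wt_pos P S)) hZpos)
      _ = N * (∑ S ∈ F, wt P S) / Z - N := by
          rw [Finset.sum_sub_distrib, Finset.sum_const, nsmul_eq_mul, mul_one,
            ← Finset.sum_div, ← Finset.mul_sum]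
      _ ≤ N * Z / Z - N := by
          have := mul_le_mul_of_nonneg_left hsub hFpos.le
          have := div_le_div_of_nonneg_right this hZpos.le
          linarith
      _ = 0 := by field_simp; ring
  have hlog : ∀ S, Real.log (N * wt P S / Z)
      = (Real.log N - Real.log Z) + ∑ p ∈ P, (if p.1 ∉ S ∧ p.2 ∉ S then Real.log 3 else 0) := by
    intro S
    rw [Real.log_div (mul_pos hFpos (wt_pos P S)).ne' hZpos.ne',
      Real.log_mul hFpos.ne' (wt_pos P S).ne']
    have : Real.log (wt P S) = ∑ p ∈ P, (if p.1 ∉ S ∧ p.2 ∉ S then Real.log 3 else 0) := by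
      unfold wt
      rw [Real.log_prod (s := P) (fun p _ => by split_ifs <;> norm_num)]
      apply Finset.sum_congr rfl
      intro p _
      split_ifs <;> simp
    rw [this]
    ring
  have hsum : ∑ S ∈ F, Real.log (N * wt P S / Z)
      = N * (Real.log N - Real.log Z)
        + ∑ p ∈ P, ((F.filter fun S => p.1 ∉ S ∧ p.2 ∉ S).card : ℝ) * Real.log 3 := by
    simp_rw [hlog]
    rw [Finset.sum_add_distrib, Finset.sum_const, nsmul_eq_mul, Finset.sum_comm]
    congr 1
    apply Finset.sum_congr rfl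
    intro p _
    rw [← Finset.sum_filter, Finset.sum_const, nsmul_eq_mul]
  have hlog3 : 0 < Real.log 3 := Real.log_pos (by norm_num)
  have hlow : (m : ℝ) * (N / 2 * Real.log 3)
      ≤ ∑ p ∈ P, ((F.filter fun S => p.1 ∉ S ∧ p.2 ∉ S).card : ℝ) * Real.log 3 := by
    have : ∑ p ∈ P, N / 2 * Real.log 3 = (m : ℝ) * (N / 2 * Real.log 3) := by
      rw [Finset.sum_const, nsmul_eq_mul]
    rw [← this]
    apply Finset.sum_le_sum
    intro p hp
    apply mul_le_mul_of_nonneg_right _ hlog3.le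
    have h := hhalf p hp
    have h2 : N ≤ 2 * ((F.filter fun S => p.1 ∉ S ∧ p.2 ∉ S).card : ℝ) := by
      rw [hN]; exact_mod_cast h
    linarith
  have hmain : Real.log N - Real.log Z + m / 2 * Real.log 3 ≤ 0 := by
    have h1 : N * (Real.log N - Real.log Z + m / 2 * Real.log 3) ≤ 0 := by
      have := hG
      rw [hsum] at this
      nlinarith [this, hlow]
    exact nonpos_of_mul_nonpos_right h1 hFpos
  have hlogZ : m * Real.log 2 + Real.log Z = m * Real.log 3 + J.card * Real.log 2 := by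
    have := congrArg Real.log hZeq
    rwa [Real.log_mul (by positivity) hZpos.ne', Real.log_mul (by positivity) (by positivity),
      Real.log_pow, Real.log_pow, Real.log_pow] at this
  have hfin : Real.log (N ^ 2 * 4 ^ m) ≤ Real.log (4 ^ J.card * 3 ^ m) := by
    rw [Real.log_mul (by positivity) (by positivity), Real.log_mul (by positivity) (by positivity),
      Real.log_pow, Real.log_pow, Real.log_pow, Real.log_pow]
    have h4 : Real.log 4 = 2 * Real.log 2 := by
      rw [show (4 : ℝ) = 2 ^ 2 by norm_num, Real.log_pow]; norm_num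
    rw [h4]
    push_cast
    nlinarith [hmain, hlogZ]
  have hreal : N ^ 2 * 4 ^ m ≤ 4 ^ J.card * 3 ^ m :=
    (Real.log_le_log_iff (by positivity) (by positivity)).1 hfin
  rw [hN] at hreal
  exact_mod_cast hreal

/-- Numerics: `m ≤ 4.819 (g - log a) ≤ .302 h / log (h + 1)`. -/
theorem numeric (g h m a : ℕ) (hh : 1 ≤ h) (ha : 1 ≤ a)
    (hd : (2 : ℝ) ^ ((g : ℝ) - h / (16 * Real.logb 2 (h + 1))) ≤ a)
    (hp : a ^ 2 * 4 ^ m ≤ 4 ^ g * 3 ^ m) :
    2 * m * (Nat.log 2 (2 * m) + 3) + 2 * m < h := by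
  rcases Nat.eq_zero_or_pos m with rfl | hm
  · simp; omega
  set x : ℝ := Real.logb 2 (h + 1) with hx
  have hhr : (1 : ℝ) ≤ h := by exact_mod_cast hh
  have hmr : (1 : ℝ) ≤ m := by exact_mod_cast hm
  have har : (0 : ℝ) < a := by exact_mod_cast ha
  have hx1 : 1 ≤ x := by
    rw [hx, Real.le_logb_iff_rpow_le (by norm_num) (by positivity)]
    norm_num; linarith
  -- the logarithm of the hypotheses
  have hla : (g : ℝ) - h / (16 * x) ≤ Real.logb 2 a := by
    rw [Real.le_logb_iff_rpow_le (by norm_num) har]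
    exact hd
  have hl3 : Real.logb 2 3 ≤ 8 / 5 := by
    have h1 : (5 : ℝ) * Real.logb 2 3 ≤ 8 := by
      have h2 : Real.logb 2 ((3 : ℝ) ^ 5) ≤ Real.logb 2 ((2 : ℝ) ^ 8) := by
        apply Real.logb_le_logb_of_le (by norm_num) (by norm_num) (by norm_num)
      rw [Real.logb_pow, Real.logb_pow, Real.logb_self_eq_one (by norm_num)] at h2
      push_cast at h2
      linarith
    linarith
  have hlp : 2 * Real.logb 2 a + 2 * m ≤ 2 * g + m * Real.logb 2 3 := by
    have hpr : (a : ℝ) ^ 2 * 4 ^ m ≤ 4 ^ g * 3 ^ m := by exact_mod_cast hp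
    have h2 : Real.logb 2 ((a : ℝ) ^ 2 * 4 ^ m) ≤ Real.logb 2 ((4 : ℝ) ^ g * 3 ^ m) := by
      apply Real.logb_le_logb_of_le (by norm_num) (by positivity) hpr
    rw [Real.logb_mul (by positivity) (by positivity), Real.logb_mul (by positivity) (by positivity),
      Real.logb_pow, Real.logb_pow, Real.logb_pow, Real.logb_pow] at h2
    have h4 : Real.logb 2 4 = 2 := by
      rw [show (4 : ℝ) = 2 ^ 2 by norm_num, Real.logb_pow, Real.logb_self_eq_one (by norm_num)]
      norm_num
    rw [h4] at h2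
    push_cast at h2
    linarith
  have hkey : 16 / 5 * m * x ≤ h := by
    have h1 : (m : ℝ) * (2 / 5) ≤ h / (8 * x) := by
      have h2 : (m : ℝ) * (2 - Real.logb 2 3) ≤ 2 * (h / (16 * x)) := by linarith
      have h3 : 2 * ((h : ℝ) / (16 * x)) = h / (8 * x) := by field_simp; ring
      rw [h3] at h2
      nlinarith
    rw [le_div_iff₀ (by positivity)] at h1
    linarith
  -- lower bounds of h and x
  have step : ∀ (k n : ℕ), 2 ^ k ≤ n + 1 → (n : ℝ) ≤ h → (k : ℝ) ≤ x := by
    intro k n hkn hnh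
    rw [hx, Real.le_logb_iff_rpow_le (by norm_num) (by positivity), Real.rpow_natCast]
    have : ((2 : ℝ) ^ k) ≤ n + 1 := by exact_mod_cast hkn
    linarith
  have mono : ∀ c : ℝ, c ≤ x → 16 / 5 * c ≤ h := by
    intro c hc
    nlinarith
  have h4 : (4 : ℕ) ≤ h := by
    have := mono 1 hx1
    by_contra hcon
    have : (h : ℝ) ≤ 3 := by exact_mod_cast (by omega : h ≤ 3)
    linarith
  have hx2 : (2 : ℝ) ≤ x := by
    have := step 2 4 (by norm_num) (by exact_mod_cast h4)
    exact_mod_cast this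
  have h7 : (7 : ℕ) ≤ h := by
    have := mono 2 hx2
    by_contra hcon
    have : (h : ℝ) ≤ 6 := by exact_mod_cast (by omega : h ≤ 6)
    linarith
  have hx3 : (3 : ℝ) ≤ x := by
    have := step 3 7 (by norm_num) (by exact_mod_cast h7)
    exact_mod_cast this
  have h10 : (10 : ℕ) ≤ h := by
    have := mono 3 hx3
    by_contra hcon
    have : (h : ℝ) ≤ 9 := by exact_mod_cast (by omega : h ≤ 9)
    linarith
  have hx4 : (33 / 10 : ℝ) ≤ x := by
    have h1 : (33 : ℝ) ≤ 10 * x := by
      have h2 : Real.logb 2 ((2 : ℝ) ^ 33) ≤ Real.logb 2 (((h : ℝ) + 1) ^ 10) := by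
        apply Real.logb_le_logb_of_le (by norm_num) (by norm_num)
        have h11 : (11 : ℝ) ≤ (h : ℝ) + 1 := by
          have : (10 : ℝ) ≤ h := by exact_mod_cast h10
          linarith
        calc (2 : ℝ) ^ 33 ≤ 11 ^ 10 := by norm_num
          _ ≤ ((h : ℝ) + 1) ^ 10 := by gcongr
      rw [Real.logb_pow, Real.logb_pow, Real.logb_self_eq_one (by norm_num)] at h2
      push_cast at h2
      linarith
    linarith
  set L : ℕ := Nat.log 2 (2 * m) with hL
  have hpow : 2 ^ L ≤ 2 * m := Nat.pow_log_le_self 2 (by omega)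
  have hL1 : 1 ≤ L := by
    rw [hL]
    exact Nat.le_log_of_pow_le (by norm_num) (by omega)
  by_contra hcon
  have hcon' : h ≤ 2 * m * (L + 4) := by
    have : 2 * m * (L + 3) + 2 * m = 2 * m * (L + 4) := by ring
    omega
  have hconr : (h : ℝ) ≤ 2 * m * (L + 4) := by exact_mod_cast hcon'
  have hxle : x ≤ 5 / 8 * (L + 4) := by
    have h1 : (m : ℝ) * (16 / 5 * x) ≤ m * (2 * (L + 4)) := by linarith
    have h2 := le_of_mul_le_mul_left h1 (by linarith)
    linarith
  have hLx : (L : ℝ) + 2 ≤ x := by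
    have h1 : (2 : ℝ) ^ L ≤ 2 * m := by exact_mod_cast hpow
    have h2 : 4 * (2 : ℝ) ^ L ≤ h := by nlinarith
    have h3 : ((L + 2 : ℕ) : ℝ) ≤ x := by
      rw [hx, Real.le_logb_iff_rpow_le (by norm_num) (by positivity), Real.rpow_natCast]
      have : (2 : ℝ) ^ (L + 2) = 4 * 2 ^ L := by ring
      linarith
    push_cast at h3
    exact h3
  have hLr : (L : ℝ) < 2 := by linarith
  have hL2 : L < 2 := by exact_mod_cast hLr
  have hLeq : L = 1 := by omega
  rw [hLeq] at hxle
  push_cast at hxle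
  linarith

end Pool.Agent.H97.GEN
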