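import Mathlib

/-!
# Linear range, sharper weights: numbers

`hg` are the weights, `TT n m = ∑_{j > m} C(n, j)`, `psi` the potentials.
-/

set_option autoImplicit false

namespace Pool.Agent.H97.GEN

open Finset

/-- `∑_{j > m} C(n, j)`. -/
noncomputable def TT (n m : ℕ) : ℝ := 2 ^ n - ∑ j ∈ range (m + 1), (n.choose j : ℝ)

lemma TT_succ (n m : ℕ) : TT (n + 1) m = 2 * TT n m + n.choose m := by
  have h : ∀ m, ∑ j ∈ range (m + 1), ((n + 1).choose j : ℝ)
      = 2 * ∑ j ∈ range (m + 1), (n.choose j : ℝ) - n.choose m := by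
    intro m
    induction m with
    | zero => simp; norm_num
    | succ m ih =>
      rw [Finset.sum_range_succ _ (m + 1), ih, Finset.sum_range_succ _ (m + 1), Nat.choose_succ_succ]
      push_cast
      ring
  unfold TT
  rw [h m, pow_succ]
  ring

lemma TT_nonneg (n m : ℕ) : 0 ≤ TT n m := by
  induction n with
  | zero =>
    unfold TT
    rw [Finset.sum_range_succ']
    simp
  | succ n ih =>
    rw [TT_succ]
    positivity

lemma TT_pred (n m : ℕ) : TT n m = TT n (m + 1) + n.choose (m + 1) := by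
  unfold TT
  rw [Finset.sum_range_succ _ (m + 1)]
  ring

lemma TT_zero (n : ℕ) : TT n 0 = 2 ^ n - 1 := by
  unfold TT
  simp

lemma TT_one (n : ℕ) : TT n 1 = 2 ^ n - 1 - n := by
  have := TT_pred n 0
  rw [TT_zero] at this
  simp only [zero_add, Nat.choose_one_right] at this
  linarith

/-- The weights. -/
noncomputable def hg (k : ℕ) : ℝ :=
  if k ≤ 1 then 20 / 17 else if k = 2 then 40 / 51 else if k = 3 then 60 / 119
  else if k = 4 then 80 / 255 else if k = 5 then 100 / 527
  else 1280 / 1071 * (k / 2 ^ k)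

lemma hg_eq {k : ℕ} (hk : 6 ≤ k) : hg k = 1280 / 1071 * (k / 2 ^ k) := by
  unfold hg
  rw [if_neg (by omega), if_neg (by omega), if_neg (by omega), if_neg (by omega),
    if_neg (by omega)]

lemma hg_pos (k : ℕ) : 0 < hg k := by
  rcases Nat.lt_or_ge k 6 with h | h
  · interval_cases k <;> norm_num [hg]
  · rw [hg_eq h]
    have : (0 : ℝ) < k := by
      have : (6 : ℝ) ≤ k := by exact_mod_cast h
      linarith
    positivity

lemma hg_antitone : Antitone hg := by
  apply antitone_nat_of_succ_le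
  intro k
  rcases Nat.lt_or_ge k 6 with h | h
  · interval_cases k <;> norm_num [hg]
  · rw [hg_eq h, hg_eq (by omega)]
    have h6 : (6 : ℝ) ≤ k := by exact_mod_cast h
    apply mul_le_mul_of_nonneg_left _ (by norm_num)
    rw [div_le_div_iff₀ (by positivity) (by positivity), pow_succ]
    push_cast
    nlinarith [pow_pos (show (0 : ℝ) < 2 by norm_num) k]

/-- Differences. -/
noncomputable def hb (k : ℕ) : ℝ := hg (max k 1) - hg (max k 1 + 1)

lemma hb_nonneg (k : ℕ) : 0 ≤ hb k := by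
  unfold hb
  have := hg_antitone (Nat.le_succ (max k 1))
  linarith

lemma hb_eq {k : ℕ} (hk : 1 ≤ k) : hb k = hg k - hg (k + 1) := by
  unfold hb
  rw [max_eq_left hk]

lemma hb_zero : hb 0 = hb 1 := by
  unfold hb
  simp

/-- Convexity. -/
lemma hb_antitone : Antitone hb := by
  apply antitone_nat_of_succ_le
  intro k
  rcases Nat.eq_zero_or_pos k with rfl | hk
  · rw [hb_zero]
  rw [hb_eq (by omega), hb_eq hk]
  rcases Nat.lt_or_ge k 6 with h | h
  · interval_cases k <;> norm_num [hg]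
  · rw [hg_eq h, hg_eq (by omega), hg_eq (by omega)]
    have h6 : (6 : ℝ) ≤ k := by exact_mod_cast h
    have hp : (0 : ℝ) < 2 ^ k := by positivity
    have e : (k : ℝ) / 2 ^ k - 2 * ((k + 1 : ℕ) / 2 ^ (k + 1)) + (k + 1 + 1 : ℕ) / 2 ^ (k + 1 + 1)
        = (k - 2) / (4 * 2 ^ k) := by
      push_cast
      rw [pow_succ, pow_succ]
      field_simp
      ring
    have e2 : 0 ≤ ((k : ℝ) - 2) / (4 * 2 ^ k) := by
      apply div_nonneg <;> [linarith; positivity]
    nlinarith [e, e2]

/-- The exact weights are at most `hg`. -/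
lemma exact_le (k : ℕ) (hk : 1 ≤ k) : 20 / 17 * (k / ((2 : ℝ) ^ k - 1)) ≤ hg k := by
  rcases Nat.lt_or_ge k 6 with h | h
  · interval_cases k <;> norm_num [hg]
  · rw [hg_eq h]
    have h6 : (6 : ℝ) ≤ k := by exact_mod_cast h
    have hp : (64 : ℝ) ≤ 2 ^ k := by
      calc (64 : ℝ) = 2 ^ 6 := by norm_num
        _ ≤ 2 ^ k := pow_le_pow_right₀ (by norm_num) h
    have h1 : (k : ℝ) / (2 ^ k - 1) ≤ 64 / 63 * (k / 2 ^ k) := by
      rw [show (64 : ℝ) / 63 * (k / 2 ^ k) = (64 * k) / (63 * 2 ^ k) by field_simp,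
        div_le_div_iff₀ (by linarith) (by linarith)]
      nlinarith
    nlinarith

lemma hg_sum (K : ℕ) : ∑ k ∈ range K, hg k ≤ 20 / 17 * 375 / 100 := by
  have key : ∀ n, ∑ k ∈ range (n + 6), hg k
      = 20 / 17 * (1 + 1 + 2 / 3 + 3 / 7 + 4 / 15 + 5 / 31 + 64 / 63 * 7 / 32)
        - 1280 / 1071 * (((n : ℝ) + 7) / 2 ^ (n + 5)) := by
    intro n
    induction n with
    | zero =>
      simp only [zero_add, Nat.cast_zero]
      rw [Finset.sum_range_succ, Finset.sum_range_succ, Finset.sum_range_succ,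
        Finset.sum_range_succ, Finset.sum_range_succ, Finset.sum_range_succ]
      norm_num [hg]
    | succ n ih =>
      rw [show n + 1 + 6 = (n + 6) + 1 by ring, Finset.sum_range_succ, ih, hg_eq (by omega)]
      push_cast
      rw [show n + 1 + 5 = (n + 5) + 1 by ring, show n + 6 = (n + 5) + 1 by ring, pow_succ]
      field_simp
      ring
  have h0 : ∑ k ∈ range K, hg k ≤ ∑ k ∈ range (K + 6), hg k := by
    apply Finset.sum_le_sum_of_subset_of_nonneg
    · intro k hk
      rw [Finset.mem_range] at hk ⊢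
      omega
    · intro k _ _
      exact (hg_pos k).le
  rw [key K] at h0
  have h1 : 0 ≤ 1280 / 1071 * (((K : ℝ) + 7) / 2 ^ (K + 5)) := by positivity
  have h2 : (20 : ℝ) / 17 * (1 + 1 + 2 / 3 + 3 / 7 + 4 / 15 + 5 / 31 + 64 / 63 * 7 / 32)
      ≤ 20 / 17 * 375 / 100 := by norm_num
  linarith

lemma hb_sum (K : ℕ) : ∑ k ∈ range K, hb k ≤ 20 / 17 * 4 / 3 := by
  have key : ∀ n, ∑ k ∈ range (n + 1), hb k = 20 / 17 * 4 / 3 - hg (n + 1) := by
    intro n
    induction n with
    | zero =>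
      simp only [zero_add, Finset.sum_range_one]
      rw [hb_zero, hb_eq le_rfl]
      norm_num [hg]
    | succ n ih =>
      rw [Finset.sum_range_succ, ih, hb_eq (by omega)]
      ring
  rcases Nat.eq_zero_or_pos K with rfl | hK
  · norm_num
  · obtain ⟨n, rfl⟩ : ∃ n, K = n + 1 := ⟨K - 1, by omega⟩
    rw [key]
    have := hg_pos (n + 1)
    linarith

/-- The weight of the direction of rank `t`. -/
noncomputable def hw (t : ℕ) : ℝ := (hg t + hb t) / 2

lemma hw_nonneg (t : ℕ) : 0 ≤ hw t := by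
  unfold hw
  have := hg_pos t
  have := hb_nonneg t
  linarith

lemma hw_sum (K : ℕ) : ∑ k ∈ range K, hw k ≤ 2991 / 1000 := by
  unfold hw
  rw [← Finset.sum_div, Finset.sum_add_distrib]
  have h1 := hg_sum K
  have h2 := hb_sum K
  linarith

lemma hb_le_hg (t : ℕ) : hb t ≤ hg t := by
  rcases Nat.eq_zero_or_pos t with rfl | h
  · rw [hb_zero, hb_eq le_rfl]
    norm_num [hg]
  · rw [hb_eq h]
    have := hg_pos (t + 1)
    linarith

/-- The potentials. -/
noncomputable def psi (κ m : ℕ) : ℝ :=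
  if m = 0 then 3 / 17 else 20 / 17 * (TT (κ + 1) m / ((2 ^ (κ + 1) - 1) * κ.choose m))

lemma psi_zero (κ : ℕ) : psi κ 0 = 3 / 17 := by
  unfold psi
  rw [if_pos rfl]

lemma psi_pos_eq {κ m : ℕ} (hm : 1 ≤ m) :
    psi κ m = 20 / 17 * (TT (κ + 1) m / ((2 ^ (κ + 1) - 1) * κ.choose m)) := by
  unfold psi
  rw [if_neg (by omega)]

lemma two_pow_sub_one_pos (κ : ℕ) : (0 : ℝ) < 2 ^ (κ + 1) - 1 := by
  have : (1 : ℝ) < 2 ^ (κ + 1) := one_lt_pow₀ (by norm_num) (by omega)
  linarith

lemma psi_nonneg (κ m : ℕ) : 0 ≤ psi κ m := by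
  rcases Nat.eq_zero_or_pos m with rfl | hm
  · rw [psi_zero]; norm_num
  · rw [psi_pos_eq hm]
    have h1 := TT_nonneg (κ + 1) m
    have h2 := two_pow_sub_one_pos κ
    positivity

lemma choose_mul_real {κ m : ℕ} (h : m ≤ κ + 1) :
    ((κ.choose m : ℕ) : ℝ) * (κ + 1) = ((κ + 1).choose m : ℕ) * ((κ : ℝ) + 1 - m) := by
  have h1 := Nat.choose_mul_succ_eq κ m
  have h2 : ((κ + 1 - m : ℕ) : ℝ) = (κ : ℝ) + 1 - m := by
    rw [Nat.cast_sub h]
    push_cast
    ring
  rw [← h2]
  exact_mod_cast h1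

/-- `u * psi (k - 1) m`, `k = m + u`. -/
lemma psi_mul {κ m : ℕ} (hm : 1 ≤ m) (h : m ≤ κ) :
    ((κ : ℝ) + 1 - m) * psi κ m
      = 20 / 17 * ((κ + 1) * TT (κ + 1) m / ((2 ^ (κ + 1) - 1) * (κ + 1).choose m)) := by
  rw [psi_pos_eq hm]
  have h1 := choose_mul_real (κ := κ) (m := m) (by omega)
  have h2 : (0 : ℝ) < κ.choose m := by exact_mod_cast Nat.choose_pos h
  have h3 : (0 : ℝ) < (κ + 1).choose m := by exact_mod_cast Nat.choose_pos (by omega)
  have h4 := two_pow_sub_one_pos κ
  field_simp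
  linear_combination (-TT (κ + 1) m) * h1

lemma psi_step {κ m : ℕ} (h : m ≤ κ) : psi (κ + 1) m ≤ psi κ m := by
  rcases Nat.eq_zero_or_pos m with rfl | hm
  · rw [psi_zero, psi_zero]
  have h1 := psi_mul hm h
  have h2 := psi_pos_eq (κ := κ + 1) hm
  have hmk : (0 : ℝ) < (κ : ℝ) + 1 - m := by
    have : (m : ℝ) ≤ κ := by exact_mod_cast h
    linarith
  have hp := two_pow_sub_one_pos κ
  have hp' := two_pow_sub_one_pos (κ + 1)
  have hc : (0 : ℝ) < (κ + 1).choose m := by exact_mod_cast Nat.choose_pos (by omega)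
  have hT := TT_nonneg (κ + 1) m
  have hT1 : ((κ + 1).choose m : ℝ) * ((κ : ℝ) + 1 - m) ≤ ((m : ℝ) + 1) * TT (κ + 1) m := by
    have e1 := TT_pred (κ + 1) m
    have e2 := TT_nonneg (κ + 1) (m + 1)
    have e3 := Nat.choose_succ_right_eq (κ + 1) m
    have e4 : ((κ + 1 - m : ℕ) : ℝ) = (κ : ℝ) + 1 - m := by
      rw [Nat.cast_sub (by omega)]
      push_cast
      ring
    have e5 : (((κ + 1).choose (m + 1) : ℕ) : ℝ) * ((m : ℝ) + 1)
        = ((κ + 1).choose m : ℕ) * ((κ : ℝ) + 1 - m) := by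
      rw [← e4]
      exact_mod_cast e3
    rw [e1]
    nlinarith
  -- compare after multiplication with `κ + 1 - m`
  have hmain : ((κ : ℝ) + 1 - m) * psi (κ + 1) m ≤ ((κ : ℝ) + 1 - m) * psi κ m := by
    rw [h1, h2, TT_succ (κ + 1) m]
    set T := TT (κ + 1) m with hTdef
    set c : ℝ := ((κ + 1).choose m : ℝ) with hcdef
    set P : ℝ := 2 ^ (κ + 1) - 1 with hP
    have hP2 : (2 : ℝ) ^ (κ + 1 + 1) - 1 = 2 * P + 1 := by
      rw [hP, pow_succ _ (κ + 1)]
      ring
    rw [hP2] at *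
    have hm1 : (1 : ℝ) ≤ m := by exact_mod_cast hm
    have key : ((κ : ℝ) + 1 - m) * (2 * T + c) * P ≤ (κ + 1) * T * (2 * P + 1) := by
      -- `T ((κ + 1) (2 P + 1) - 2 (κ + 1 - m) P) ≥ c (κ + 1 - m) P`
      have k1 : c * ((κ : ℝ) + 1 - m) * P ≤ ((m : ℝ) + 1) * T * P :=
        mul_le_mul_of_nonneg_right hT1 hp.le
      have k2 : ((m : ℝ) + 1) * T * P ≤ 2 * m * T * P := by
        apply mul_le_mul_of_nonneg_right _ hp.le
        apply mul_le_mul_of_nonneg_right _ hT
        linarith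
      have k3 : 0 ≤ ((κ : ℝ) + 1) * T := by positivity
      nlinarith
    rw [← mul_assoc, mul_comm ((κ : ℝ) + 1 - m) (20 / 17), mul_assoc]
    apply mul_le_mul_of_nonneg_left _ (by norm_num)
    rw [← mul_div_assoc, div_le_div_iff₀ (by positivity) (by positivity)]
    nlinarith [mul_le_mul_of_nonneg_right key hc.le]
  exact le_of_mul_le_mul_left hmain hmk

/-- The potential as a function defined for all `k`. -/
noncomputable def HH (m k : ℕ) : ℝ := psi (max k (m + 1) - 1) m

lemma HH_nonneg (m k : ℕ) : 0 ≤ HH m k := psi_nonneg _ _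

lemma HH_antitone (m : ℕ) : Antitone (HH m) := by
  apply antitone_nat_of_succ_le
  intro k
  unfold HH
  rcases Nat.lt_or_ge k (m + 1) with h | h
  · rw [max_eq_right h.le, max_eq_right (by omega)]
  · rw [max_eq_left h, max_eq_left (by omega)]
    have : k + 1 - 1 = (k - 1) + 1 := by omega
    rw [this]
    exact psi_step (by omega)

/-- Pointwise inequality. -/
lemma level (m u : ℕ) : (if m ≤ 1 then (1 : ℝ) else 0) + m * HH (m - 1) (m + u)
    ≤ hg (m + u) + u * HH m (m + u) := by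
  rcases Nat.eq_zero_or_pos m with rfl | hm
  · -- `m = 0`
    simp only [zero_add, Nat.cast_zero, zero_mul, add_zero, zero_le, if_true]
    have e : (u : ℝ) * HH 0 u = u * (3 / 17) := by
      rcases Nat.eq_zero_or_pos u with rfl | hu
      · simp
      · unfold HH
        rw [psi_zero]
    rw [e]
    rcases Nat.lt_or_ge u 6 with h | h
    · interval_cases u <;> norm_num [hg]
    · have : (6 : ℝ) ≤ u := by exact_mod_cast h
      have := hg_pos u
      linarith
  · obtain ⟨κ, hκ⟩ : ∃ κ, m + u = κ + 1 := ⟨m + u - 1, by omega⟩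
    have hkr : (m : ℝ) + u = κ + 1 := by exact_mod_cast hκ
    have hu : (u : ℝ) = (κ : ℝ) + 1 - m := by linarith
    have hex := exact_le (m + u) (by omega)
    rw [hκ] at hex
    push_cast at hex
    have hP := two_pow_sub_one_pos κ
    have hc : (0 : ℝ) < (κ + 1).choose m := by exact_mod_cast Nat.choose_pos (by omega)
    -- the last term
    have h2 : (u : ℝ) * HH m (m + u)
        = 20 / 17 * ((κ + 1) * TT (κ + 1) m / ((2 ^ (κ + 1) - 1) * (κ + 1).choose m)) := by
      rcases Nat.eq_zero_or_pos u with rfl | hu0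
      · have : m = κ + 1 := by omega
        subst this
        have hT : TT (κ + 1) (κ + 1) = 0 := by
          unfold TT
          have := Nat.sum_range_choose (κ + 1)
          have h' : ∑ j ∈ range (κ + 1 + 1), ((κ + 1).choose j : ℝ) = 2 ^ (κ + 1) := by
            exact_mod_cast this
          rw [h']
          ring
        rw [hT]
        simp
      · unfold HH
        rw [max_eq_left (by omega), hκ, Nat.add_sub_cancel, hu]
        exact psi_mul hm (by omega)
    rw [h2, hκ]
    rcases Nat.eq_or_lt_of_le hm with h1 | hm2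
    · -- `m = 1`
      have hm1 : m = 1 := h1.symm
      subst hm1
      simp only [le_refl, if_true, Nat.cast_one, one_mul, Nat.sub_self, Nat.choose_one_right,
        TT_one]
      unfold HH
      rw [psi_zero]
      push_cast
      have hk1 : (0 : ℝ) < (κ : ℝ) + 1 := by positivity
      have e : ((κ : ℝ) + 1) * (2 ^ (κ + 1) - 1 - (κ + 1)) / ((2 ^ (κ + 1) - 1) * (κ + 1))
          = 1 - (κ + 1) / (2 ^ (κ + 1) - 1) := by
        field_simp
      rw [e]
      linarith
    · -- `2 ≤ m`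
      rw [if_neg (by omega)]
      have h3 : (m : ℝ) * HH (m - 1) (κ + 1)
          = 20 / 17 * ((κ + 1) * TT (κ + 1) (m - 1)
            / ((2 ^ (κ + 1) - 1) * (κ + 1).choose m)) := by
        obtain ⟨n, rfl⟩ : ∃ n, m = n + 1 := ⟨m - 1, by omega⟩
        unfold HH
        rw [Nat.add_sub_cancel, max_eq_left (by omega), Nat.add_sub_cancel, psi_pos_eq (by omega)]
        have h4 := Nat.add_one_mul_choose_eq κ n
        have h5 : ((κ : ℝ) + 1) * (κ.choose n : ℕ) = ((κ + 1).choose (n + 1) : ℕ) * ((n : ℝ) + 1) := by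
          exact_mod_cast h4
        have h6 : (0 : ℝ) < κ.choose n := by exact_mod_cast Nat.choose_pos (by omega)
        push_cast
        field_simp
        linear_combination (-TT (κ + 1) n) * h5
      have h7 : TT (κ + 1) (m - 1) = TT (κ + 1) m + (κ + 1).choose m := by
        have := TT_pred (κ + 1) (m - 1)
        rwa [show m - 1 + 1 = m by omega] at this
      rw [h3, h7]
      have e : 20 / 17 * (((κ : ℝ) + 1) * (TT (κ + 1) m + (κ + 1).choose m)
            / ((2 ^ (κ + 1) - 1) * (κ + 1).choose m))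
          = 20 / 17 * (((κ : ℝ) + 1) / (2 ^ (κ + 1) - 1))
            + 20 / 17 * ((κ + 1) * TT (κ + 1) m / ((2 ^ (κ + 1) - 1) * (κ + 1).choose m)) := by
        field_simp
        ring
      rw [e]
      linarith

end Pool.Agent.H97.GEN
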