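import Pool.Agent.H97.GEN.LinDel
import Pool.Agent.H97.GEN.HalfNum

/-!
# Linear range, sharper weights: partial directions, deletion with potentials
-/

set_option autoImplicit false

namespace Pool.Agent.H97.GEN

open Finset

variable {α : Type*} [DecidableEq α]

/-- Partial. -/
def Part (x : α) (j A : Finset α) : Prop := ¬ j ⊆ A ∧ x ∈ A

/-- Bad and contained. -/
def FullB (F : Finset (Finset α)) (x : α) (j A : Finset α) : Prop :=
  j ⊆ A ∧ ∀ B ∈ F, B ∪ j = A → x ∈ B

instance (x : α) (j A : Finset α) : Decidable (Part x j A) := by unfold Part; infer_instance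

instance (F : Finset (Finset α)) (x : α) (j A : Finset α) : Decidable (FullB F x j A) := by
  unfold FullB; infer_instance

lemma bad_iff {F : Finset (Finset α)} {x : α} {j A : Finset α} :
    Bad F x j A ↔ Part x j A ∨ FullB F x j A := Iff.rfl

lemma not_part_full {F : Finset (Finset α)} {x : α} {j A : Finset α} (h : Part x j A) :
    ¬ FullB F x j A := fun h' => h.1 h'.1

/-- Partial directions count twice. -/
theorem part_count {F : Finset (Finset α)} {j : Finset α} {x : α} (hx : x ∈ j)
    (hcl : ∀ A ∈ F, A ∪ j ∈ F) (hfr : 2 * fr F x ≤ F.card) :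
    ∃ ν : ℕ, 2 * (F.filter fun A => Part x j A).card + ν ≤ EE F j ∧
      (F.filter fun A => FullB F x j A).card ≤ ν + (F.filter fun A => Part x j A).card := by
  set T := F.filter fun A => j ⊆ A with hT
  set q := (F.filter fun A => Part x j A).card with hq
  have h1 : T.card + (LL F j).card = F.card := by
    rw [hT, LL]
    exact Finset.card_filter_add_card_filter_not (s := F) (p := fun A => j ⊆ A)
  have h2 : fr F x = T.card + q := by
    unfold fr
    rw [← Finset.card_filter_add_card_filter_not (s := F.filter fun A => x ∈ A)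
      (p := fun A => j ⊆ A), Finset.filter_filter, Finset.filter_filter]
    congr 1
    · rw [hT]
      congr 1
      apply Finset.filter_congr
      intro A _
      exact ⟨fun h => h.2, fun h => ⟨h hx, h⟩⟩
    · rw [hq]
      congr 1
      apply Finset.filter_congr
      intro A _
      exact ⟨fun h => ⟨h.2, h.1⟩, fun h => ⟨h.2, h.1⟩⟩
  have himT : imL F j ⊆ T := by
    intro B hB
    obtain ⟨A, hA, rfl⟩ := Finset.mem_image.1 hB
    exact Finset.mem_filter.2 ⟨hcl A (mem_LL.1 hA).1, Finset.subset_union_right⟩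
  have himT' := Finset.card_le_card himT
  have h3 : (F.filter fun A => FullB F x j A).card ≤ (T \ imL F j).card + q := by
    calc (F.filter fun A => FullB F x j A).card
        ≤ ((T \ imL F j) ∪ ((F.filter fun A => Part x j A).image fun A => A ∪ j)).card := by
          apply Finset.card_le_card
          intro A hA
          obtain ⟨hAF, hj, hall⟩ := Finset.mem_filter.1 hA
          by_cases him : A ∈ imL F j
          · apply Finset.mem_union_right
            obtain ⟨B, hB, hBA⟩ := Finset.mem_image.1 him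
            exact Finset.mem_image.2 ⟨B, Finset.mem_filter.2
              ⟨(mem_LL.1 hB).1, (mem_LL.1 hB).2, hall B (mem_LL.1 hB).1 hBA⟩, hBA⟩
          · apply Finset.mem_union_left
            exact Finset.mem_sdiff.2 ⟨Finset.mem_filter.2 ⟨hAF, hj⟩, him⟩
      _ ≤ _ := (Finset.card_union_le _ _).trans (Nat.add_le_add_left Finset.card_image_le _)
  refine ⟨(T \ imL F j).card, ?_, h3⟩
  rw [Finset.card_sdiff_of_subset himT]
  unfold EE
  omega

/-- The combination used. -/
theorem part_weight {F : Finset (Finset α)} {j : Finset α} {x : α} (hx : x ∈ j)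
    (hcl : ∀ A ∈ F, A ∪ j ∈ F) (hfr : 2 * fr F x ≤ F.card) {a b : ℝ} (hb : 0 ≤ b) (hab : b ≤ a) :
    a * (F.filter fun A => Part x j A).card + b * (F.filter fun A => FullB F x j A).card
      ≤ (a + b) / 2 * EE F j := by
  obtain ⟨ν, h1, h2⟩ := part_count hx hcl hfr
  have h1' : 2 * ((F.filter fun A => Part x j A).card : ℝ) + ν ≤ EE F j := by exact_mod_cast h1
  have h2' : ((F.filter fun A => FullB F x j A).card : ℝ)
      ≤ ν + (F.filter fun A => Part x j A).card := by exact_mod_cast h2
  have hν : (0 : ℝ) ≤ ν := Nat.cast_nonneg _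
  nlinarith [mul_le_mul_of_nonneg_left h2' hb,
    mul_le_mul_of_nonneg_left h1' (show (0 : ℝ) ≤ (a + b) / 2 by linarith)]

section

variable (F : Finset (Finset α)) (N : Finset (Finset α)) (y : Finset α → α)

/-- Number of partial directions. -/
def nP (A : Finset α) : ℕ := (N.filter fun j => Part (y j) j A).card

/-- The members with a partial direction. -/
def FP : Finset (Finset α) := F.filter fun A => 1 ≤ nP N y A

variable {F N y}

/-- Partial stays partial. -/
lemma part_dl (hD : Dirs F N y) {i j A : Finset α} (hi : i ∈ N) (hj : j ∈ N)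
    (hg : Good F (y j) j A) (hb : Part (y i) i A) : Part (y i) i (dl F y j A) := by
  obtain ⟨h1, h2, h3⟩ := dl_spec hg
  have hij : i ≠ j := by
    rintro rfl
    exact hb.1 hg.1
  have hd := hD.disj i hi j hj hij
  obtain ⟨hb1, hb2⟩ := hb
  rw [← h2, sub_union_iff hd] at hb1
  rw [← h2, mem_union_iff' hd (hD.ymem i hi)] at hb2
  exact ⟨hb1, hb2⟩

lemma nP_dl (hD : Dirs F N y) {j A : Finset α} (hj : j ∈ N)
    (hg : Good F (y j) j A) : nP N y A ≤ nP N y (dl F y j A) := by
  apply Finset.card_le_card
  intro i hi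
  obtain ⟨h1, h2⟩ := Finset.mem_filter.1 hi
  exact Finset.mem_filter.2 ⟨h1, part_dl hD h1 hj hg h2⟩

/-- Good directions against missing ones, all levels at once. -/
theorem stepP (hD : Dirs F N y) (h : ℕ → ℕ → ℝ) (h0 : ∀ m k, 0 ≤ h m k)
    (hanti : ∀ m, Antitone (h m)) :
    ∑ A ∈ FP F N y, (nG F N y A : ℝ) * h (nM N y A) (nK F N y A)
      ≤ ∑ A ∈ FP F N y, (nM N y A : ℝ) * h (nM N y A - 1) (nK F N y A) := by
  set X := FP F N y with hX
  have h1 : ∑ A ∈ X, (nG F N y A : ℝ) * h (nM N y A) (nK F N y A)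
      = ∑ j ∈ N, ∑ A ∈ X.filter (fun A => Good F (y j) j A), h (nM N y A) (nK F N y A) := by
    have : ∀ A ∈ X, (nG F N y A : ℝ) * h (nM N y A) (nK F N y A)
        = ∑ j ∈ N, if Good F (y j) j A then h (nM N y A) (nK F N y A) else 0 := by
      intro A _
      rw [← Finset.sum_filter, Finset.sum_const, nsmul_eq_mul]
      rfl
    rw [Finset.sum_congr rfl this, Finset.sum_comm]
    apply Finset.sum_congr rfl
    intro j _
    exact (Finset.sum_filter _ _).symm
  have h2 : ∑ A ∈ X, (nM N y A : ℝ) * h (nM N y A - 1) (nK F N y A)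
      = ∑ j ∈ N, ∑ A ∈ X.filter (fun A => Miss (y j) j A), h (nM N y A - 1) (nK F N y A) := by
    have : ∀ A ∈ X, (nM N y A : ℝ) * h (nM N y A - 1) (nK F N y A)
        = ∑ j ∈ N, if Miss (y j) j A then h (nM N y A - 1) (nK F N y A) else 0 := by
      intro A _
      rw [← Finset.sum_filter, Finset.sum_const, nsmul_eq_mul]
      rfl
    rw [Finset.sum_congr rfl this, Finset.sum_comm]
    apply Finset.sum_congr rfl
    intro j _
    exact (Finset.sum_filter _ _).symm
  rw [h1, h2]
  apply Finset.sum_le_sum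
  intro j hj
  have hinj : Set.InjOn (fun A => dl F y j A) (X.filter (fun A => Good F (y j) j A) : Set _) := by
    intro A hA B hB hAB
    rw [Finset.mem_coe, Finset.mem_filter] at hA hB
    obtain ⟨-, a2, -⟩ := dl_spec hA.2
    obtain ⟨-, b2, -⟩ := dl_spec hB.2
    simp only at hAB
    rw [← a2, hAB, b2]
  calc ∑ A ∈ X.filter (fun A => Good F (y j) j A), h (nM N y A) (nK F N y A)
      ≤ ∑ A ∈ X.filter (fun A => Good F (y j) j A),
          h (nM N y (dl F y j A) - 1) (nK F N y (dl F y j A)) := by
        apply Finset.sum_le_sum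
        intro A hA
        have hg := (Finset.mem_filter.1 hA).2
        rw [nM_dl hD hj hg, Nat.add_sub_cancel]
        exact hanti _ (nK_dl hD hj hg)
    _ = ∑ B ∈ (X.filter (fun A => Good F (y j) j A)).image (fun A => dl F y j A),
          h (nM N y B - 1) (nK F N y B) := by
        rw [Finset.sum_image hinj]
    _ ≤ ∑ A ∈ X.filter (fun A => Miss (y j) j A), h (nM N y A - 1) (nK F N y A) := by
        apply Finset.sum_le_sum_of_subset_of_nonneg
        · intro B hB
          obtain ⟨A, hA, rfl⟩ := Finset.mem_image.1 hB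
          obtain ⟨hAX, hg⟩ := Finset.mem_filter.1 hA
          obtain ⟨hAF', hb⟩ := Finset.mem_filter.1 hAX
          obtain ⟨d1, d2, d3⟩ := dl_spec hg
          refine Finset.mem_filter.2 ⟨Finset.mem_filter.2
            ⟨d1, hb.trans (nP_dl hD hj hg)⟩, ?_⟩
          exact (miss_dl hD hj hj hg).2 (Or.inr rfl)
        · intro B _ _
          exact h0 _ _

/-- (2) -/
theorem del_boundP (hD : Dirs F N y) :
    (((FP F N y).filter fun A => nM N y A ≤ 1).card : ℝ)
      ≤ ∑ A ∈ FP F N y, hg (nK F N y A) := by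
  have h1 := stepP hD HH HH_nonneg HH_antitone
  have h2 : ∑ A ∈ FP F N y, ((if nM N y A ≤ 1 then (1 : ℝ) else 0)
        + (nM N y A : ℝ) * HH (nM N y A - 1) (nK F N y A))
      ≤ ∑ A ∈ FP F N y, (hg (nK F N y A) + (nG F N y A : ℝ) * HH (nM N y A) (nK F N y A)) := by
    apply Finset.sum_le_sum
    intro A _
    rw [nK_eq]
    exact level _ _
  rw [Finset.sum_add_distrib, Finset.sum_add_distrib] at h2
  have h3 : (((FP F N y).filter fun A => nM N y A ≤ 1).card : ℝ)
      = ∑ A ∈ FP F N y, if nM N y A ≤ 1 then (1 : ℝ) else 0 := by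
    rw [← Finset.sum_filter, Finset.sum_const, nsmul_eq_mul, mul_one]
  rw [h3]
  linarith

end

end Pool.Agent.H97.GEN
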