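import Pool.Agent.H97.GEN.LinCost
import Pool.Agent.H97.GEN.HalfBad

/-!
# Linear range, sharper weights: cost sets have a partial direction; charges by rank
-/

set_option autoImplicit false

namespace Pool.Agent.H97.GEN

open Finset

variable {α : Type*} [DecidableEq α]

section

variable {V Q M : Finset (Finset α)}

/-- For given `w` and `A` at most one direction costs, and then `A` has at most one missing
and at least one partial direction. -/
theorem cost_wP (hQ : ∀ G ∈ Q, ∀ G' ∈ Q, G' ≠ G → Disjoint G' G) (hM : M ⊆ Q)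
    {y : Finset α → α} {w : Finset α} (hy : ∀ j ∈ NN M w, y j ∈ w ∧ y j ∈ j) :
    ∑ j ∈ M, ((LL (unions (V ∪ Q)) j).filter fun A => CF M w j A ∨ CS M w j A).card
      ≤ ((FP (unions (V ∪ Q)) (NN M w) y).filter fun A => nM (NN M w) y A ≤ 1).card := by
  set F := unions (V ∪ Q) with hF
  have e1 : ∀ j ∈ M, ((LL F j).filter fun A => CF M w j A ∨ CS M w j A).card
      = ∑ A ∈ F, if (¬ j ⊆ A ∧ (CF M w j A ∨ CS M w j A)) then 1 else 0 := by
    intro j _
    rw [LL, Finset.filter_filter, Finset.card_filter]
  rw [Finset.sum_congr rfl e1, Finset.sum_comm, FP, Finset.filter_filter, Finset.card_filter]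
  apply Finset.sum_le_sum
  intro A hA
  -- uniqueness
  have huniq : ∀ i ∈ M, ∀ j ∈ M, (¬ i ⊆ A ∧ (CF M w i A ∨ CS M w i A)) →
      (¬ j ⊆ A ∧ (CF M w j A ∨ CS M w j A)) → i = j := by
    rintro i hi j hj ⟨hiA, hi'⟩ ⟨hjA, hj'⟩
    by_contra hne
    rcases hi' with ⟨h1, h2, h3⟩ | ⟨h1, h2, h3⟩ <;> rcases hj' with ⟨g1, g2, g3⟩ | ⟨g1, g2, g3⟩
    · exact hjA (h3 j (Finset.mem_filter.2 ⟨hj, g2⟩) (Ne.symm hne))
    · exact g1 h1
    · exact h1 g1
    · obtain ⟨z, hzw, hzA⟩ := Finset.not_subset.1 h1
      have a1 : z ∈ i := (Finset.mem_union.1 (h2 hzw)).resolve_left hzA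
      have a2 : z ∈ j := (Finset.mem_union.1 (g2 hzw)).resolve_left hzA
      exact Finset.disjoint_left.1 (hQ j (hM hj) i (hM hi) hne) a1 a2
  rw [← Finset.card_filter]
  split_ifs with hc
  · rw [Finset.card_le_one]
    intro i hi j hj
    obtain ⟨hi1, hi2⟩ := Finset.mem_filter.1 hi
    obtain ⟨hj1, hj2⟩ := Finset.mem_filter.1 hj
    exact huniq i hi1 j hj1 hi2 hj2
  · rw [Nat.le_zero, Finset.card_eq_zero, Finset.filter_eq_empty_iff]
    rintro j hj ⟨hjA, h⟩
    apply hc
    rcases h with ⟨h1, h2, h3⟩ | ⟨h1, h2, i, hi, hij, hiA⟩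
    · -- first kind
      have hjN : j ∈ NN M w := Finset.mem_filter.2 ⟨hj, h2⟩
      constructor
      · unfold nP
        apply Finset.card_pos.2
        exact ⟨j, Finset.mem_filter.2 ⟨hjN, hjA, h1 (hy j hjN).1⟩⟩
      · unfold nM
        have : (NN M w).filter (fun i => Miss (y i) i A) = ∅ := by
          rw [Finset.filter_eq_empty_iff]
          rintro i hi ⟨_, hm⟩
          exact hm (h1 (hy i hi).1)
        rw [this]
        simp
    · -- second kind
      have hmem : ∀ i ∈ NN M w, i ≠ j → y i ∈ A := by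
        intro i hi hij
        have a1 := h2 (hy i hi).1
        rcases Finset.mem_union.1 a1 with h | h
        · exact h
        · exact absurd h (Finset.disjoint_left.1
            (hQ j (hM hj) i (hM (Finset.mem_filter.1 hi).1) hij) (hy i hi).2)
      constructor
      · unfold nP
        apply Finset.card_pos.2
        exact ⟨i, Finset.mem_filter.2 ⟨hi, hiA, hmem i hi hij⟩⟩
      · unfold nM
        calc ((NN M w).filter (fun i => Miss (y i) i A)).card ≤ ({j} : Finset (Finset α)).card := by
              apply Finset.card_le_card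
              intro i hi
              obtain ⟨hi1, hi2⟩ := Finset.mem_filter.1 hi
              rw [Finset.mem_singleton]
              by_contra hne
              exact hi2.2 (hmem i hi1 hne)
          _ = 1 := by simp

/-- (3) -/
theorem cost_totalP (hQ : ∀ G ∈ Q, ∀ G' ∈ Q, G' ≠ G → Disjoint G' G) (hM : M ⊆ Q)
    {y : Finset α → Finset α → α} (hy : ∀ w ∈ V, ∀ j ∈ NN M w, y w j ∈ w ∧ y w j ∈ j) :
    ∑ j ∈ M, EE (unions (V ∪ Q)) j
      ≤ ∑ w ∈ V, ((FP (unions (V ∪ Q)) (NN M w) (y w)).filter
          fun A => nM (NN M w) (y w) A ≤ 1).card := by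
  set F := unions (V ∪ Q) with hF
  calc ∑ j ∈ M, EE F j
      ≤ ∑ j ∈ M, ((LL F j).filter fun A => ∃ w ∈ V, CF M w j A ∨ CS M w j A).card :=
        Finset.sum_le_sum fun j hj => EE_le_cost hQ hM (hM hj)
    _ ≤ ∑ j ∈ M, ∑ w ∈ V, ((LL F j).filter fun A => CF M w j A ∨ CS M w j A).card := by
        apply Finset.sum_le_sum
        intro j _
        calc ((LL F j).filter fun A => ∃ w ∈ V, CF M w j A ∨ CS M w j A).card
            ≤ (V.biUnion fun w => (LL F j).filter fun A => CF M w j A ∨ CS M w j A).card := by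
              apply Finset.card_le_card
              intro A hA
              obtain ⟨h1, w, hw, h2⟩ := Finset.mem_filter.1 hA
              exact Finset.mem_biUnion.2 ⟨w, hw, Finset.mem_filter.2 ⟨h1, h2⟩⟩
          _ ≤ _ := Finset.card_biUnion_le
    _ = ∑ w ∈ V, ∑ j ∈ M, ((LL F j).filter fun A => CF M w j A ∨ CS M w j A).card :=
        Finset.sum_comm
    _ ≤ _ := Finset.sum_le_sum fun w hw => cost_wP hQ hM (hy w hw)

end

/-- The convex extension of `hg` to `0`. -/
noncomputable def hG (n : ℕ) : ℝ := if n = 0 then hg 1 + hb 1 else hg n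

lemma hG_diff (n : ℕ) : hG n - hG (n + 1) = hb n := by
  unfold hG
  rcases Nat.eq_zero_or_pos n with rfl | h
  · rw [if_pos rfl, if_neg (by omega), hb_zero]
    ring
  · rw [if_neg (by omega), if_neg (by omega), hb_eq h]

lemma hg_le_hG (n : ℕ) : hg n ≤ hG n := by
  unfold hG
  split_ifs with h
  · subst h
    have h1 := hb_nonneg 1
    have h2 : hg 0 = hg 1 := by norm_num [hg]
    linarith
  · exact le_rfl

/-- The sum of the differences over a set of ranks. -/
lemma hb_sum_ge (d : ℕ) : ∀ B ⊆ range d, hG (d - B.card) - hG d ≤ ∑ ρ ∈ B, hb ρ := by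
  induction d with
  | zero =>
    intro B hB
    have : B = ∅ := by simpa using hB
    rw [this]
    simp
  | succ d ih =>
    intro B hB
    have hdiff := hG_diff d
    by_cases hd : d ∈ B
    · have hB' : B.erase d ⊆ range d := by
        intro ρ hρ
        obtain ⟨h1, h2⟩ := Finset.mem_erase.1 hρ
        have := Finset.mem_range.1 (hB h2)
        rw [Finset.mem_range]
        omega
      have h1 := ih (B.erase d) hB'
      have h2 := Finset.add_sum_erase B hb hd
      have h3 := Finset.card_erase_of_mem hd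
      have h4 : 1 ≤ B.card := Finset.card_pos.2 ⟨d, hd⟩
      rw [h3, show d - (B.card - 1) = d + 1 - B.card by omega] at h1
      linarith
    · have hB' : B ⊆ range d := by
        intro ρ hρ
        have := Finset.mem_range.1 (hB hρ)
        rw [Finset.mem_range]
        rcases Nat.lt_or_ge ρ d with h | h
        · exact h
        · exfalso
          have : ρ = d := by omega
          exact hd (this ▸ hρ)
      have h1 := ih B hB'
      have h4 : B.card ≤ d := by
        have := Finset.card_le_card hB'
        rwa [Finset.card_range] at this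
      have h5 := hG_diff (d - B.card)
      rw [show d - B.card + 1 = d + 1 - B.card by omega] at h5
      have h6 : hb d ≤ hb (d - B.card) := hb_antitone (by omega)
      linarith

/-- The charge of a set of ranks with a distinguished one. -/
lemma charge (d : ℕ) (B : Finset ℕ) (hB : B ⊆ range d) {c : ℕ} (hc : c ∈ B) :
    hg (d - B.card) ≤ hg c + ∑ ρ ∈ B.erase c, hb ρ := by
  have h1 := hb_sum_ge d B hB
  have h2 := Finset.add_sum_erase B hb hc
  have hcd := Finset.mem_range.1 (hB hc)
  have h3 := hg_le_hG (d - B.card)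
  have hd : hG d = hg d := by
    unfold hG
    rw [if_neg (by omega)]
  rw [hd] at h1
  rcases Nat.eq_zero_or_pos c with rfl | hc0
  · have e0 : hg 0 = hb 0 + hg 2 := by
      rw [hb_zero, hb_eq le_rfl]
      norm_num [hg]
    rcases Nat.lt_or_ge d 2 with h | h
    · have hd1 : d = 1 := by omega
      subst hd1
      have : B.card ≤ 1 := by
        have := Finset.card_le_card hB
        rwa [Finset.card_range] at this
      have h5 : 1 ≤ B.card := Finset.card_pos.2 ⟨0, hc⟩
      rw [show 1 - B.card = 0 by omega]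
      have : 0 ≤ ∑ ρ ∈ B.erase 0, hb ρ := Finset.sum_nonneg fun ρ _ => hb_nonneg ρ
      linarith
    · have := hg_antitone h
      linarith
  · have e0 := hb_eq hc0
    have := hg_antitone (show c + 1 ≤ d by omega)
    linarith

end Pool.Agent.H97.GEN
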