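import Pool.Agent.H97.GEN.Defs

/-! Part B: the Hall step. -/

set_option autoImplicit false

namespace Pool.Agent.H97.GEN

open Finset

/-- The Hall step: remove a maximal set with few neighbours, and distribute `D` private neighbours to
everybody else. -/
theorem hall_part {ι κ : Type*} [DecidableEq ι] [DecidableEq κ] (Vs : Finset ι) (Qs : Finset κ)
    (N : ι → Finset κ) (hN : ∀ v ∈ Vs, N v ⊆ Qs) (D : ℕ) (h : Vs.card * D < Qs.card) :
    ∃ V2 ⊆ Vs, ∃ Q2 ⊆ Qs, Q2.Nonempty ∧ (∀ v ∈ Vs, v ∉ V2 → Disjoint (N v) Q2) ∧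
      ∃ M : ι → Finset κ, (∀ v ∈ V2, M v ⊆ N v ∧ M v ⊆ Q2 ∧ (M v).card = D) ∧
        (∀ v ∈ V2, ∀ w ∈ V2, v ≠ w → Disjoint (M v) (M w)) := by
  classical
  -- a maximal set with few neighbours
  have hne : (Vs.powerset.filter fun W => (W.biUnion N).card ≤ D * W.card).Nonempty :=
    ⟨∅, by simp⟩
  obtain ⟨V1, hV1, hmax⟩ := Finset.exists_max_image _ (fun W => W.card) hne
  rw [Finset.mem_filter, Finset.mem_powerset] at hV1
  obtain ⟨hV1s, hV1c⟩ := hV1
  have hmax' : ∀ W ⊆ Vs, V1.card < W.card → D * W.card < (W.biUnion N).card := by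
    intro W hW hc
    by_contra hcon
    have := hmax W (by
      rw [Finset.mem_filter, Finset.mem_powerset]
      exact ⟨hW, not_lt.1 hcon⟩)
    omega
  refine ⟨Vs \ V1, Finset.sdiff_subset, Qs \ V1.biUnion N, Finset.sdiff_subset, ?_, ?_, ?_⟩
  · rw [← Finset.card_pos]
    have h1 := Finset.le_card_sdiff (V1.biUnion N) Qs
    have h2 : V1.card ≤ Vs.card := Finset.card_le_card hV1s
    have h3 : D * V1.card ≤ D * Vs.card := Nat.mul_le_mul_left _ h2
    have h4 : Vs.card * D = D * Vs.card := Nat.mul_comm _ _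
    omega
  · intro v hv hv2
    have hv1 : v ∈ V1 := by
      by_contra hcon
      exact hv2 (Finset.mem_sdiff.2 ⟨hv, hcon⟩)
    rw [Finset.disjoint_left]
    intro a ha ha2
    exact (Finset.mem_sdiff.1 ha2).2 (Finset.mem_biUnion.2 ⟨v, hv1, ha⟩)
  · -- Hall
    let t : (↥(Vs \ V1) × Fin D) → Finset κ := fun p => N (p.1 : ι) \ V1.biUnion N
    have hall : ∀ s : Finset (↥(Vs \ V1) × Fin D), s.card ≤ (s.biUnion t).card := by
      intro s
      rcases s.eq_empty_or_nonempty with rfl | hs
      · simp
      let s' : Finset ι := s.image fun p => (p.1 : ι)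
      have hs'sub : s' ⊆ Vs \ V1 := by
        intro v hv
        obtain ⟨p, -, rfl⟩ := Finset.mem_image.1 hv
        exact p.1.2
      have hs'ne : s'.Nonempty := hs.image _
      have hcard : s.card ≤ D * s'.card := by
        have := Finset.card_le_mul_card_image (f := fun p : ↥(Vs \ V1) × Fin D => (p.1 : ι)) s D (by
          intro a ha
          have : (s.filter fun p => (p.1 : ι) = a).card ≤ (Finset.univ : Finset (Fin D)).card := by
            apply Finset.card_le_card_of_injOn (fun p => p.2) (fun _ _ => Finset.mem_coe.2 (Finset.mem_univ _))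
            intro p hp q hq hpq
            rw [Finset.mem_coe, Finset.mem_filter] at hp hq
            have h1 : p.1 = q.1 := Subtype.ext (hp.2.trans hq.2.symm)
            exact Prod.ext h1 hpq
          simpa using this)
        exact this
      have hdisj : Disjoint V1 s' := by
        rw [Finset.disjoint_left]
        intro a ha ha2
        exact (Finset.mem_sdiff.1 (hs'sub ha2)).2 ha
      have hc2 : (V1 ∪ s').card = V1.card + s'.card := Finset.card_union_of_disjoint hdisj
      have hpos : 0 < s'.card := hs'ne.card_pos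
      have hbig := hmax' (V1 ∪ s') (Finset.union_subset hV1s (hs'sub.trans Finset.sdiff_subset))
        (by omega)
      have hbi : ((V1 ∪ s').biUnion N).card
          = (V1.biUnion N).card + (s'.biUnion N \ V1.biUnion N).card := by
        rw [Finset.union_biUnion, ← Finset.union_sdiff_self_eq_union,
          Finset.card_union_of_disjoint Finset.disjoint_sdiff]
      have hsub : s'.biUnion N \ V1.biUnion N ⊆ s.biUnion t := by
        intro a ha
        rw [Finset.mem_sdiff] at ha
        obtain ⟨v, hv, hav⟩ := Finset.mem_biUnion.1 ha.1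
        obtain ⟨p, hp, rfl⟩ := Finset.mem_image.1 hv
        exact Finset.mem_biUnion.2 ⟨p, hp, Finset.mem_sdiff.2 ⟨hav, ha.2⟩⟩
      have h5 := Finset.card_le_card hsub
      have h6 : D * (V1 ∪ s').card = D * V1.card + D * s'.card := by rw [hc2]; ring
      omega
    obtain ⟨f, hfinj, hf⟩ := (Finset.all_card_le_biUnion_card_iff_exists_injective t).1 hall
    refine ⟨fun v => if hv : v ∈ Vs \ V1 then Finset.univ.image fun i : Fin D => f (⟨v, hv⟩, i)
      else ∅, ?_, ?_⟩
    · intro v hv
      simp only [hv, dif_pos]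
      refine ⟨?_, ?_, ?_⟩
      · intro a ha
        obtain ⟨i, -, rfl⟩ := Finset.mem_image.1 ha
        exact (Finset.mem_sdiff.1 (hf (⟨v, hv⟩, i))).1
      · intro a ha
        obtain ⟨i, -, rfl⟩ := Finset.mem_image.1 ha
        have := Finset.mem_sdiff.1 (hf (⟨v, hv⟩, i))
        exact Finset.mem_sdiff.2 ⟨hN v (Finset.mem_sdiff.1 hv).1 this.1, this.2⟩
      · rw [Finset.card_image_of_injective _ (fun i j hij => (Prod.ext_iff.1 (hfinj hij)).2)]
        simp
    · intro v hv w hw hvw
      simp only [hv, hw, dif_pos]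
      rw [Finset.disjoint_left]
      intro a ha ha2
      obtain ⟨i, -, hi⟩ := Finset.mem_image.1 ha
      obtain ⟨j, -, hj⟩ := Finset.mem_image.1 ha2
      have h1 := hfinj (hi.trans hj.symm)
      have h2 := (Prod.ext_iff.1 h1).1
      exact hvw (Subtype.ext_iff.1 h2)

end Pool.Agent.H97.GEN
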