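import Mathlib

/-! # Linear range: numbers (Abel summation, the weights `g`) -/

set_option autoImplicit false

namespace Pool.Agent.H97.GEN

open Finset

/-- Abel summation. -/
theorem abel_lemma (q : ℕ) (E : ℕ → ℕ) (κ : ℕ → ℝ) (hpos : ∀ t < q, 1 ≤ E t)
    (hmono : ∀ s t, s ≤ t → t < q → E s ≤ E t)
    (h : ∀ r ≤ q, ∑ t ∈ range r, (E t : ℝ) ≤ ∑ t ∈ range r, κ t * E t) :
    (q : ℝ) ≤ ∑ t ∈ range q, κ t := by
  have hP : ∀ r ≤ q, 0 ≤ ∑ t ∈ range r, (κ t - 1) * E t := by
    intro r hr
    have := h r hr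
    have e : ∑ t ∈ range r, (κ t - 1) * (E t : ℝ)
        = ∑ t ∈ range r, κ t * E t - ∑ t ∈ range r, (E t : ℝ) := by
      rw [← Finset.sum_sub_distrib]
      apply Finset.sum_congr rfl
      intro t _
      ring
    rw [e]
    linarith
  have key : ∀ r, r + 1 ≤ q →
      (∑ t ∈ range (r + 1), (κ t - 1) * E t) / E r ≤ ∑ t ∈ range (r + 1), (κ t - 1) := by
    intro r
    induction r with
    | zero =>
      intro hr
      have hE : (0 : ℝ) < E 0 := by exact_mod_cast hpos 0 (by omega)
      simp only [zero_add, Finset.sum_range_one]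
      rw [mul_div_assoc, div_self hE.ne', mul_one]
    | succ r ih =>
      intro hr
      have hE1 : (0 : ℝ) < E (r + 1) := by exact_mod_cast hpos (r + 1) (by omega)
      have hE0 : (0 : ℝ) < E r := by exact_mod_cast hpos r (by omega)
      have hle : (E r : ℝ) ≤ E (r + 1) := by exact_mod_cast hmono r (r + 1) (by omega) (by omega)
      rw [Finset.sum_range_succ _ (r + 1), Finset.sum_range_succ _ (r + 1), add_div,
        mul_div_assoc, div_self hE1.ne', mul_one]
      have h1 := ih (by omega)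
      have h2 : (∑ t ∈ range (r + 1), (κ t - 1) * (E t : ℝ)) / E (r + 1)
          ≤ (∑ t ∈ range (r + 1), (κ t - 1) * (E t : ℝ)) / E r :=
        div_le_div_of_nonneg_left (hP (r + 1) (by omega)) hE0 hle
      linarith
  rcases Nat.eq_zero_or_pos q with rfl | hq
  · simp
  · obtain ⟨r, rfl⟩ : ∃ r, q = r + 1 := ⟨q - 1, by omega⟩
    have h1 := key r le_rfl
    have h2 : 0 ≤ (∑ t ∈ range (r + 1), (κ t - 1) * (E t : ℝ)) / E r :=
      div_nonneg (hP (r + 1) le_rfl) (Nat.cast_nonneg _)
    have h3 : ∑ t ∈ range (r + 1), (κ t - 1) = ∑ t ∈ range (r + 1), κ t - ((r + 1 : ℕ) : ℝ) := by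
      rw [Finset.sum_sub_distrib]
      simp
    rw [h3] at h1
    linarith

/-- The tail of the weights. -/
noncomputable def tl (k : ℕ) : ℝ := ((k : ℝ) + 1) / (k * (k - 1) * (k - 2) * (k - 3))

/-- The weights. -/
noncomputable def gg (k : ℕ) : ℝ :=
  if k ≤ 1 then 118 / 100 else if k = 2 then 79 / 100 else if k = 3 then 51 / 100
  else if k = 4 then 32 / 100 else if k = 5 then 20 / 100 else if k ≤ 7 then 13 / 100
  else 24 * tl k

/-- Auxiliary weights, first level. -/
noncomputable def wa (k : ℕ) : ℝ :=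
  if k ≤ 4 then 17 / 100 else if k = 5 then 16 / 100 else if k = 6 then 15 / 100
  else if k = 7 then 13 / 100 else 1 / k

/-- Auxiliary weights, second level. -/
noncomputable def wb (k : ℕ) : ℝ :=
  if k ≤ 2 then 380 / 1000 else if k = 3 then 330 / 1000 else if k = 4 then 285 / 1000
  else if k = 5 then 240 / 1000 else if k = 6 then 205 / 1000 else if k = 7 then 170 / 1000
  else ((k : ℝ) + 1) / (k * (k - 1))

/-- Auxiliary weights, third level. -/
noncomputable def wc (k : ℕ) : ℝ :=
  if k ≤ 3 then 150 / 1000 else if k = 4 then 130 / 1000 else if k = 5 then 95 / 1000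
  else if k = 6 then 70 / 1000 else if k = 7 then 55 / 1000
  else 2 * ((k : ℝ) + 1) / (k * (k - 1) * (k - 2))

/-- Auxiliary weights, fourth level. -/
noncomputable def wd (k : ℕ) : ℝ :=
  if k ≤ 4 then 700 / 10000 else if k = 5 then 450 / 10000 else if k ≤ 7 then 325 / 10000
  else 6 * tl k

lemma gg_eq {k : ℕ} (hk : 8 ≤ k) : gg k = 24 * tl k := by
  unfold gg
  rw [if_neg (by omega), if_neg (by omega), if_neg (by omega), if_neg (by omega),
    if_neg (by omega), if_neg (by omega)]

lemma wa_eq {k : ℕ} (hk : 8 ≤ k) : wa k = 1 / k := by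
  unfold wa
  rw [if_neg (by omega), if_neg (by omega), if_neg (by omega), if_neg (by omega)]

lemma wb_eq {k : ℕ} (hk : 8 ≤ k) : wb k = ((k : ℝ) + 1) / (k * (k - 1)) := by
  unfold wb
  rw [if_neg (by omega), if_neg (by omega), if_neg (by omega), if_neg (by omega),
    if_neg (by omega), if_neg (by omega)]

lemma wc_eq {k : ℕ} (hk : 8 ≤ k) : wc k = 2 * ((k : ℝ) + 1) / (k * (k - 1) * (k - 2)) := by
  unfold wc
  rw [if_neg (by omega), if_neg (by omega), if_neg (by omega), if_neg (by omega),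
    if_neg (by omega)]

lemma wd_eq {k : ℕ} (hk : 8 ≤ k) : wd k = 6 * tl k := by
  unfold wd
  rw [if_neg (by omega), if_neg (by omega), if_neg (by omega)]

lemma tl_nonneg {k : ℕ} (hk : 8 ≤ k) : 0 ≤ tl k := by
  have : (8 : ℝ) ≤ k := by exact_mod_cast hk
  unfold tl
  apply div_nonneg (by linarith)
  apply mul_nonneg (mul_nonneg (mul_nonneg _ _) _) <;> linarith

lemma tl_succ {k : ℕ} (hk : 8 ≤ k) : tl (k + 1) ≤ tl k := by
  have : (8 : ℝ) ≤ k := by exact_mod_cast hk
  unfold tl
  push_cast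
  have h0 : (0 : ℝ) < k := by linarith
  have h1 : (0 : ℝ) < k - 1 := by linarith
  have h2 : (0 : ℝ) < k - 2 := by linarith
  have h3 : (0 : ℝ) < k - 3 := by linarith
  rw [div_le_div_iff₀]
  · have e : ((k : ℝ) + 1) * ((k + 1) * (k + 1 - 1) * (k + 1 - 2) * (k + 1 - 3))
        - ((k : ℝ) + 1 + 1) * (k * (k - 1) * (k - 2) * (k - 3))
        = (k * (k - 1) * (k - 2)) * (3 * k + 7) := by ring
    have e' : 0 ≤ ((k : ℝ) * (k - 1) * (k - 2)) * (3 * k + 7) := by positivity
    linarith
  · apply mul_pos (mul_pos (mul_pos _ _) _) <;> linarith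
  · apply mul_pos (mul_pos (mul_pos _ _) _) <;> linarith

lemma gg_nonneg (k : ℕ) : 0 ≤ gg k := by
  rcases Nat.lt_or_ge k 8 with h | h
  · interval_cases k <;> norm_num [gg]
  · rw [gg_eq h]
    have := tl_nonneg h
    linarith

lemma wa_nonneg (k : ℕ) : 0 ≤ wa k := by
  rcases Nat.lt_or_ge k 8 with h | h
  · interval_cases k <;> norm_num [wa]
  · rw [wa_eq h]
    positivity

lemma wb_nonneg (k : ℕ) : 0 ≤ wb k := by
  rcases Nat.lt_or_ge k 8 with h | h
  · interval_cases k <;> norm_num [wb]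
  · rw [wb_eq h]
    have : (8 : ℝ) ≤ k := by exact_mod_cast h
    apply div_nonneg (by linarith)
    apply mul_nonneg <;> linarith

lemma wc_nonneg (k : ℕ) : 0 ≤ wc k := by
  rcases Nat.lt_or_ge k 8 with h | h
  · interval_cases k <;> norm_num [wc]
  · rw [wc_eq h]
    have : (8 : ℝ) ≤ k := by exact_mod_cast h
    apply div_nonneg (by linarith)
    apply mul_nonneg (mul_nonneg _ _) <;> linarith

lemma wd_nonneg (k : ℕ) : 0 ≤ wd k := by
  rcases Nat.lt_or_ge k 8 with h | h
  · interval_cases k <;> norm_num [wd]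
  · rw [wd_eq h]
    have := tl_nonneg h
    linarith

lemma gg_antitone : Antitone gg := by
  apply antitone_nat_of_succ_le
  intro k
  rcases Nat.lt_or_ge k 8 with h | h
  · interval_cases k <;> norm_num [gg, tl]
  · rw [gg_eq h, gg_eq (by omega)]
    have := tl_succ h
    linarith

lemma wa_antitone : Antitone wa := by
  apply antitone_nat_of_succ_le
  intro k
  rcases Nat.lt_or_ge k 8 with h | h
  · interval_cases k <;> norm_num [wa]
  · rw [wa_eq h, wa_eq (by omega)]
    have : (8 : ℝ) ≤ k := by exact_mod_cast h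
    push_cast
    exact div_le_div_of_nonneg_left (by norm_num) (by linarith) (by linarith)

lemma wb_antitone : Antitone wb := by
  apply antitone_nat_of_succ_le
  intro k
  rcases Nat.lt_or_ge k 8 with h | h
  · interval_cases k <;> norm_num [wb]
  · rw [wb_eq h, wb_eq (by omega)]
    have : (8 : ℝ) ≤ k := by exact_mod_cast h
    push_cast
    have h0 : (0 : ℝ) < k := by linarith
    have h1 : (0 : ℝ) < k - 1 := by linarith
    rw [div_le_div_iff₀]
    · have e : ((k : ℝ) + 1) * ((k + 1) * (k + 1 - 1)) - ((k : ℝ) + 1 + 1) * (k * (k - 1))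
          = k * (k + 3) := by ring
      have e' : 0 ≤ (k : ℝ) * (k + 3) := by positivity
      linarith
    · apply mul_pos <;> linarith
    · apply mul_pos <;> linarith

lemma wc_antitone : Antitone wc := by
  apply antitone_nat_of_succ_le
  intro k
  rcases Nat.lt_or_ge k 8 with h | h
  · interval_cases k <;> norm_num [wc]
  · rw [wc_eq h, wc_eq (by omega)]
    have : (8 : ℝ) ≤ k := by exact_mod_cast h
    push_cast
    have h0 : (0 : ℝ) < k := by linarith
    have h1 : (0 : ℝ) < k - 1 := by linarith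
    have h2 : (0 : ℝ) < k - 2 := by linarith
    rw [div_le_div_iff₀]
    · have e : 2 * ((k : ℝ) + 1) * ((k + 1) * (k + 1 - 1) * (k + 1 - 2))
          - 2 * ((k : ℝ) + 1 + 1) * (k * (k - 1) * (k - 2))
          = 2 * (k * (k - 1)) * (2 * k + 5) := by ring
      have e' : 0 ≤ 2 * ((k : ℝ) * (k - 1)) * (2 * k + 5) := by positivity
      linarith
    · apply mul_pos (mul_pos _ _) <;> linarith
    · apply mul_pos (mul_pos _ _) <;> linarith

lemma wd_antitone : Antitone wd := by
  apply antitone_nat_of_succ_le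
  intro k
  rcases Nat.lt_or_ge k 8 with h | h
  · interval_cases k <;> norm_num [wd, tl]
  · rw [wd_eq h, wd_eq (by omega)]
    have := tl_succ h
    linarith

/-- Level 0. -/
lemma lev0 (u : ℕ) : (1 : ℝ) ≤ gg u + u * wa u := by
  rcases Nat.lt_or_ge u 8 with h | h
  · interval_cases u <;> norm_num [gg, wa]
  · have : (8 : ℝ) ≤ u := by exact_mod_cast h
    have h0 : (u : ℝ) ≠ 0 := by linarith
    rw [wa_eq h, mul_one_div, div_self h0]
    linarith [gg_nonneg u]

/-- Level 1. -/
lemma lev1 (u : ℕ) : (1 : ℝ) + wa (1 + u) ≤ gg (1 + u) + u * wb (1 + u) := by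
  rcases Nat.lt_or_ge u 7 with h | h
  · interval_cases u <;> norm_num [gg, wa, wb]
  · have : (7 : ℝ) ≤ u := by exact_mod_cast h
    rw [wa_eq (by omega), wb_eq (by omega)]
    push_cast
    have h0 : (u : ℝ) ≠ 0 := by linarith
    have h1 : 1 + (u : ℝ) ≠ 0 := by linarith
    have e : (u : ℝ) * ((1 + u + 1) / ((1 + u) * (1 + u - 1))) = 1 + 1 / (1 + u) := by
      have : (1 + (u : ℝ) - 1) = u := by ring
      rw [this]
      field_simp
    rw [e]
    linarith [gg_nonneg (1 + u)]

/-- Level 2. -/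
lemma lev2 (u : ℕ) : 2 * wb (2 + u) ≤ gg (2 + u) + u * wc (2 + u) := by
  rcases Nat.lt_or_ge u 6 with h | h
  · interval_cases u <;> norm_num [gg, wb, wc]
  · have : (6 : ℝ) ≤ u := by exact_mod_cast h
    rw [wb_eq (by omega), wc_eq (by omega)]
    push_cast
    have h0 : (u : ℝ) ≠ 0 := by linarith
    have h1 : 2 + (u : ℝ) ≠ 0 := by linarith
    have h2 : 1 + (u : ℝ) ≠ 0 := by linarith
    have e : (u : ℝ) * (2 * (2 + u + 1) / ((2 + u) * (2 + u - 1) * (2 + u - 2)))
        = 2 * ((2 + u + 1) / ((2 + u) * (2 + u - 1))) := by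
      have e1 : (2 + (u : ℝ) - 2) = u := by ring
      have e2 : (2 + (u : ℝ) - 1) = 1 + u := by ring
      rw [e1, e2]
      field_simp
    rw [e]
    linarith [gg_nonneg (2 + u)]

/-- Level 3. -/
lemma lev3 (u : ℕ) : 3 * wc (3 + u) ≤ gg (3 + u) + u * wd (3 + u) := by
  rcases Nat.lt_or_ge u 5 with h | h
  · interval_cases u <;> norm_num [gg, wc, wd]
  · have : (5 : ℝ) ≤ u := by exact_mod_cast h
    rw [wc_eq (by omega), wd_eq (by omega)]
    unfold tl
    push_cast
    have h0 : (u : ℝ) ≠ 0 := by linarith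
    have h1 : 3 + (u : ℝ) ≠ 0 := by linarith
    have h2 : 2 + (u : ℝ) ≠ 0 := by linarith
    have h3 : 1 + (u : ℝ) ≠ 0 := by linarith
    have e : (u : ℝ) * (6 * ((3 + u + 1) / ((3 + u) * (3 + u - 1) * (3 + u - 2) * (3 + u - 3))))
        = 3 * (2 * (3 + u + 1) / ((3 + u) * (3 + u - 1) * (3 + u - 2))) := by
      have e1 : (3 + (u : ℝ) - 3) = u := by ring
      have e2 : (3 + (u : ℝ) - 2) = 1 + u := by ring
      have e3 : (3 + (u : ℝ) - 1) = 2 + u := by ring
      rw [e1, e2, e3]
      field_simp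
      ring
    rw [e]
    linarith [gg_nonneg (3 + u)]

/-- Level 4. -/
lemma lev4 (u : ℕ) : 4 * wd (4 + u) ≤ gg (4 + u) := by
  rcases Nat.lt_or_ge u 4 with h | h
  · interval_cases u <;> norm_num [gg, wd]
  · rw [gg_eq (by omega), wd_eq (by omega)]
    linarith

lemma gg_sum (K : ℕ) : ∑ k ∈ range K, gg k ≤ 5 := by
  have key : ∀ n, ∑ k ∈ range (n + 8), gg k
      = 444 / 100 + 46 / 105 - (12 / (((n : ℝ) + 7) * (n + 6))
        + 32 / (((n : ℝ) + 7) * (n + 6) * (n + 5))) := by
    intro n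
    induction n with
    | zero =>
      simp only [zero_add, Nat.cast_zero]
      rw [Finset.sum_range_succ, Finset.sum_range_succ, Finset.sum_range_succ,
        Finset.sum_range_succ, Finset.sum_range_succ, Finset.sum_range_succ,
        Finset.sum_range_succ, Finset.sum_range_succ]
      norm_num [gg]
    | succ n ih =>
      rw [show n + 1 + 8 = (n + 8) + 1 by ring, Finset.sum_range_succ, ih, gg_eq (by omega)]
      unfold tl
      push_cast
      have h1 : (0 : ℝ) < (n : ℝ) + 5 := by positivity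
      have h2 : (0 : ℝ) < (n : ℝ) + 6 := by positivity
      have h3 : (0 : ℝ) < (n : ℝ) + 7 := by positivity
      have h4 : (0 : ℝ) < (n : ℝ) + 8 := by positivity
      have e1 : (n : ℝ) + 8 - 1 = n + 7 := by ring
      have e2 : (n : ℝ) + 8 - 2 = n + 6 := by ring
      have e3 : (n : ℝ) + 8 - 3 = n + 5 := by ring
      have e4 : (n : ℝ) + 1 + 7 = n + 8 := by ring
      have e5 : (n : ℝ) + 1 + 6 = n + 7 := by ring
      have e6 : (n : ℝ) + 1 + 5 = n + 6 := by ring
      rw [e1, e2, e3, e4, e5, e6]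
      field_simp
      ring
  calc ∑ k ∈ range K, gg k ≤ ∑ k ∈ range (K + 8), gg k := by
        apply Finset.sum_le_sum_of_subset_of_nonneg
        · intro k hk
          rw [Finset.mem_range] at hk ⊢
          omega
        · intro k _ _
          exact gg_nonneg k
    _ = 444 / 100 + 46 / 105 - (12 / (((K : ℝ) + 7) * (K + 6))
        + 32 / (((K : ℝ) + 7) * (K + 6) * (K + 5))) := key K
    _ ≤ 5 := by
        have h1 : 0 ≤ 12 / (((K : ℝ) + 7) * (K + 6)) := by positivity
        have h2 : 0 ≤ 32 / (((K : ℝ) + 7) * (K + 6) * (K + 5)) := by positivity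
        norm_num
        linarith

lemma count_sum (P : ℕ → Prop) [DecidablePred P] (g : ℕ → ℝ) (q : ℕ) :
    ∑ t ∈ range q, (if P t then g (Nat.count P t) else 0) = ∑ k ∈ range (Nat.count P q), g k := by
  induction q with
  | zero => simp
  | succ q ih =>
    rw [Finset.sum_range_succ, ih, Nat.count_succ]
    split_ifs with h
    · rw [Finset.sum_range_succ]
    · simp

end Pool.Agent.H97.GEN
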