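import Pool.Agent.H97.GEN.LinDel

/-! # Linear range: the cost inequality (3) -/

set_option autoImplicit false

namespace Pool.Agent.H97.GEN

open Finset

variable {α : Type*} [DecidableEq α]

/-- The directions in `M` that meet `w`. -/
def NN (M : Finset (Finset α)) (w : Finset α) : Finset (Finset α) :=
  M.filter fun j => ¬ Disjoint w j

/-- First kind of cost. -/
def CF (M : Finset (Finset α)) (w j A : Finset α) : Prop :=
  w ⊆ A ∧ ¬ Disjoint w j ∧ ∀ i ∈ NN M w, i ≠ j → i ⊆ A

/-- Second kind of cost. -/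
def CS (M : Finset (Finset α)) (w j A : Finset α) : Prop :=
  ¬ w ⊆ A ∧ w ⊆ A ∪ j ∧ ∃ i ∈ NN M w, i ≠ j ∧ ¬ i ⊆ A

instance (M : Finset (Finset α)) (w j A : Finset α) : Decidable (CF M w j A) := by
  unfold CF; infer_instance

instance (M : Finset (Finset α)) (w j A : Finset α) : Decidable (CS M w j A) := by
  unfold CS; infer_instance

section

variable {V Q M : Finset (Finset α)}

/-- `E j` is at most the number of cost sets. -/
theorem EE_le_cost (hQ : ∀ G ∈ Q, ∀ G' ∈ Q, G' ≠ G → Disjoint G' G) (hM : M ⊆ Q)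
    {j : Finset α} (hj : j ∈ Q) :
    EE (unions (V ∪ Q)) j
      ≤ ((LL (unions (V ∪ Q)) j).filter fun A => ∃ w ∈ V, CF M w j A ∨ CS M w j A).card := by
  set F := unions (V ∪ Q) with hF
  have h1 := Finset.card_filter_add_card_filter_not (s := LL F j)
    (p := fun A => ∃ w ∈ V, CF M w j A ∨ CS M w j A)
  have h2 : ((LL F j).filter fun A => ¬ ∃ w ∈ V, CF M w j A ∨ CS M w j A).card
      ≤ (imL F j).card := by
    -- the key: two non-cost sets with the same union with `j` are comparable both ways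
    have key : ∀ A ∈ (LL F j).filter (fun A => ¬ ∃ w ∈ V, CF M w j A ∨ CS M w j A),
        ∀ B ∈ (LL F j).filter (fun A => ¬ ∃ w ∈ V, CF M w j A ∨ CS M w j A),
        A ∪ j = B ∪ j → B ⊆ A := by
      intro A hA B hB hAB
      obtain ⟨hAL, hAc⟩ := Finset.mem_filter.1 hA
      obtain ⟨hBL, hBc⟩ := Finset.mem_filter.1 hB
      obtain ⟨hAF, hAj⟩ := mem_LL.1 hAL
      obtain ⟨hBF, hBj⟩ := mem_LL.1 hBL
      by_contra hnot
      obtain ⟨z, hzB, hzA⟩ := Finset.not_subset.1 hnot
      have hzj : z ∈ j := by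
        have : z ∈ A ∪ j := by rw [hAB]; exact Finset.mem_union_left _ hzB
        exact (Finset.mem_union.1 this).resolve_left hzA
      obtain ⟨w, hw, hwB, hzw⟩ := (mem_iff hBF z).1 hzB
      have hwj : w ≠ j := by
        rintro rfl
        exact hBj hwB
      have hwV : w ∈ V := by
        rcases Finset.mem_union.1 hw with h | h
        · exact h
        · exact absurd hzj (Finset.disjoint_left.1 (hQ j hj w h hwj) hzw)
      have hnd : ¬ Disjoint w j := Finset.not_disjoint_iff.2 ⟨z, hzw, hzj⟩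
      have hiff : ∀ i ∈ NN M w, i ≠ j → (i ⊆ A ↔ i ⊆ B) := by
        intro i hi hij
        have hd : Disjoint i j := hQ j hj i (hM (Finset.mem_filter.1 hi).1) hij
        rw [← sub_union_iff hd, hAB, sub_union_iff hd]
      by_cases hall : ∀ i ∈ NN M w, i ≠ j → i ⊆ B
      · exact hBc ⟨w, hwV, Or.inl ⟨hwB, hnd, hall⟩⟩
      · push Not at hall
        obtain ⟨i, hi, hij, hiB⟩ := hall
        refine hAc ⟨w, hwV, Or.inr ⟨fun h => hzA (h hzw), ?_, i, hi, hij, ?_⟩⟩
        · rw [hAB]
          exact hwB.trans Finset.subset_union_left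
        · rwa [hiff i hi hij]
    calc ((LL F j).filter fun A => ¬ ∃ w ∈ V, CF M w j A ∨ CS M w j A).card
        = (((LL F j).filter fun A => ¬ ∃ w ∈ V, CF M w j A ∨ CS M w j A).image
            fun A => A ∪ j).card := by
          rw [Finset.card_image_of_injOn]
          intro A hA B hB hAB
          exact Finset.Subset.antisymm (key B hB A hA hAB.symm) (key A hA B hB hAB)
      _ ≤ (imL F j).card :=
          Finset.card_le_card (Finset.image_subset_image (Finset.filter_subset _ _))
  unfold EE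
  omega

/-- For given `w` and `A` at most one direction costs, and then `A` has at most one missing
and at least one bad direction. -/
theorem cost_w (hQ : ∀ G ∈ Q, ∀ G' ∈ Q, G' ≠ G → Disjoint G' G) (hM : M ⊆ Q)
    {y : Finset α → α} {w : Finset α} (hy : ∀ j ∈ NN M w, y j ∈ w ∧ y j ∈ j) :
    ∑ j ∈ M, ((LL (unions (V ∪ Q)) j).filter fun A => CF M w j A ∨ CS M w j A).card
      ≤ ((FB (unions (V ∪ Q)) (NN M w) y).filter fun A => nM (NN M w) y A ≤ 1).card := by
  set F := unions (V ∪ Q) with hF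
  have e1 : ∀ j ∈ M, ((LL F j).filter fun A => CF M w j A ∨ CS M w j A).card
      = ∑ A ∈ F, if (¬ j ⊆ A ∧ (CF M w j A ∨ CS M w j A)) then 1 else 0 := by
    intro j _
    rw [LL, Finset.filter_filter, Finset.card_filter]
  rw [Finset.sum_congr rfl e1, Finset.sum_comm, FB, Finset.filter_filter, Finset.card_filter]
  apply Finset.sum_le_sum
  intro A hA
  -- uniqueness
  have huniq : ∀ i ∈ M, ∀ j ∈ M, (¬ i ⊆ A ∧ (CF M w i A ∨ CS M w i A)) →
      (¬ j ⊆ A ∧ (CF M w j A ∨ CS M w j A)) → i = j := by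
    rintro i hi j hj ⟨hiA, hi'⟩ ⟨hjA, hj'⟩
    by_contra hne
    rcases hi' with ⟨h1, h2, h3⟩ | ⟨h1, h2, h3⟩ <;> rcases hj' with ⟨g1, g2, g3⟩ | ⟨g1, g2, g3⟩
    · exact hjA (h3 j (Finset.mem_filter.2 ⟨hj, g2⟩) (Ne.symm hne))
    · exact g1 h1
    · exact h1 g1
    · obtain ⟨z, hzw, hzA⟩ := Finset.not_subset.1 h1
      have a1 : z ∈ i := (Finset.mem_union.1 (h2 hzw)).resolve_left hzA
      have a2 : z ∈ j := (Finset.mem_union.1 (g2 hzw)).resolve_left hzA
      exact Finset.disjoint_left.1 (hQ j (hM hj) i (hM hi) hne) a1 a2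
  rw [← Finset.card_filter]
  split_ifs with hc
  · rw [Finset.card_le_one]
    intro i hi j hj
    obtain ⟨hi1, hi2⟩ := Finset.mem_filter.1 hi
    obtain ⟨hj1, hj2⟩ := Finset.mem_filter.1 hj
    exact huniq i hi1 j hj1 hi2 hj2
  · rw [Nat.le_zero, Finset.card_eq_zero, Finset.filter_eq_empty_iff]
    rintro j hj ⟨hjA, h⟩
    apply hc
    rcases h with ⟨h1, h2, h3⟩ | ⟨h1, h2, i, hi, hij, hiA⟩
    · -- first kind
      have hjN : j ∈ NN M w := Finset.mem_filter.2 ⟨hj, h2⟩
      constructor
      · unfold nB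
        apply Finset.card_pos.2
        exact ⟨j, Finset.mem_filter.2 ⟨hjN, Or.inl ⟨hjA, h1 (hy j hjN).1⟩⟩⟩
      · unfold nM
        have : (NN M w).filter (fun i => Miss (y i) i A) = ∅ := by
          rw [Finset.filter_eq_empty_iff]
          rintro i hi ⟨_, hm⟩
          exact hm (h1 (hy i hi).1)
        rw [this]
        simp
    · -- second kind
      have hmem : ∀ i ∈ NN M w, i ≠ j → y i ∈ A := by
        intro i hi hij
        have a1 := h2 (hy i hi).1
        rcases Finset.mem_union.1 a1 with h | h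
        · exact h
        · exact absurd h (Finset.disjoint_left.1
            (hQ j (hM hj) i (hM (Finset.mem_filter.1 hi).1) hij) (hy i hi).2)
      constructor
      · unfold nB
        apply Finset.card_pos.2
        exact ⟨i, Finset.mem_filter.2 ⟨hi, Or.inl ⟨hiA, hmem i hi hij⟩⟩⟩
      · unfold nM
        calc ((NN M w).filter (fun i => Miss (y i) i A)).card ≤ ({j} : Finset (Finset α)).card := by
              apply Finset.card_le_card
              intro i hi
              obtain ⟨hi1, hi2⟩ := Finset.mem_filter.1 hi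
              rw [Finset.mem_singleton]
              by_contra hne
              exact hi2.2 (hmem i hi1 hne)
          _ = 1 := by simp

/-- (3) -/
theorem cost_total (hQ : ∀ G ∈ Q, ∀ G' ∈ Q, G' ≠ G → Disjoint G' G) (hM : M ⊆ Q)
    {y : Finset α → Finset α → α} (hy : ∀ w ∈ V, ∀ j ∈ NN M w, y w j ∈ w ∧ y w j ∈ j) :
    ∑ j ∈ M, EE (unions (V ∪ Q)) j
      ≤ ∑ w ∈ V, ((FB (unions (V ∪ Q)) (NN M w) (y w)).filter
          fun A => nM (NN M w) (y w) A ≤ 1).card := by
  set F := unions (V ∪ Q) with hF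
  calc ∑ j ∈ M, EE F j
      ≤ ∑ j ∈ M, ((LL F j).filter fun A => ∃ w ∈ V, CF M w j A ∨ CS M w j A).card :=
        Finset.sum_le_sum fun j hj => EE_le_cost hQ hM (hM hj)
    _ ≤ ∑ j ∈ M, ∑ w ∈ V, ((LL F j).filter fun A => CF M w j A ∨ CS M w j A).card := by
        apply Finset.sum_le_sum
        intro j _
        calc ((LL F j).filter fun A => ∃ w ∈ V, CF M w j A ∨ CS M w j A).card
            ≤ (V.biUnion fun w => (LL F j).filter fun A => CF M w j A ∨ CS M w j A).card := by
              apply Finset.card_le_card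
              intro A hA
              obtain ⟨h1, w, hw, h2⟩ := Finset.mem_filter.1 hA
              exact Finset.mem_biUnion.2 ⟨w, hw, Finset.mem_filter.2 ⟨h1, h2⟩⟩
          _ ≤ _ := Finset.card_biUnion_le
    _ = ∑ w ∈ V, ∑ j ∈ M, ((LL F j).filter fun A => CF M w j A ∨ CS M w j A).card :=
        Finset.sum_comm
    _ ≤ _ := Finset.sum_le_sum fun w hw => cost_w hQ hM (hy w hw)

end

end Pool.Agent.H97.GEN
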