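import Pool.Agent.H97.GEN.Core

/-! # Linear range: bad, good and missing directions (definitions, frequency step) -/

set_option autoImplicit false

namespace Pool.Agent.H97.GEN

open Finset

variable {α : Type*} [DecidableEq α]

/-- The members that do not contain the set `j`. -/
def LL (F : Finset (Finset α)) (j : Finset α) : Finset (Finset α) := F.filter fun A => ¬ j ⊆ A

/-- Their unions with `j`. -/
def imL (F : Finset (Finset α)) (j : Finset α) : Finset (Finset α) := (LL F j).image fun A => A ∪ j

/-- `E = |L| - |im|`. -/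
def EE (F : Finset (Finset α)) (j : Finset α) : ℕ := (LL F j).card - (imL F j).card

/-- Missing. -/
def Miss (x : α) (j A : Finset α) : Prop := ¬ j ⊆ A ∧ x ∉ A

/-- Bad. -/
def Bad (F : Finset (Finset α)) (x : α) (j A : Finset α) : Prop :=
  (¬ j ⊆ A ∧ x ∈ A) ∨ (j ⊆ A ∧ ∀ B ∈ F, B ∪ j = A → x ∈ B)

/-- Good. -/
def Good (F : Finset (Finset α)) (x : α) (j A : Finset α) : Prop :=
  j ⊆ A ∧ ∃ B ∈ F, B ∪ j = A ∧ x ∉ B

instance (x : α) (j A : Finset α) : Decidable (Miss x j A) := by unfold Miss; infer_instance

instance (F : Finset (Finset α)) (x : α) (j A : Finset α) : Decidable (Bad F x j A) := by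
  unfold Bad; infer_instance

instance (F : Finset (Finset α)) (x : α) (j A : Finset α) : Decidable (Good F x j A) := by
  unfold Good; infer_instance

/-- Not bad means missing or good. -/
lemma not_bad_iff {F : Finset (Finset α)} {x : α} {j A : Finset α} :
    ¬ Bad F x j A ↔ (Miss x j A ∨ Good F x j A) := by
  unfold Bad Miss Good
  constructor
  · intro h
    push Not at h
    by_cases hj : j ⊆ A
    · right
      obtain ⟨B, hB, h1, h2⟩ := h.2 hj
      exact ⟨hj, B, hB, h1, h2⟩
    · left
      exact ⟨hj, h.1 hj⟩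
  · rintro (⟨h1, h2⟩ | ⟨h1, B, hB, h2, h3⟩) (⟨h4, h5⟩ | ⟨h4, h5⟩)
    · exact h2 h5
    · exact h1 h4
    · exact h4 h1
    · exact h3 (h5 B hB h2)

lemma not_miss_good {F : Finset (Finset α)} {x : α} {j A : Finset α} :
    ¬ (Miss x j A ∧ Good F x j A) := by
  rintro ⟨⟨h1, _⟩, h2, _⟩
  exact h1 h2

lemma mem_LL {F : Finset (Finset α)} {j A : Finset α} : A ∈ LL F j ↔ A ∈ F ∧ ¬ j ⊆ A := by
  simp [LL]

/-- (1) The number of members at which `j` is bad. -/
theorem bad_count {F : Finset (Finset α)} {j : Finset α} {x : α} (hx : x ∈ j)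
    (hcl : ∀ A ∈ F, A ∪ j ∈ F) (hfr : 2 * fr F x ≤ F.card) :
    (F.filter fun A => Bad F x j A).card ≤ EE F j := by
  -- `T` : the members that contain `j`
  set T := F.filter fun A => j ⊆ A with hT
  set q := ((LL F j).filter fun A => x ∈ A).card with hq
  have h1 : T.card + (LL F j).card = F.card := by
    rw [hT, LL]
    exact Finset.card_filter_add_card_filter_not (s := F) (p := fun A => j ⊆ A)
  have h2 : fr F x = T.card + q := by
    unfold fr
    rw [← Finset.card_filter_add_card_filter_not (s := F.filter fun A => x ∈ A)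
      (p := fun A => j ⊆ A), Finset.filter_filter, Finset.filter_filter]
    congr 1
    · rw [hT]
      congr 1
      apply Finset.filter_congr
      intro A _
      exact ⟨fun h => h.2, fun h => ⟨h hx, h⟩⟩
    · rw [hq, LL, Finset.filter_filter]
      congr 1
      apply Finset.filter_congr
      intro A _
      exact ⟨fun h => ⟨h.2, h.1⟩, fun h => ⟨h.2, h.1⟩⟩
  have himT : imL F j ⊆ T := by
    intro B hB
    obtain ⟨A, hA, rfl⟩ := Finset.mem_image.1 hB
    exact Finset.mem_filter.2 ⟨hcl A (mem_LL.1 hA).1, Finset.subset_union_right⟩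
  have himT' := Finset.card_le_card himT
  -- the bad sets
  have h3 : (F.filter fun A => Bad F x j A).card
      ≤ q + ((T \ imL F j).card + q) := by
    calc (F.filter fun A => Bad F x j A).card
        ≤ (((LL F j).filter fun A => x ∈ A)
            ∪ ((T \ imL F j) ∪ (((LL F j).filter fun A => x ∈ A).image fun A => A ∪ j))).card := by
          apply Finset.card_le_card
          intro A hA
          obtain ⟨hAF, hb⟩ := Finset.mem_filter.1 hA
          rcases hb with ⟨hj, hxA⟩ | ⟨hj, hall⟩
          · exact Finset.mem_union_left _ (Finset.mem_filter.2 ⟨mem_LL.2 ⟨hAF, hj⟩, hxA⟩)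
          · apply Finset.mem_union_right
            by_cases him : A ∈ imL F j
            · apply Finset.mem_union_right
              obtain ⟨B, hB, hBA⟩ := Finset.mem_image.1 him
              exact Finset.mem_image.2
                ⟨B, Finset.mem_filter.2 ⟨hB, hall B (mem_LL.1 hB).1 hBA⟩, hBA⟩
            · apply Finset.mem_union_left
              exact Finset.mem_sdiff.2 ⟨Finset.mem_filter.2 ⟨hAF, hj⟩, him⟩
      _ ≤ _ := (Finset.card_union_le _ _).trans (Nat.add_le_add_left
          ((Finset.card_union_le _ _).trans (Nat.add_le_add_left Finset.card_image_le _)) _)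
  rw [Finset.card_sdiff_of_subset himT] at h3
  unfold EE
  omega

end Pool.Agent.H97.GEN
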