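import Pool.Agent.H97.GEN.LinDefs
import Pool.Agent.H97.GEN.LinAbel

/-! # Linear range: deletion (2) -/

set_option autoImplicit false

namespace Pool.Agent.H97.GEN

open Finset

variable {α : Type*} [DecidableEq α]

section

variable (F : Finset (Finset α)) (N : Finset (Finset α)) (y : Finset α → α)

/-- Number of missing directions. -/
def nM (A : Finset α) : ℕ := (N.filter fun j => Miss (y j) j A).card

/-- Number of bad directions. -/
def nB (A : Finset α) : ℕ := (N.filter fun j => Bad F (y j) j A).card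

/-- Number of good directions. -/
def nG (A : Finset α) : ℕ := (N.filter fun j => Good F (y j) j A).card

/-- Number of directions that are not bad. -/
def nK (A : Finset α) : ℕ := (N.filter fun j => ¬ Bad F (y j) j A).card

/-- The members with a bad direction. -/
def FB : Finset (Finset α) := F.filter fun A => 1 ≤ nB F N y A

open Classical in
/-- Deletion of the direction `j`. -/
noncomputable def dl (j A : Finset α) : Finset α :=
  if h : ∃ B ∈ F, B ∪ j = A ∧ y j ∉ B then h.choose else A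

variable {F N y}

lemma dl_spec {j A : Finset α} (h : Good F (y j) j A) :
    dl F y j A ∈ F ∧ dl F y j A ∪ j = A ∧ y j ∉ dl F y j A := by
  have h' : ∃ B ∈ F, B ∪ j = A ∧ y j ∉ B := h.2
  unfold dl
  rw [dif_pos h']
  exact h'.choose_spec

lemma nK_eq (A : Finset α) : nK F N y A = nM N y A + nG F N y A := by
  unfold nK nM nG
  rw [← Finset.card_union_of_disjoint]
  · congr 1
    ext j
    simp only [Finset.mem_filter, Finset.mem_union, not_bad_iff]
    tauto
  · rw [Finset.disjoint_left]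
    intro j h1 h2
    exact not_miss_good ⟨(Finset.mem_filter.1 h1).2, (Finset.mem_filter.1 h2).2⟩

/-- Hypotheses on the directions. -/
structure Dirs (F : Finset (Finset α)) (N : Finset (Finset α)) (y : Finset α → α) : Prop where
  ymem : ∀ j ∈ N, y j ∈ j
  disj : ∀ i ∈ N, ∀ j ∈ N, i ≠ j → Disjoint i j
  cl : ∀ A ∈ F, ∀ j ∈ N, A ∪ j ∈ F

lemma sub_union_iff {i j B : Finset α} (h : Disjoint i j) : i ⊆ B ∪ j ↔ i ⊆ B := by
  constructor
  · intro hs x hx
    rcases Finset.mem_union.1 (hs hx) with h1 | h1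
    · exact h1
    · exact absurd h1 (Finset.disjoint_left.1 h hx)
  · intro hs
    exact hs.trans Finset.subset_union_left

lemma mem_union_iff' {i j B : Finset α} (h : Disjoint i j) {x : α} (hx : x ∈ i) :
    x ∈ B ∪ j ↔ x ∈ B := by
  rw [Finset.mem_union]
  exact ⟨fun h1 => h1.resolve_right (Finset.disjoint_left.1 h hx), Or.inl⟩

/-- Missing stays, `j` becomes missing. -/
lemma miss_dl (hD : Dirs F N y) {i j A : Finset α} (hi : i ∈ N) (hj : j ∈ N)
    (hg : Good F (y j) j A) :
    Miss (y i) i (dl F y j A) ↔ (Miss (y i) i A ∨ i = j) := by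
  obtain ⟨h1, h2, h3⟩ := dl_spec hg
  by_cases hij : i = j
  · subst hij
    simp only [or_true, iff_true]
    exact ⟨fun h => h3 (h (hD.ymem i hi)), h3⟩
  · have hd := hD.disj i hi j hj hij
    unfold Miss
    rw [← h2, sub_union_iff hd, mem_union_iff' hd (hD.ymem i hi), h2]
    simp [hij]

/-- Bad stays bad. -/
lemma bad_dl (hD : Dirs F N y) {i j A : Finset α} (hi : i ∈ N) (hj : j ∈ N)
    (hg : Good F (y j) j A) (hb : Bad F (y i) i A) : Bad F (y i) i (dl F y j A) := by
  obtain ⟨h1, h2, h3⟩ := dl_spec hg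
  have hij : i ≠ j := by
    rintro rfl
    exact (not_bad_iff.2 (Or.inr hg)) hb
  have hd := hD.disj i hi j hj hij
  rcases hb with ⟨hb1, hb2⟩ | ⟨hb1, hb2⟩
  · left
    rw [← h2, sub_union_iff hd] at hb1
    rw [← h2, mem_union_iff' hd (hD.ymem i hi)] at hb2
    exact ⟨hb1, hb2⟩
  · right
    rw [← h2, sub_union_iff hd] at hb1
    refine ⟨hb1, fun B hB hBi => ?_⟩
    have h4 := hb2 (B ∪ j) (hD.cl B hB j hj) (by
      rw [Finset.union_right_comm, hBi, h2])
    exact (mem_union_iff' hd (hD.ymem i hi)).1 h4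

lemma nM_dl (hD : Dirs F N y) {j A : Finset α} (hj : j ∈ N)
    (hg : Good F (y j) j A) : nM N y (dl F y j A) = nM N y A + 1 := by
  unfold nM
  have e : (N.filter fun i => Miss (y i) i (dl F y j A))
      = insert j (N.filter fun i => Miss (y i) i A) := by
    ext i
    rw [Finset.mem_insert, Finset.mem_filter, Finset.mem_filter]
    constructor
    · rintro ⟨hi, hm⟩
      rcases (miss_dl hD hi hj hg).1 hm with h | h
      · exact Or.inr ⟨hi, h⟩
      · exact Or.inl h
    · rintro (rfl | ⟨hi, hm⟩)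
      · exact ⟨hj, (miss_dl hD hj hj hg).2 (Or.inr rfl)⟩
      · exact ⟨hi, (miss_dl hD hi hj hg).2 (Or.inl hm)⟩
  rw [e, Finset.card_insert_of_notMem]
  intro h
  exact not_miss_good ⟨(Finset.mem_filter.1 h).2, hg⟩

lemma nB_dl (hD : Dirs F N y) {j A : Finset α} (hj : j ∈ N)
    (hg : Good F (y j) j A) : nB F N y A ≤ nB F N y (dl F y j A) := by
  apply Finset.card_le_card
  intro i hi
  obtain ⟨h1, h2⟩ := Finset.mem_filter.1 hi
  exact Finset.mem_filter.2 ⟨h1, bad_dl hD h1 hj hg h2⟩

lemma nK_dl (hD : Dirs F N y) {j A : Finset α} (hj : j ∈ N)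
    (hg : Good F (y j) j A) : nK F N y (dl F y j A) ≤ nK F N y A := by
  apply Finset.card_le_card
  intro i hi
  obtain ⟨h1, h2⟩ := Finset.mem_filter.1 hi
  exact Finset.mem_filter.2 ⟨h1, fun h => h2 (bad_dl hD h1 hj hg h)⟩

/-- Step: good directions at level `m` against missing ones at level `m + 1`. -/
theorem step (hD : Dirs F N y) (h : ℕ → ℝ) (h0 : ∀ k, 0 ≤ h k) (hanti : Antitone h) (m : ℕ) :
    ∑ A ∈ (FB F N y).filter (fun A => nM N y A = m), (nG F N y A : ℝ) * h (nK F N y A)
      ≤ (m + 1) * ∑ A ∈ (FB F N y).filter (fun A => nM N y A = m + 1), h (nK F N y A) := by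
  set X := (FB F N y).filter (fun A => nM N y A = m) with hX
  set Y := (FB F N y).filter (fun A => nM N y A = m + 1) with hY
  have h1 : ∑ A ∈ X, (nG F N y A : ℝ) * h (nK F N y A)
      = ∑ j ∈ N, ∑ A ∈ X.filter (fun A => Good F (y j) j A), h (nK F N y A) := by
    have : ∀ A ∈ X, (nG F N y A : ℝ) * h (nK F N y A)
        = ∑ j ∈ N, if Good F (y j) j A then h (nK F N y A) else 0 := by
      intro A _
      rw [← Finset.sum_filter, Finset.sum_const, nsmul_eq_mul]
      rfl
    rw [Finset.sum_congr rfl this, Finset.sum_comm]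
    apply Finset.sum_congr rfl
    intro j _
    exact (Finset.sum_filter _ _).symm
  have h2 : (m + 1 : ℝ) * ∑ A ∈ Y, h (nK F N y A)
      = ∑ j ∈ N, ∑ A ∈ Y.filter (fun A => Miss (y j) j A), h (nK F N y A) := by
    have : ∀ A ∈ Y, (m + 1 : ℝ) * h (nK F N y A)
        = ∑ j ∈ N, if Miss (y j) j A then h (nK F N y A) else 0 := by
      intro A hA
      rw [← Finset.sum_filter, Finset.sum_const, nsmul_eq_mul]
      have := (Finset.mem_filter.1 hA).2
      unfold nM at this
      rw [this]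
      push_cast
      ring
    rw [Finset.mul_sum, Finset.sum_congr rfl this, Finset.sum_comm]
    apply Finset.sum_congr rfl
    intro j _
    exact (Finset.sum_filter _ _).symm
  rw [h1, h2]
  apply Finset.sum_le_sum
  intro j hj
  have hinj : Set.InjOn (fun A => dl F y j A) (X.filter (fun A => Good F (y j) j A) : Set _) := by
    intro A hA B hB hAB
    rw [Finset.mem_coe, Finset.mem_filter] at hA hB
    obtain ⟨-, a2, -⟩ := dl_spec hA.2
    obtain ⟨-, b2, -⟩ := dl_spec hB.2
    simp only at hAB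
    rw [← a2, hAB, b2]
  calc ∑ A ∈ X.filter (fun A => Good F (y j) j A), h (nK F N y A)
      ≤ ∑ A ∈ X.filter (fun A => Good F (y j) j A), h (nK F N y (dl F y j A)) := by
        apply Finset.sum_le_sum
        intro A hA
        exact hanti (nK_dl hD hj (Finset.mem_filter.1 hA).2)
    _ = ∑ B ∈ (X.filter (fun A => Good F (y j) j A)).image (fun A => dl F y j A),
          h (nK F N y B) := by
        rw [Finset.sum_image hinj]
    _ ≤ ∑ A ∈ Y.filter (fun A => Miss (y j) j A), h (nK F N y A) := by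
        apply Finset.sum_le_sum_of_subset_of_nonneg
        · intro B hB
          obtain ⟨A, hA, rfl⟩ := Finset.mem_image.1 hB
          obtain ⟨hAX, hg⟩ := Finset.mem_filter.1 hA
          obtain ⟨hAF, hm⟩ := Finset.mem_filter.1 hAX
          obtain ⟨hAF', hb⟩ := Finset.mem_filter.1 hAF
          obtain ⟨d1, d2, d3⟩ := dl_spec hg
          refine Finset.mem_filter.2 ⟨Finset.mem_filter.2 ⟨Finset.mem_filter.2
            ⟨d1, hb.trans (nB_dl hD hj hg)⟩, ?_⟩, ?_⟩
          · rw [nM_dl hD hj hg, hm]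
          · exact (miss_dl hD hj hj hg).2 (Or.inr rfl)
        · intro B _ _
          exact h0 _

/-- (2) -/
theorem del_bound (hD : Dirs F N y) :
    (((FB F N y).filter fun A => nM N y A ≤ 1).card : ℝ)
      ≤ ∑ A ∈ FB F N y, gg (nK F N y A) := by
  -- levels
  set k : Finset α → ℕ := nK F N y with hk
  set u : Finset α → ℕ := nG F N y with hu
  set lv : ℕ → Finset (Finset α) := fun m => (FB F N y).filter (fun A => nM N y A = m) with hlv
  have hku : ∀ m, ∀ A ∈ lv m, k A = m + u A := by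
    intro m A hA
    rw [hk, hu, nK_eq, (Finset.mem_filter.1 hA).2]
  have s0 := step hD wa wa_nonneg wa_antitone 0
  have s1 := step hD wb wb_nonneg wb_antitone 1
  have s2 := step hD wc wc_nonneg wc_antitone 2
  have s3 := step hD wd wd_nonneg wd_antitone 3
  norm_num at s0 s1 s2 s3
  rw [← hk, ← hu] at s0 s1 s2 s3
  change ∑ A ∈ lv 0, _ ≤ ∑ A ∈ lv 1, _ at s0
  change ∑ A ∈ lv 1, _ ≤ 2 * ∑ A ∈ lv 2, _ at s1
  change ∑ A ∈ lv 2, _ ≤ 3 * ∑ A ∈ lv 3, _ at s2
  change ∑ A ∈ lv 3, _ ≤ 4 * ∑ A ∈ lv 4, _ at s3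
  -- pointwise inequalities
  have e0 : ∀ A ∈ lv 0, (1 : ℝ) ≤ gg (k A) + (u A : ℝ) * wa (k A) := by
    intro A hA
    rw [hku 0 A hA, zero_add]
    exact lev0 _
  have e1 : ∀ A ∈ lv 1, (1 : ℝ) + wa (k A) ≤ gg (k A) + (u A : ℝ) * wb (k A) := by
    intro A hA
    rw [hku 1 A hA]
    exact lev1 _
  have e2 : ∀ A ∈ lv 2, 2 * wb (k A) ≤ gg (k A) + (u A : ℝ) * wc (k A) := by
    intro A hA
    rw [hku 2 A hA]
    exact lev2 _
  have e3 : ∀ A ∈ lv 3, 3 * wc (k A) ≤ gg (k A) + (u A : ℝ) * wd (k A) := by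
    intro A hA
    rw [hku 3 A hA]
    exact lev3 _
  have e4 : ∀ A ∈ lv 4, 4 * wd (k A) ≤ gg (k A) := by
    intro A hA
    rw [hku 4 A hA]
    exact lev4 _
  have S0 := Finset.sum_le_sum e0
  have S1 := Finset.sum_le_sum e1
  have S2 := Finset.sum_le_sum e2
  have S3 := Finset.sum_le_sum e3
  have S4 := Finset.sum_le_sum e4
  rw [Finset.sum_add_distrib] at S0
  rw [Finset.sum_add_distrib, Finset.sum_add_distrib] at S1
  rw [Finset.sum_add_distrib, ← Finset.mul_sum] at S2 S3
  rw [← Finset.mul_sum] at S4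
  have hsplit : (((FB F N y).filter fun A => nM N y A ≤ 1).card : ℝ)
      = (∑ A ∈ lv 0, (1 : ℝ)) + ∑ A ∈ lv 1, (1 : ℝ) := by
    rw [Finset.sum_const, Finset.sum_const, nsmul_eq_mul, nsmul_eq_mul, mul_one, mul_one,
      ← Nat.cast_add, ← Finset.card_union_of_disjoint]
    · congr 2
      rw [hlv]
      ext A
      simp only [Finset.mem_filter, Finset.mem_union]
      constructor
      · rintro ⟨h, h'⟩
        rcases Nat.le_one_iff_eq_zero_or_eq_one.1 h' with h'' | h''
        · exact Or.inl ⟨h, h''⟩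
        · exact Or.inr ⟨h, h''⟩
      · rintro (⟨h, h'⟩ | ⟨h, h'⟩) <;> exact ⟨h, by omega⟩
    · rw [Finset.disjoint_left]
      intro A h h'
      have := (Finset.mem_filter.1 h).2
      have := (Finset.mem_filter.1 h').2
      omega
  have hall : ∑ A ∈ lv 0, gg (k A) + ∑ A ∈ lv 1, gg (k A) + ∑ A ∈ lv 2, gg (k A)
      + ∑ A ∈ lv 3, gg (k A) + ∑ A ∈ lv 4, gg (k A) ≤ ∑ A ∈ FB F N y, gg (k A) := by
    have e : ∀ m, ∑ A ∈ lv m, gg (k A)
        = ∑ A ∈ FB F N y, if nM N y A = m then gg (k A) else 0 := fun m => by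
      rw [hlv, Finset.sum_filter]
    rw [e, e, e, e, e, ← Finset.sum_add_distrib, ← Finset.sum_add_distrib,
      ← Finset.sum_add_distrib, ← Finset.sum_add_distrib]
    apply Finset.sum_le_sum
    intro A _
    have := gg_nonneg (k A)
    split_ifs <;> first | omega | linarith
  rw [hsplit]
  linarith

end

end Pool.Agent.H97.GEN
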