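import Mathlib

/-! # Numerics for the linear range: `64 / (2 - log₂ 3) < 155`, `40 / (2 - log₂ 3) < 100` -/

set_option autoImplicit false

namespace Pool.Agent.H97.GEN

theorem numericL (g h m a : ℕ) (hh : 1 ≤ h) (ha : 1 ≤ a)
    (hd : (2 : ℝ) ^ ((g : ℝ) - (h : ℝ) / 155) ≤ a)
    (hp : a ^ 2 * 4 ^ m ≤ 4 ^ g * 3 ^ m) :
    32 * m < h := by
  by_contra hcon
  push Not at hcon
  have hm : 1 ≤ m := by omega
  -- `2 ^ (155 g) ≤ a ^ 155 * 2 ^ h`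
  have h1 : (2 : ℝ) ^ (155 * g) ≤ (a : ℝ) ^ 155 * 2 ^ h := by
    have e1 : ((2 : ℝ) ^ ((g : ℝ) - (h : ℝ) / 155)) ^ (155 : ℕ) ≤ (a : ℝ) ^ 155 :=
      pow_le_pow_left₀ (by positivity) hd 155
    have e2 : ((2 : ℝ) ^ ((g : ℝ) - (h : ℝ) / 155)) ^ (155 : ℕ) * (2 : ℝ) ^ h
        = (2 : ℝ) ^ (155 * g) := by
      rw [← Real.rpow_natCast ((2 : ℝ) ^ ((g : ℝ) - (h : ℝ) / 155)) 155, ← Real.rpow_mul (by norm_num),
        ← Real.rpow_natCast (2 : ℝ) h, ← Real.rpow_natCast (2 : ℝ) (155 * g),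
        ← Real.rpow_add (by norm_num)]
      congr 1
      push_cast
      ring
    rw [← e2]
    exact mul_le_mul_of_nonneg_right e1 (by positivity)
  have h2 : 2 ^ (155 * g) ≤ a ^ 155 * 2 ^ h := by exact_mod_cast h1
  have h3 : (2 ^ (155 * g)) ^ 2 ≤ (a ^ 155 * 2 ^ h) ^ 2 := Nat.pow_le_pow_left h2 2
  have h4 : (a ^ 2 * 4 ^ m) ^ 155 ≤ (4 ^ g * 3 ^ m) ^ 155 := Nat.pow_le_pow_left hp 155
  have e4 : (4 : ℕ) = 2 ^ 2 := by norm_num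
  have h5 : a ^ 310 * 4 ^ (155 * m) ≤ a ^ 310 * (4 ^ h * 3 ^ (155 * m)) := by
    calc a ^ 310 * 4 ^ (155 * m) = (a ^ 2 * 4 ^ m) ^ 155 := by
          rw [mul_pow, ← pow_mul, ← pow_mul, mul_comm m 155]
      _ ≤ (4 ^ g * 3 ^ m) ^ 155 := h4
      _ = (2 ^ (155 * g)) ^ 2 * 3 ^ (155 * m) := by
          rw [mul_pow, ← pow_mul, ← pow_mul, ← pow_mul, e4, ← pow_mul, mul_comm m 155]
          congr 2
          ring
      _ ≤ (a ^ 155 * 2 ^ h) ^ 2 * 3 ^ (155 * m) := Nat.mul_le_mul_right _ h3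
      _ = a ^ 310 * (4 ^ h * 3 ^ (155 * m)) := by
          rw [mul_pow, ← pow_mul, ← pow_mul, e4, ← pow_mul, mul_comm h 2]
          ring
  have h6 : 4 ^ (155 * m) ≤ 4 ^ h * 3 ^ (155 * m) :=
    Nat.le_of_mul_le_mul_left h5 (by positivity)
  have h7 : 4 ^ (32 * m) * 4 ^ (123 * m) ≤ 4 ^ (32 * m) * 3 ^ (155 * m) := by
    calc 4 ^ (32 * m) * 4 ^ (123 * m) = 4 ^ (155 * m) := by
          rw [← pow_add]
          congr 1
          ring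
      _ ≤ 4 ^ h * 3 ^ (155 * m) := h6
      _ ≤ 4 ^ (32 * m) * 3 ^ (155 * m) :=
          Nat.mul_le_mul_right _ (Nat.pow_le_pow_right (by norm_num) hcon)
  have h8 : 4 ^ (123 * m) ≤ 3 ^ (155 * m) := Nat.le_of_mul_le_mul_left h7 (by positivity)
  rw [pow_mul, pow_mul] at h8
  have h9 : (3 ^ 155) ^ m < (4 ^ 123) ^ m := Nat.pow_lt_pow_left (by norm_num) (by omega)
  omega

/-- The same with `20` and `100`: `40 / (2 - log₂ 3) < 100`. -/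
theorem numericL100 (g h m a : ℕ) (hh : 1 ≤ h) (ha : 1 ≤ a)
    (hd : (2 : ℝ) ^ ((g : ℝ) - (h : ℝ) / 100) ≤ a)
    (hp : a ^ 2 * 4 ^ m ≤ 4 ^ g * 3 ^ m) :
    20 * m < h := by
  by_contra hcon
  push Not at hcon
  have hm : 1 ≤ m := by omega
  -- `2 ^ (100 g) ≤ a ^ 100 * 2 ^ h`
  have h1 : (2 : ℝ) ^ (100 * g) ≤ (a : ℝ) ^ 100 * 2 ^ h := by
    have e1 : ((2 : ℝ) ^ ((g : ℝ) - (h : ℝ) / 100)) ^ (100 : ℕ) ≤ (a : ℝ) ^ 100 :=
      pow_le_pow_left₀ (by positivity) hd 100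
    have e2 : ((2 : ℝ) ^ ((g : ℝ) - (h : ℝ) / 100)) ^ (100 : ℕ) * (2 : ℝ) ^ h
        = (2 : ℝ) ^ (100 * g) := by
      rw [← Real.rpow_natCast ((2 : ℝ) ^ ((g : ℝ) - (h : ℝ) / 100)) 100, ← Real.rpow_mul (by norm_num),
        ← Real.rpow_natCast (2 : ℝ) h, ← Real.rpow_natCast (2 : ℝ) (100 * g),
        ← Real.rpow_add (by norm_num)]
      congr 1
      push_cast
      ring
    rw [← e2]
    exact mul_le_mul_of_nonneg_right e1 (by positivity)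
  have h2 : 2 ^ (100 * g) ≤ a ^ 100 * 2 ^ h := by exact_mod_cast h1
  have h3 : (2 ^ (100 * g)) ^ 2 ≤ (a ^ 100 * 2 ^ h) ^ 2 := Nat.pow_le_pow_left h2 2
  have h4 : (a ^ 2 * 4 ^ m) ^ 100 ≤ (4 ^ g * 3 ^ m) ^ 100 := Nat.pow_le_pow_left hp 100
  have e4 : (4 : ℕ) = 2 ^ 2 := by norm_num
  have h5 : a ^ 200 * 4 ^ (100 * m) ≤ a ^ 200 * (4 ^ h * 3 ^ (100 * m)) := by
    calc a ^ 200 * 4 ^ (100 * m) = (a ^ 2 * 4 ^ m) ^ 100 := by
          rw [mul_pow, ← pow_mul, ← pow_mul, mul_comm m 100]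
      _ ≤ (4 ^ g * 3 ^ m) ^ 100 := h4
      _ = (2 ^ (100 * g)) ^ 2 * 3 ^ (100 * m) := by
          rw [mul_pow, ← pow_mul, ← pow_mul, ← pow_mul, e4, ← pow_mul, mul_comm m 100]
          congr 2
          ring
      _ ≤ (a ^ 100 * 2 ^ h) ^ 2 * 3 ^ (100 * m) := Nat.mul_le_mul_right _ h3
      _ = a ^ 200 * (4 ^ h * 3 ^ (100 * m)) := by
          rw [mul_pow, ← pow_mul, ← pow_mul, e4, ← pow_mul, mul_comm h 2]
          ring
  have h6 : 4 ^ (100 * m) ≤ 4 ^ h * 3 ^ (100 * m) :=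
    Nat.le_of_mul_le_mul_left h5 (by positivity)
  have h7 : 4 ^ (20 * m) * 4 ^ (80 * m) ≤ 4 ^ (20 * m) * 3 ^ (100 * m) := by
    calc 4 ^ (20 * m) * 4 ^ (80 * m) = 4 ^ (100 * m) := by
          rw [← pow_add]
          congr 1
          ring
      _ ≤ 4 ^ h * 3 ^ (100 * m) := h6
      _ ≤ 4 ^ (20 * m) * 3 ^ (100 * m) :=
          Nat.mul_le_mul_right _ (Nat.pow_le_pow_right (by norm_num) hcon)
  have h8 : 4 ^ (80 * m) ≤ 3 ^ (100 * m) := Nat.le_of_mul_le_mul_left h7 (by positivity)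
  rw [pow_mul, pow_mul] at h8
  have h9 : (3 ^ 100) ^ m < (4 ^ 80) ^ m := Nat.pow_lt_pow_left (by norm_num) (by omega)
  omega

end Pool.Agent.H97.GEN
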