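import Pool.Agent.H97.GEN.Core
import Pool.Agent.H97.GEN.HallPart
import Pool.Agent.H97.GEN.Deletion

/-! # Theorem X -/

set_option autoImplicit false

namespace Pool.Agent.H97.GEN

open Finset


variable {α : Type*} [DecidableEq α]

lemma fr_sdiff {A B : Finset (Finset α)} (h : B ⊆ A) (x : α) :
    fr A x = fr B x + fr (A \ B) x := by
  unfold fr
  rw [← Finset.card_union_of_disjoint, ← Finset.filter_union, Finset.union_sdiff_of_subset h]
  exact Finset.disjoint_filter_filter Finset.disjoint_sdiff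

lemma nfr_sdiff {A B : Finset (Finset α)} (h : B ⊆ A) (x : α) :
    nfr A x = nfr B x + nfr (A \ B) x := by
  unfold nfr
  rw [← Finset.card_union_of_disjoint, ← Finset.filter_union, Finset.union_sdiff_of_subset h]
  exact Finset.disjoint_filter_filter Finset.disjoint_sdiff

/-- Theorem X. -/
theorem thmX (V Q : Finset (Finset α)) (hVQ : Disjoint V Q) (hne : ∀ G ∈ V ∪ Q, G.Nonempty)
    (hirr : ∀ G ∈ V, G ∉ unions ((V ∪ Q).erase G))
    (hQ : ∀ G ∈ Q, ∀ G' ∈ Q, G' ≠ G → Disjoint G' G)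
    (hcard : V.card * (Nat.log 2 V.card + 3) < Q.card) :
    (∃ G ∈ Q, ∀ G' ∈ V ∪ Q, G' ≠ G → Disjoint G' G) ∨
      (∃ x ∈ (V ∪ Q).sup id, (unions (V ∪ Q)).card < 2 * fr (unions (V ∪ Q)) x) := by
  obtain ⟨V2, hV2, Q2, hQ2, hQne, hN, M, hM1, hM2⟩ :=
    hall_part V Q (fun v => Q.filter fun G => ¬ Disjoint v G) (fun v _ => Finset.filter_subset _ _)
      (Nat.log 2 V.card + 3) hcard
  have hmeet : ∀ G ∈ Q2, ∀ G' ∈ V ∪ Q, G' ∉ V2 → G' ≠ G → Disjoint G' G := by
    intro G hG G' hG' hV hne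
    rw [Finset.mem_union] at hG'
    rcases hG' with h | h
    · have h1 := hN G' h hV
      by_contra h2
      exact Finset.disjoint_left.1 h1 (Finset.mem_filter.2 ⟨hQ2 hG, h2⟩) hG
    · exact hQ G (hQ2 hG) G' h hne
  rcases V2.eq_empty_or_nonempty with hV | ⟨v0, hv0⟩
  · left
    obtain ⟨G, hG⟩ := hQne
    refine ⟨G, hQ2 hG, fun G' hG' hne => hmeet G hG G' hG' ?_ hne⟩
    rw [hV]
    exact Finset.notMem_empty _
  right
  -- choice of the points
  have hM3 : ∀ v ∈ V2, ∀ j ∈ M v, ∃ x, x ∈ j ∧ x ∈ v := by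
    intro v hv j hj
    have h1 := (hM1 v hv).1 hj
    rw [Finset.mem_filter] at h1
    obtain ⟨x, hx1, hx2⟩ := Finset.not_disjoint_iff.1 h1.2
    exact ⟨x, hx2, hx1⟩
  obtain ⟨x0, -⟩ : (v0 : Finset α).Nonempty := hne v0 (Finset.mem_union_left _ (hV2 hv0))
  have hM4 : ∀ j : Finset α, ∃ x : α, ∀ v ∈ V2, j ∈ M v → x ∈ j ∧ x ∈ v := by
    intro j
    by_cases h : ∃ v ∈ V2, j ∈ M v
    · obtain ⟨v, hv, hj⟩ := h
      obtain ⟨x, hx⟩ := hM3 v hv j hj
      refine ⟨x, fun w hw hjw => ?_⟩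
      have : w = v := by
        by_contra hwv
        exact Finset.disjoint_left.1 (hM2 w hw v hv hwv) hjw hj
      rw [this]
      exact hx
    · exact ⟨x0, fun v hv hj => absurd ⟨v, hv, hj⟩ h⟩
  choose y hy using hM4
  set J := V ∪ Q with hJ
  set D := Nat.log 2 V.card + 3 with hD
  have hS : Setup J V2 Q2 D M y := by
    constructor
    · exact hV2.trans Finset.subset_union_left
    · intro G hG
      rw [Finset.mem_sdiff]
      exact ⟨Finset.mem_union_right _ (hQ2 hG),
        fun h => Finset.disjoint_left.1 hVQ (hV2 h) (hQ2 hG)⟩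
    · exact hmeet
    · exact hne
    · exact fun v hv => (hM1 v hv).2.1
    · exact fun v hv => (hM1 v hv).2.2
    · exact hM2
    · exact fun v hv j hj => (hy j v hv hj).1
    · exact fun v hv j hj => (hy j v hv hj).2
  have hbias := bias_sum hS (by omega)
  have hFpos : 0 < (FF J V2).card := by
    apply Finset.card_pos.2
    refine ⟨v0, ?_⟩
    rw [FF, Finset.mem_sdiff]
    refine ⟨self_mem (hS.VJ hv0), fun h => hirr v0 (hV2 hv0) ?_⟩
    refine unions_mono ?_ h
    intro G hG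
    rw [Finset.mem_sdiff] at hG
    rw [Finset.mem_erase]
    exact ⟨fun h' => hG.2 (h' ▸ hv0), hG.1⟩
  have hcrit : 2 ^ (D - 1) * ∑ v ∈ V2, ((FFv J V2 M y v).filter fun A => crit V2 M y A v).card
      ≤ V.card * ((D + 1) * (FF J V2).card) := by
    rw [Finset.mul_sum]
    calc _ ≤ ∑ v ∈ V2, (D + 1) * (FF J V2).card := by
          apply Finset.sum_le_sum
          intro v hv
          refine (crit_count hS (by omega) hv).trans ?_
          exact Nat.mul_le_mul_left _ (Finset.card_le_card (Finset.filter_subset _ _))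
      _ = V2.card * ((D + 1) * (FF J V2).card) := by rw [Finset.sum_const, smul_eq_mul]
      _ ≤ _ := Nat.mul_le_mul_right _ (Finset.card_le_card hV2)
  have hnum : V.card * (D + 1) < 2 ^ (D - 1) * (D - 1) := by
    have h1 : V.card < 2 ^ (Nat.log 2 V.card + 1) := Nat.lt_pow_succ_log_self (by norm_num) _
    have h2 : 2 ^ (D - 1) = 2 * 2 ^ (Nat.log 2 V.card + 1) := by
      rw [hD, show Nat.log 2 V.card + 3 - 1 = (Nat.log 2 V.card + 1) + 1 by omega, pow_succ]
      ring
    have h3 : D + 1 ≤ 2 * (D - 1) := by omega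
    have h4 : 0 < D - 1 := by omega
    calc V.card * (D + 1) ≤ V.card * (2 * (D - 1)) := Nat.mul_le_mul_left _ h3
      _ = V.card * 2 * (D - 1) := by ring
      _ < 2 ^ (D - 1) * (D - 1) := by
          apply Nat.mul_lt_mul_of_pos_right _ h4
          rw [h2]
          omega
  have hlt : ∑ v ∈ V2, ((FFv J V2 M y v).filter fun A => crit V2 M y A v).card
      < (D - 1) * (FF J V2).card := by
    by_contra hcon
    push Not at hcon
    have h1 := Nat.mul_le_mul_left (2 ^ (D - 1)) hcon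
    have h2 := (Nat.mul_lt_mul_of_pos_right hnum hFpos)
    have h3 : V.card * ((D + 1) * (FF J V2).card) = V.card * (D + 1) * (FF J V2).card := by ring
    have h4 : 2 ^ (D - 1) * ((D - 1) * (FF J V2).card)
        = 2 ^ (D - 1) * (D - 1) * (FF J V2).card := by ring
    omega
  have hsum : ∑ j ∈ V2.biUnion M, nfr (FF J V2) (y j) < ∑ j ∈ V2.biUnion M, fr (FF J V2) (y j) := by
    omega
  obtain ⟨j, hj, hlt2⟩ := Finset.exists_lt_of_sum_lt hsum
  refine ⟨y j, ?_, ?_⟩
  · rw [mem_sup_id]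
    exact ⟨j, hS.jJ hj, hS.yj hj⟩
  · have hhalf : fr (unions (J \ V2)) (y j) = nfr (unions (J \ V2)) (y j) := by
      apply half_of_isolated (J \ V2) (hS.QJ (hS.jQ hj)) _ (hS.yj hj)
      intro G' hG' hne'
      rw [Finset.mem_sdiff] at hG'
      exact hS.meet j (hS.jQ hj) G' hG'.1 hG'.2 hne'
    have hsub : unions (J \ V2) ⊆ unions J := unions_mono Finset.sdiff_subset
    have e1 := fr_sdiff hsub (y j)
    have e2 := nfr_sdiff hsub (y j)
    have e3 := fr_add_nfr (unions J) (y j)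
    have e4 : unions J \ unions (J \ V2) = FF J V2 := rfl
    rw [e4] at e1 e2
    omega

end Pool.Agent.H97.GEN
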