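import Pool.Agent.H97.GEN.Part1

/-!
# Almost independent generators: the strict form

`meet A` is the set of the generators that meet another generator.
-/

set_option autoImplicit false

namespace Pool.Agent.H97.GEN

open Finset

variable {α : Type*} [DecidableEq α]

/-- The generators that meet another generator. -/
def meet (A : Finset (Finset α)) : Finset (Finset α) :=
  (gens A).filter fun G => ∃ G' ∈ gens A, G' ≠ G ∧ ¬ Disjoint G' G

/-- Removing isolated members of `J`. -/
lemma remove_isolated (R : Finset (Finset α)) : ∀ J : Finset (Finset α), R ⊆ J →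
    (∀ G ∈ R, G.Nonempty ∧ ∀ G' ∈ J, G' ≠ G → Disjoint G' G) →
    (unions J).card = 2 ^ R.card * (unions (J \ R)).card ∧
      ∀ x, (∀ G ∈ R, x ∉ G) → fr (unions J) x = 2 ^ R.card * fr (unions (J \ R)) x := by
  classical
  induction R using Finset.induction_on with
  | empty =>
    intro J _ _
    simp
  | insert G R hG ih =>
    intro J hsub hiso
    have hGJ : G ∈ J := hsub (Finset.mem_insert_self _ _)
    have hRJ : R ⊆ J.erase G := by
      intro G' hG'
      refine Finset.mem_erase.2 ⟨?_, hsub (Finset.mem_insert_of_mem hG')⟩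
      rintro rfl
      exact hG hG'
    obtain ⟨h1, h2⟩ := ih (J.erase G) hRJ (by
      intro G' hG'
      obtain ⟨h3, h4⟩ := hiso G' (Finset.mem_insert_of_mem hG')
      exact ⟨h3, fun G'' hG'' hne => h4 G'' (Finset.mem_of_mem_erase hG'') hne⟩)
    obtain ⟨hGne, hGiso⟩ := hiso G (Finset.mem_insert_self _ _)
    have h5 := card_isolated J hGJ hGne hGiso
    have h6 : J \ insert G R = J.erase G \ R := by
      ext T
      simp only [Finset.mem_sdiff, Finset.mem_insert, Finset.mem_erase, not_or]
      tauto
    rw [h6, Finset.card_insert_of_notMem hG]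
    refine ⟨?_, ?_⟩
    · rw [h5, h1]
      ring
    · intro x hx
      have h7 := fr_isolated J hGJ hGne hGiso (hx G (Finset.mem_insert_self _ _))
      rw [h7, h2 x (fun G' hG' => hx G' (Finset.mem_insert_of_mem hG'))]
      ring

/-- Some point is in more than half of the members, if some generators meet and
`|A| ≥ 2 ^ (g - h / (16 log₂ (h + 1)))`, where `g` is the number of generators and `h` is the number of
generators that meet another generator. -/
theorem part2' {A : Finset (Finset α)} (hA : UnionClosed A) (hm : (meet A).Nonempty)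
    (hd : (2 : ℝ) ^ (((gens A).card : ℝ)
      - (meet A).card / (16 * Real.logb 2 ((meet A).card + 1))) ≤ A.card) :
    ∃ x ∈ A.sup id, A.card < 2 * fr A x := by
  classical
  by_contra hcon
  push Not at hcon
  have hu := unions_gens hA
  have hcle : A.card ≤ (unions (gens A)).card := by
    rw [hu]
    exact Finset.card_le_card (Finset.subset_insert _ _)
  have hfr : ∀ x, fr (unions (gens A)) x = fr A x := by
    intro x
    rw [hu]
    exact fr_insert_empty A x
  have hmsub : meet A ⊆ gens A := Finset.filter_subset _ _
  have hsd : gens A \ (gens A \ meet A) = meet A := by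
    rw [Finset.sdiff_sdiff_eq_self hmsub]
  have hout : ∀ G ∈ gens A \ meet A, ∀ G' ∈ gens A, G' ≠ G → Disjoint G' G := by
    intro G hG G' hG' hne
    rw [Finset.mem_sdiff] at hG
    by_contra hnd
    exact hG.2 (Finset.mem_filter.2 ⟨hG.1, G', hG', hne, hnd⟩)
  obtain ⟨h1, h2⟩ := remove_isolated (gens A \ meet A) (gens A) Finset.sdiff_subset
    (fun G hG => ⟨gens_nonempty (Finset.mem_sdiff.1 hG).1, hout G hG⟩)
  rw [hsd] at h1 h2
  have hrc : (gens A \ meet A).card = (gens A).card - (meet A).card :=
    Finset.card_sdiff_of_subset hmsub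
  have hmle : (meet A).card ≤ (gens A).card := Finset.card_le_card hmsub
  set r : ℕ := (gens A \ meet A).card with hr
  have hpow : 0 < 2 ^ r := by positivity
  obtain ⟨G, hG, hiso⟩ := core (meet A) (fun G hG => gens_nonempty (hmsub hG))
    (fun G hG h => gens_irr A (hmsub hG)
      (unions_mono (Finset.erase_subset_erase _ hmsub) h)) (Finset.card_pos.2 hm) (by
      intro x hx
      obtain ⟨G0, hG0, hxG0⟩ := mem_sup_id.1 hx
      have h3 : ∀ G ∈ gens A \ meet A, x ∉ G := by
        intro G hG hxG
        have hne : G0 ≠ G := by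
          rintro rfl
          exact (Finset.mem_sdiff.1 hG).2 hG0
        exact Finset.disjoint_left.1 (hout G hG G0 (hmsub hG0) hne) hxG0 hxG
      have h4 := h2 x h3
      have h5 := hcon x (mem_sup_id.2 ⟨G0, gens_subset A (hmsub hG0), hxG0⟩)
      rw [← hfr x, h4] at h5
      have h6 : 2 ^ r * (2 * fr (unions (meet A)) x) ≤ 2 ^ r * (unions (meet A)).card := by
        calc 2 ^ r * (2 * fr (unions (meet A)) x) = 2 * (2 ^ r * fr (unions (meet A)) x) := by ring
          _ ≤ A.card := h5
          _ ≤ (unions (gens A)).card := hcle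
          _ = 2 ^ r * (unions (meet A)).card := h1
      exact Nat.le_of_mul_le_mul_left h6 hpow) (by
      have h7 : (2 : ℝ) ^ (((gens A).card : ℝ)
          - (meet A).card / (16 * Real.logb 2 ((meet A).card + 1)))
          ≤ (2 : ℝ) ^ (r : ℝ) * ((unions (meet A)).card : ℝ) := by
        refine hd.trans ?_
        have h8 : (A.card : ℝ) ≤ ((unions (gens A)).card : ℝ) := by exact_mod_cast hcle
        rw [h1] at h8
        push_cast at h8
        rw [Real.rpow_natCast]
        exact h8
      have h9 : (2 : ℝ) ^ (((gens A).card : ℝ)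
          - (meet A).card / (16 * Real.logb 2 ((meet A).card + 1)))
          = (2 : ℝ) ^ (r : ℝ) * (2 : ℝ) ^ (((meet A).card : ℝ)
          - (meet A).card / (16 * Real.logb 2 ((meet A).card + 1))) := by
        rw [← Real.rpow_add (by norm_num)]
        congr 1
        have h10 : (r : ℝ) = ((gens A).card : ℝ) - ((meet A).card : ℝ) := by
          rw [hrc, Nat.cast_sub hmle]
        rw [h10]
        ring
      rw [h9] at h7
      exact le_of_mul_le_mul_left h7 (by positivity))
  obtain ⟨hG1, G', hG', hne, hnd⟩ := Finset.mem_filter.1 hG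
  have hG'm : G' ∈ meet A :=
    Finset.mem_filter.2 ⟨hG', G, hG1, hne.symm, fun h => hnd h.symm⟩
  exact hnd (hiso G' hG'm hne)

end Pool.Agent.H97.GEN
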