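import Pool.Agent.H97.GEN.NumericL
import Pool.Agent.H97.GEN.Gibbs
import Pool.Agent.H97.GEN.Gens
import Pool.Agent.H97.GEN.Deletion
import Pool.Agent.H97.GEN.LinX
import Pool.Agent.H97.GEN.Part2

/-!
# Almost independent generators, linear range
-/

set_option autoImplicit false

namespace Pool.Agent.H97.GEN

open Finset

variable {α : Type*} [DecidableEq α]

/-- If no point is in more than half of the unions of `J`, and `J` is almost independent, then some
member of `J` is disjoint from all others. -/
theorem coreL (J : Finset (Finset α)) (hne : ∀ G ∈ J, G.Nonempty)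
    (hirr : ∀ G ∈ J, G ∉ unions (J.erase G)) (hJ : 1 ≤ J.card)
    (hhalf : ∀ x ∈ J.sup id, 2 * fr (unions J) x ≤ (unions J).card)
    (hd : (2 : ℝ) ^ ((J.card : ℝ) - J.card / 100) ≤ (unions J).card) :
    ∃ G ∈ J, ∀ G' ∈ J, G' ≠ G → Disjoint G' G := by
  classical
  obtain ⟨P, hP1, hP2, hP3, hPc, hPQ⟩ := matching J
  set V : Finset (Finset α) := P.image Prod.fst ∪ P.image Prod.snd with hV
  have hVJ : V ⊆ J := by
    intro G hG
    rcases Finset.mem_union.1 hG with h | h
    · obtain ⟨p, hp, rfl⟩ := Finset.mem_image.1 h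
      exact (hP1 p hp).1
    · obtain ⟨p, hp, rfl⟩ := Finset.mem_image.1 h
      exact (hP1 p hp).2.1
  have hVQ : V ∪ (J \ V) = J := Finset.union_sdiff_of_subset hVJ
  -- the traces
  have hinj : Set.InjOn (K J) (unions J : Set (Finset α)) := fun A hA B hB h =>
    K_injOn (Finset.mem_coe.1 hA) (Finset.mem_coe.1 hB) h
  have hFc : ((unions J).image (K J)).card = (unions J).card := Finset.card_image_of_injOn hinj
  have hpair := pair_bound J P hP1 hP2 ((unions J).image (K J)) (by
    intro S hS
    obtain ⟨A, -, rfl⟩ := Finset.mem_image.1 hS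
    exact K_subset _ _) (by
    intro p hp
    obtain ⟨x, hx1, hx2⟩ := hP3 p hp
    have hxJ : x ∈ J.sup id := mem_sup_id.2 ⟨p.1, (hP1 p hp).1, hx1⟩
    have h1 := hhalf x hxJ
    have h2 := fr_add_nfr (unions J) x
    have h3 : nfr (unions J) x
        ≤ (((unions J).image (K J)).filter fun S => p.1 ∉ S ∧ p.2 ∉ S).card := by
      unfold nfr
      apply Finset.card_le_card_of_injOn (K J)
      · intro A hA
        rw [Finset.mem_coe, Finset.mem_filter] at hA
        rw [Finset.mem_coe, Finset.mem_filter]
        refine ⟨Finset.mem_image_of_mem _ hA.1, ?_, ?_⟩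
        · intro hc
          exact hA.2 ((mem_K.1 hc).2 hx1)
        · intro hc
          exact hA.2 ((mem_K.1 hc).2 hx2)
      · intro A hA B hB hAB
        rw [Finset.mem_coe, Finset.mem_filter] at hA hB
        exact K_injOn hA.1 hB.1 hAB
    rw [hFc]
    omega)
  rw [hFc] at hpair
  have hapos : 1 ≤ (unions J).card := Finset.card_pos.2 ⟨∅, empty_mem J⟩
  have hnum := numericL100 J.card J.card P.card (unions J).card hJ hapos hd hpair
  have hQc : (J \ V).card = J.card - 2 * P.card := by
    rw [Finset.card_sdiff_of_subset hVJ, hPc]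
  have hX := thmXL V (J \ V) Finset.disjoint_sdiff (by rw [hVQ]; exact hne)
    (by rw [hVQ]; exact fun G hG => hirr G (hVJ hG)) hPQ (by
      rw [hPc, hQc]
      omega)
  rw [hVQ] at hX
  rcases hX with ⟨G, hG, hiso⟩ | ⟨x, hx, hlt⟩
  · exact ⟨G, (Finset.mem_sdiff.1 hG).1, hiso⟩
  · have := hhalf x hx
    omega

/-- Some point is in at least half of the members, if `|A| ≥ 2 ^ (g - g / 100)`, where `g` is the
number of generators. -/
theorem part1L {A : Finset (Finset α)} (hA : UnionClosed A) (hne : ∃ T ∈ A, T.Nonempty)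
    (hd : (2 : ℝ) ^ (((gens A).card : ℝ) - (gens A).card / 100) ≤ A.card) :
    ∃ x ∈ A.sup id, A.card ≤ 2 * fr A x := by
  classical
  by_contra hcon
  push Not at hcon
  have hu := unions_gens hA
  have hcle : A.card ≤ (unions (gens A)).card := by
    rw [hu]
    exact Finset.card_le_card (Finset.subset_insert _ _)
  have hfr : ∀ x, fr (unions (gens A)) x = fr A x := by
    intro x
    rw [hu]
    exact fr_insert_empty A x
  have hsup : ∀ x ∈ (gens A).sup id, x ∈ A.sup id := by
    intro x hx
    obtain ⟨G, hG, hxG⟩ := mem_sup_id.1 hx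
    exact mem_sup_id.2 ⟨G, gens_subset A hG, hxG⟩
  have hJ : 1 ≤ (gens A).card := by
    by_contra hc
    have h0 : gens A = ∅ := by
      rw [← Finset.card_eq_zero]
      omega
    obtain ⟨T, hT, x, hx⟩ := hne
    have hTu : T ∈ unions (gens A) := by
      rw [hu]
      exact Finset.mem_insert_of_mem hT
    rw [h0] at hTu
    obtain ⟨G, hG, -⟩ := (mem_iff hTu x).1 hx
    simp at hG
  obtain ⟨G, hG, hiso⟩ := coreL (gens A) (fun G hG => gens_nonempty hG)
    (fun G hG => gens_irr A hG) hJ (by
      intro x hx
      rw [hfr]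
      have := hcon x (hsup x hx)
      omega) (hd.trans (by exact_mod_cast hcle))
  obtain ⟨x, hx⟩ := gens_nonempty hG
  have h1 := half_of_isolated (gens A) hG hiso hx
  have h2 := fr_add_nfr (unions (gens A)) x
  have h3 := hcon x (mem_sup_id.2 ⟨G, gens_subset A hG, hx⟩)
  have h4 := hfr x
  omega

/-- Some point is in more than half of the members, if some generators meet and
`|A| ≥ 2 ^ (g - h / 100)`, where `g` is the number of generators and `h` is the number of
generators that meet another generator. -/
theorem part2L {A : Finset (Finset α)} (hA : UnionClosed A) (hm : (meet A).Nonempty)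
    (hd : (2 : ℝ) ^ (((gens A).card : ℝ) - (meet A).card / 100) ≤ A.card) :
    ∃ x ∈ A.sup id, A.card < 2 * fr A x := by
  classical
  by_contra hcon
  push Not at hcon
  have hu := unions_gens hA
  have hcle : A.card ≤ (unions (gens A)).card := by
    rw [hu]
    exact Finset.card_le_card (Finset.subset_insert _ _)
  have hfr : ∀ x, fr (unions (gens A)) x = fr A x := by
    intro x
    rw [hu]
    exact fr_insert_empty A x
  have hmsub : meet A ⊆ gens A := Finset.filter_subset _ _
  have hsd : gens A \ (gens A \ meet A) = meet A := by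
    rw [Finset.sdiff_sdiff_eq_self hmsub]
  have hout : ∀ G ∈ gens A \ meet A, ∀ G' ∈ gens A, G' ≠ G → Disjoint G' G := by
    intro G hG G' hG' hne
    rw [Finset.mem_sdiff] at hG
    by_contra hnd
    exact hG.2 (Finset.mem_filter.2 ⟨hG.1, G', hG', hne, hnd⟩)
  obtain ⟨h1, h2⟩ := remove_isolated (gens A \ meet A) (gens A) Finset.sdiff_subset
    (fun G hG => ⟨gens_nonempty (Finset.mem_sdiff.1 hG).1, hout G hG⟩)
  rw [hsd] at h1 h2
  have hrc : (gens A \ meet A).card = (gens A).card - (meet A).card :=
    Finset.card_sdiff_of_subset hmsub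
  have hmle : (meet A).card ≤ (gens A).card := Finset.card_le_card hmsub
  set r : ℕ := (gens A \ meet A).card with hr
  have hpow : 0 < 2 ^ r := by positivity
  obtain ⟨G, hG, hiso⟩ := coreL (meet A) (fun G hG => gens_nonempty (hmsub hG))
    (fun G hG h => gens_irr A (hmsub hG)
      (unions_mono (Finset.erase_subset_erase _ hmsub) h)) (Finset.card_pos.2 hm) (by
      intro x hx
      obtain ⟨G0, hG0, hxG0⟩ := mem_sup_id.1 hx
      have h3 : ∀ G ∈ gens A \ meet A, x ∉ G := by
        intro G hG hxG
        have hne : G0 ≠ G := by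
          rintro rfl
          exact (Finset.mem_sdiff.1 hG).2 hG0
        exact Finset.disjoint_left.1 (hout G hG G0 (hmsub hG0) hne) hxG0 hxG
      have h4 := h2 x h3
      have h5 := hcon x (mem_sup_id.2 ⟨G0, gens_subset A (hmsub hG0), hxG0⟩)
      rw [← hfr x, h4] at h5
      have h6 : 2 ^ r * (2 * fr (unions (meet A)) x) ≤ 2 ^ r * (unions (meet A)).card := by
        calc 2 ^ r * (2 * fr (unions (meet A)) x) = 2 * (2 ^ r * fr (unions (meet A)) x) := by ring
          _ ≤ A.card := h5
          _ ≤ (unions (gens A)).card := hcle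
          _ = 2 ^ r * (unions (meet A)).card := h1
      exact Nat.le_of_mul_le_mul_left h6 hpow) (by
      have h7 : (2 : ℝ) ^ (((gens A).card : ℝ) - (meet A).card / 100)
          ≤ (2 : ℝ) ^ (r : ℝ) * ((unions (meet A)).card : ℝ) := by
        refine hd.trans ?_
        have h8 : (A.card : ℝ) ≤ ((unions (gens A)).card : ℝ) := by exact_mod_cast hcle
        rw [h1] at h8
        push_cast at h8
        rw [Real.rpow_natCast]
        exact h8
      have h9 : (2 : ℝ) ^ (((gens A).card : ℝ) - (meet A).card / 100)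
          = (2 : ℝ) ^ (r : ℝ) * (2 : ℝ) ^ (((meet A).card : ℝ) - (meet A).card / 100) := by
        rw [← Real.rpow_add (by norm_num)]
        congr 1
        have h10 : (r : ℝ) = ((gens A).card : ℝ) - ((meet A).card : ℝ) := by
          rw [hrc, Nat.cast_sub hmle]
        rw [h10]
        ring
      rw [h9] at h7
      exact le_of_mul_le_mul_left h7 (by positivity))
  obtain ⟨hG1, G', hG', hne, hnd⟩ := Finset.mem_filter.1 hG
  have hG'm : G' ∈ meet A :=
    Finset.mem_filter.2 ⟨hG', G, hG1, hne.symm, fun h => hnd h.symm⟩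
  exact hnd (hiso G' hG'm hne)

end Pool.Agent.H97.GEN
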