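import Mathlib

/-!
# Gibbs bound for families on a vertex set covered by double stars

Blocks: an edge `{a, b}` with at most five further leaves at `a` and at most five at `b`.  If every edge
has both ends absent in at least half of the family, the family has fewer than `2 ^ (14/15 |J|)`
members.
-/

set_option autoImplicit false

namespace Pool.Agent.H97.GEN

open Finset

section block

variable {ι β : Type*} [DecidableEq ι] [DecidableEq β]

lemma block_sum_le (C : Finset β) (B : β → Finset ι) (F : Finset (Finset ι))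
    (hF : ∀ S ∈ F, S ⊆ C.biUnion B) (w : β → Finset ι → ℝ) (hw : ∀ b s, 0 ≤ w b s) :
    ∑ S ∈ F, ∏ b ∈ C, w b (S ∩ B b) ≤ ∏ b ∈ C, ∑ s ∈ (B b).powerset, w b s := by
  classical
  rw [Finset.prod_sum]
  set Θ : Finset ι → (∀ b ∈ C, Finset ι) := fun S b _ => S ∩ B b with hΘ
  have hinj : ∀ S ∈ F, ∀ T ∈ F, Θ S = Θ T → S = T := by
    intro S hS T hT h
    have key : ∀ x, ∀ b ∈ C, x ∈ B b → (x ∈ S ↔ x ∈ T) := by
      intro x b hb hx
      have h1 : S ∩ B b = T ∩ B b := congrFun (congrFun h b) hb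
      constructor
      · intro hxS
        have : x ∈ S ∩ B b := Finset.mem_inter.2 ⟨hxS, hx⟩
        rw [h1] at this
        exact (Finset.mem_inter.1 this).1
      · intro hxT
        have : x ∈ T ∩ B b := Finset.mem_inter.2 ⟨hxT, hx⟩
        rw [← h1] at this
        exact (Finset.mem_inter.1 this).1
    ext x
    constructor
    · intro hx
      obtain ⟨b, hb, hxb⟩ := Finset.mem_biUnion.1 (hF S hS hx)
      exact (key x b hb hxb).1 hx
    · intro hx
      obtain ⟨b, hb, hxb⟩ := Finset.mem_biUnion.1 (hF T hT hx)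
      exact (key x b hb hxb).2 hx
  calc ∑ S ∈ F, ∏ b ∈ C, w b (S ∩ B b)
      = ∑ S ∈ F, ∏ x ∈ C.attach, w x.1 (Θ S x.1 x.2) := by
        apply Finset.sum_congr rfl
        intro S _
        exact (Finset.prod_attach C (fun b => w b (S ∩ B b))).symm
    _ = ∑ p ∈ F.image Θ, ∏ x ∈ C.attach, w x.1 (p x.1 x.2) := by
        rw [Finset.sum_image]
        intro S hS T hT h
        exact hinj S (Finset.mem_coe.1 hS) T (Finset.mem_coe.1 hT) h
    _ ≤ _ := by
        apply Finset.sum_le_sum_of_subset_of_nonneg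
        · intro p hp
          obtain ⟨S, _, rfl⟩ := Finset.mem_image.1 hp
          rw [Finset.mem_pi]
          intro b hb
          exact Finset.mem_powerset.2 Finset.inter_subset_right
        · intro p _ _
          exact Finset.prod_nonneg fun x _ => hw _ _

lemma gibbs_log {κ : Type*} (F : Finset κ) (hne : F.Nonempty) (w : κ → ℝ) (hw : ∀ S ∈ F, 0 < w S)
    (Z : ℝ) (hZ : ∑ S ∈ F, w S ≤ Z) :
    (F.card : ℝ) * Real.log F.card + ∑ S ∈ F, Real.log (w S) ≤ F.card * Real.log Z := by
  have hN : (0 : ℝ) < F.card := by exact_mod_cast Finset.card_pos.2 hne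
  have hZpos : 0 < Z := lt_of_lt_of_le (Finset.sum_pos hw hne) hZ
  have hG : ∑ S ∈ F, Real.log (F.card * w S / Z) ≤ 0 := by
    calc ∑ S ∈ F, Real.log (F.card * w S / Z) ≤ ∑ S ∈ F, (F.card * w S / Z - 1) := by
          apply Finset.sum_le_sum
          intro S hS
          exact Real.log_le_sub_one_of_pos (div_pos (mul_pos hN (hw S hS)) hZpos)
      _ = F.card * (∑ S ∈ F, w S) / Z - F.card := by
          rw [Finset.sum_sub_distrib, Finset.sum_const, nsmul_eq_mul, mul_one,
            ← Finset.sum_div, ← Finset.mul_sum]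
      _ ≤ F.card * Z / Z - F.card := by
          have := mul_le_mul_of_nonneg_left hZ hN.le
          have := div_le_div_of_nonneg_right this hZpos.le
          linarith
      _ = 0 := by field_simp; ring
  have hs : ∑ S ∈ F, Real.log (F.card * w S / Z)
      = (F.card : ℝ) * (Real.log F.card - Real.log Z) + ∑ S ∈ F, Real.log (w S) := by
    have : ∀ S ∈ F, Real.log (F.card * w S / Z)
        = (Real.log F.card - Real.log Z) + Real.log (w S) := by
      intro S hS
      rw [Real.log_div (mul_pos hN (hw S hS)).ne' hZpos.ne', Real.log_mul hN.ne' (hw S hS).ne']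
      ring
    rw [Finset.sum_congr rfl this, Finset.sum_add_distrib, Finset.sum_const, nsmul_eq_mul]
  rw [hs] at hG
  linarith

/-- Independent factors. -/
lemma sum_prod_absent (X : Finset ι) (u : ι → ℝ) :
    ∑ S ∈ X.powerset, ∏ j ∈ X, (if j ∉ S then u j else 1) = ∏ j ∈ X, (1 + u j) := by
  rw [Finset.prod_add]
  apply Finset.sum_congr rfl
  intro S hS
  have hSX := Finset.mem_powerset.1 hS
  rw [Finset.prod_const_one, one_mul, ← Finset.prod_filter]
  congr 1
  ext j
  simp

end block

section star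

variable {ι : Type*} [DecidableEq ι]

/-- The weight `ρ = 19/12` for every edge with both ends absent. -/
noncomputable def ew (a j : ι) (S : Finset ι) : ℝ := if a ∉ S ∧ j ∉ S then 19 / 12 else 1

lemma ew_pos (a j : ι) (S : Finset ι) : 0 < ew a j S := by
  unfold ew
  split_ifs <;> norm_num

/-- The weight of the double star. -/
noncomputable def dw (a b : ι) (X Y : Finset ι) (S : Finset ι) : ℝ :=
  ew a b S * ((∏ j ∈ X, ew a j S) * ∏ j ∈ Y, ew b j S)

lemma dw_pos (a b : ι) (X Y : Finset ι) (S : Finset ι) : 0 < dw a b X Y S := by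
  unfold dw
  exact mul_pos (ew_pos _ _ _) (mul_pos (Finset.prod_pos fun _ _ => ew_pos _ _ _)
    (Finset.prod_pos fun _ _ => ew_pos _ _ _))

lemma dw_sum (a b : ι) (X Y : Finset ι) (hab : a ≠ b) (haX : a ∉ X) (haY : a ∉ Y) (hbX : b ∉ X)
    (hbY : b ∉ Y) (hXY : Disjoint X Y) :
    ∑ S ∈ (insert a (insert b (X ∪ Y))).powerset, dw a b X Y S
      = 19 / 12 * ((31 / 12) ^ X.card * (31 / 12) ^ Y.card) + 2 ^ X.card * (31 / 12) ^ Y.card
        + (31 / 12) ^ X.card * 2 ^ Y.card + 2 ^ X.card * 2 ^ Y.card := by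
  have hbXY : b ∉ X ∪ Y := by
    rw [Finset.mem_union]
    exact fun h => h.elim hbX hbY
  have haXY : a ∉ insert b (X ∪ Y) := by
    rw [Finset.mem_insert, Finset.mem_union]
    rintro (h | h | h)
    · exact hab h
    · exact haX h
    · exact haY h
  have haXY' : a ∉ X ∪ Y := fun h => haXY (Finset.mem_insert_of_mem h)
  -- a general evaluation
  have gen : ∀ u v : ℝ, ∑ S ∈ (X ∪ Y).powerset,
      (∏ j ∈ X, (if j ∉ S then u else 1)) * ∏ j ∈ Y, (if j ∉ S then v else 1)
        = (1 + u) ^ X.card * (1 + v) ^ Y.card := by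
    intro u v
    have h := sum_prod_absent (X ∪ Y) (fun j => if j ∈ X then u else v)
    rw [Finset.prod_union hXY] at h
    have e1 : ∏ j ∈ X, (1 + if j ∈ X then u else v) = (1 + u) ^ X.card := by
      rw [Finset.prod_congr rfl (fun j hj => by rw [if_pos hj]), Finset.prod_const]
    have e2 : ∏ j ∈ Y, (1 + if j ∈ X then u else v) = (1 + v) ^ Y.card := by
      rw [Finset.prod_congr rfl (fun j hj => by
        rw [if_neg (fun hx => Finset.disjoint_left.1 hXY hx hj)]), Finset.prod_const]
    rw [e1, e2] at h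
    rw [← h]
    apply Finset.sum_congr rfl
    intro S _
    rw [Finset.prod_union hXY]
    congr 1
    · apply Finset.prod_congr rfl
      intro j hj
      rw [if_pos hj]
    · apply Finset.prod_congr rfl
      intro j hj
      rw [if_neg (fun hx => Finset.disjoint_left.1 hXY hx hj)]
  rw [Finset.sum_powerset_insert haXY, Finset.sum_powerset_insert hbXY,
    Finset.sum_powerset_insert hbXY]
  have e00 : ∑ S ∈ (X ∪ Y).powerset, dw a b X Y S
      = 19 / 12 * ((31 / 12) ^ X.card * (31 / 12) ^ Y.card) := by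
    have h := gen (19 / 12) (19 / 12)
    rw [show (1 + 19 / 12 : ℝ) = 31 / 12 by norm_num] at h
    rw [← h, Finset.mul_sum]
    apply Finset.sum_congr rfl
    intro S hS
    have hSX := Finset.mem_powerset.1 hS
    have ha : a ∉ S := fun h => haXY' (hSX h)
    have hb : b ∉ S := fun h => hbXY (hSX h)
    simp [dw, ew, ha, hb]
  have e01 : ∑ S ∈ (X ∪ Y).powerset, dw a b X Y (insert b S)
      = (31 / 12) ^ X.card * 2 ^ Y.card := by
    have h := gen (19 / 12) 1
    rw [show (1 + 19 / 12 : ℝ) = 31 / 12 by norm_num, show (1 + 1 : ℝ) = 2 by norm_num] at h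
    rw [← h]
    apply Finset.sum_congr rfl
    intro S hS
    have hSX := Finset.mem_powerset.1 hS
    have ha : a ∉ S := fun h => haXY' (hSX h)
    have hX : ∏ j ∈ X, ew a j (insert b S) = ∏ j ∈ X, (if j ∉ S then (19 / 12 : ℝ) else 1) := by
      apply Finset.prod_congr rfl
      intro j hj
      have hjb : j ≠ b := fun h => hbX (h ▸ hj)
      simp [ew, ha, hab, hjb]
    have hY : ∏ j ∈ Y, ew b j (insert b S) = ∏ j ∈ Y, (if j ∉ S then (1 : ℝ) else 1) := by
      apply Finset.prod_congr rfl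
      intro j _
      simp [ew]
    have h0 : ew a b (insert b S) = 1 := by simp [ew]
    unfold dw
    rw [hX, hY, h0, one_mul]
  have e10 : ∑ S ∈ (X ∪ Y).powerset, dw a b X Y (insert a S)
      = 2 ^ X.card * (31 / 12) ^ Y.card := by
    have h := gen 1 (19 / 12)
    rw [show (1 + 19 / 12 : ℝ) = 31 / 12 by norm_num, show (1 + 1 : ℝ) = 2 by norm_num] at h
    rw [← h]
    apply Finset.sum_congr rfl
    intro S hS
    have hSX := Finset.mem_powerset.1 hS
    have hb : b ∉ S := fun h => hbXY (hSX h)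
    have hX : ∏ j ∈ X, ew a j (insert a S) = ∏ j ∈ X, (if j ∉ S then (1 : ℝ) else 1) := by
      apply Finset.prod_congr rfl
      intro j _
      simp [ew]
    have hY : ∏ j ∈ Y, ew b j (insert a S) = ∏ j ∈ Y, (if j ∉ S then (19 / 12 : ℝ) else 1) := by
      apply Finset.prod_congr rfl
      intro j hj
      have hja : j ≠ a := fun h => haY (h ▸ hj)
      simp [ew, hb, hab.symm, hja]
    have h0 : ew a b (insert a S) = 1 := by simp [ew]
    unfold dw
    rw [hX, hY, h0, one_mul]
  have e11 : ∑ S ∈ (X ∪ Y).powerset, dw a b X Y (insert a (insert b S))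
      = 2 ^ X.card * 2 ^ Y.card := by
    have h := gen 1 1
    rw [show (1 + 1 : ℝ) = 2 by norm_num] at h
    rw [← h]
    apply Finset.sum_congr rfl
    intro S _
    have hX : ∏ j ∈ X, ew a j (insert a (insert b S)) = ∏ j ∈ X, (if j ∉ S then (1 : ℝ) else 1) := by
      apply Finset.prod_congr rfl
      intro j _
      simp [ew]
    have hY : ∏ j ∈ Y, ew b j (insert a (insert b S)) = ∏ j ∈ Y, (if j ∉ S then (1 : ℝ) else 1) := by
      apply Finset.prod_congr rfl
      intro j _
      simp [ew]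
    have h0 : ew a b (insert a (insert b S)) = 1 := by simp [ew]
    unfold dw
    rw [hX, hY, h0, one_mul]
  rw [e00, e01, e10, e11]
  ring

lemma num_nat (s t : ℕ) (hs : s ≤ 5) (ht : t ≤ 5) :
    (19 * 31 ^ (s + t) + 12 * (24 ^ s * 31 ^ t + 31 ^ s * 24 ^ t + 24 ^ (s + t))) ^ 30
      < (2 ^ 28) ^ (s + t + 2) * (228 ^ 15) ^ (s + t + 1) := by
  interval_cases s <;> interval_cases t <;> norm_num

lemma num_real (s t : ℕ) (hs : s ≤ 5) (ht : t ≤ 5) :
    30 * Real.log (19 / 12 * ((31 / 12) ^ s * (31 / 12) ^ t) + 2 ^ s * (31 / 12) ^ t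
        + (31 / 12) ^ s * 2 ^ t + 2 ^ s * 2 ^ t)
      < 28 * ((s : ℝ) + t + 2) * Real.log 2 + 15 * ((s : ℝ) + t + 1) * Real.log (19 / 12) := by
  have h1 := num_nat s t hs ht
  set z : ℝ := 19 / 12 * ((31 / 12) ^ s * (31 / 12) ^ t) + 2 ^ s * (31 / 12) ^ t
        + (31 / 12) ^ s * 2 ^ t + 2 ^ s * 2 ^ t with hz
  have hzpos : 0 < z := by positivity
  have hz5 : 12 ^ (s + t + 1) * z
      = 19 * 31 ^ (s + t) + 12 * (24 ^ s * 31 ^ t + 31 ^ s * 24 ^ t + 24 ^ (s + t)) := by
    have a1 : (31 : ℝ) ^ s = 12 ^ s * (31 / 12) ^ s := by rw [← mul_pow]; norm_num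
    have a2 : (31 : ℝ) ^ t = 12 ^ t * (31 / 12) ^ t := by rw [← mul_pow]; norm_num
    have a3 : (24 : ℝ) ^ s = 12 ^ s * 2 ^ s := by rw [← mul_pow]; norm_num
    have a4 : (24 : ℝ) ^ t = 12 ^ t * 2 ^ t := by rw [← mul_pow]; norm_num
    rw [hz, pow_add (31 : ℝ), pow_add (24 : ℝ), a1, a2, a3, a4, pow_succ, pow_add]
    ring
  have h2 : (12 ^ (s + t + 1) * z) ^ 30 < (2 ^ 28) ^ (s + t + 2) * (228 ^ 15) ^ (s + t + 1) := by
    rw [hz5]
    exact_mod_cast h1
  have h3 := Real.log_lt_log (by positivity) h2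
  rw [Real.log_pow, Real.log_mul (by positivity) hzpos.ne', Real.log_mul (by positivity)
    (by positivity), Real.log_pow, Real.log_pow, Real.log_pow, Real.log_pow, Real.log_pow] at h3
  have h228 : Real.log 228 = 2 * Real.log 12 + Real.log (19 / 12) := by
    rw [show (228 : ℝ) = 12 ^ 2 * (19 / 12) by norm_num, Real.log_mul (by norm_num) (by norm_num),
      Real.log_pow]
    norm_num
  rw [h228] at h3
  push_cast at h3
  linarith only [h3]

end star

end Pool.Agent.H97.GEN
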