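import Pool.Agent.H97.GEN.Star

/-!
# Gibbs bound for double stars, and the Hall step
-/

set_option autoImplicit false

namespace Pool.Agent.H97.GEN

open Finset

section

variable {ι : Type*} [DecidableEq ι]

lemma ew_inter (a j : ι) (S B : Finset ι) (ha : a ∈ B) (hj : j ∈ B) : ew a j (S ∩ B) = ew a j S := by
  unfold ew
  simp [ha, hj]

lemma log_ew_sum (a j : ι) (F : Finset (Finset ι))
    (h : F.card ≤ 2 * (F.filter fun S => a ∉ S ∧ j ∉ S).card) :
    (F.card : ℝ) / 2 * Real.log (19 / 12) ≤ ∑ S ∈ F, Real.log (ew a j S) := by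
  have h1 : ∑ S ∈ F, Real.log (ew a j S)
      = ((F.filter fun S => a ∉ S ∧ j ∉ S).card : ℝ) * Real.log (19 / 12) := by
    have : ∀ S ∈ F, Real.log (ew a j S)
        = if a ∉ S ∧ j ∉ S then Real.log (19 / 12) else 0 := by
      intro S _
      unfold ew
      split_ifs <;> simp
    rw [Finset.sum_congr rfl this, ← Finset.sum_filter, Finset.sum_const, nsmul_eq_mul]
  rw [h1]
  have hl : 0 ≤ Real.log (19 / 12) := Real.log_nonneg (by norm_num)
  apply mul_le_mul_of_nonneg_right _ hl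
  have h2 : (F.card : ℝ) ≤ 2 * ((F.filter fun S => a ∉ S ∧ j ∉ S).card : ℝ) := by exact_mod_cast h
  linarith

theorem star_bound (J : Finset ι) (P : Finset (ι × ι))
    (hP1 : ∀ p ∈ P, p.1 ∈ J ∧ p.2 ∈ J ∧ p.1 ≠ p.2)
    (hP2 : ∀ p ∈ P, ∀ q ∈ P, p ≠ q → p.1 ≠ q.1 ∧ p.1 ≠ q.2 ∧ p.2 ≠ q.1 ∧ p.2 ≠ q.2)
    (U : Finset ι) (hU : U = J \ (P.image Prod.fst ∪ P.image Prod.snd))
    (φ : ι → ι) (hφ : ∀ j ∈ U, φ j ∈ P.image Prod.fst ∪ P.image Prod.snd)
    (hc : ∀ a, (U.filter fun j => φ j = a).card ≤ 5)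
    (F : Finset (Finset ι)) (hF : ∀ S ∈ F, S ⊆ J)
    (hhalf : ∀ p ∈ P, F.card ≤ 2 * (F.filter fun S => p.1 ∉ S ∧ p.2 ∉ S).card)
    (hhU : ∀ j ∈ U, F.card ≤ 2 * (F.filter fun S => φ j ∉ S ∧ j ∉ S).card)
    (hne : P.Nonempty) : F.card ^ 15 < 2 ^ (14 * J.card) := by
  classical
  rcases F.eq_empty_or_nonempty with rfl | hFne
  · simp
  have hN : (0 : ℝ) < F.card := by exact_mod_cast Finset.card_pos.2 hFne
  set V : Finset ι := P.image Prod.fst ∪ P.image Prod.snd with hV
  have hV1 : ∀ p ∈ P, p.1 ∈ V := fun p hp =>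
    Finset.mem_union_left _ (Finset.mem_image_of_mem _ hp)
  have hV2 : ∀ p ∈ P, p.2 ∈ V := fun p hp =>
    Finset.mem_union_right _ (Finset.mem_image_of_mem _ hp)
  have hUV : ∀ j ∈ U, j ∉ V := fun j hj => by
    rw [hU, Finset.mem_sdiff] at hj
    exact hj.2
  have hUJ : U ⊆ J := by rw [hU]; exact Finset.sdiff_subset
  set Lf : ι → Finset ι := fun a => U.filter fun j => φ j = a with hLf
  have hLfU : ∀ a, Lf a ⊆ U := fun a => Finset.filter_subset _ _
  set B : ι × ι → Finset ι := fun p => insert p.1 (insert p.2 (Lf p.1 ∪ Lf p.2)) with hB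
  have hLdis : ∀ a b, a ≠ b → Disjoint (Lf a) (Lf b) := by
    intro a b hab
    rw [Finset.disjoint_left]
    intro j h1 h2
    rw [hLf, Finset.mem_filter] at h1 h2
    exact hab (h1.2.symm.trans h2.2)
  have hVL : ∀ a ∈ V, ∀ b, a ∉ Lf b := fun a ha b h => hUV a (hLfU b h) ha
  have hBcard : ∀ p ∈ P, (B p).card = (Lf p.1).card + (Lf p.2).card + 2 := by
    intro p hp
    have h1 : p.2 ∉ Lf p.1 ∪ Lf p.2 := by
      rw [Finset.mem_union]
      exact fun h => h.elim (hVL _ (hV2 p hp) _) (hVL _ (hV2 p hp) _)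
    have h2 : p.1 ∉ insert p.2 (Lf p.1 ∪ Lf p.2) := by
      rw [Finset.mem_insert, Finset.mem_union]
      rintro (h | h | h)
      · exact (hP1 p hp).2.2 h
      · exact hVL _ (hV1 p hp) _ h
      · exact hVL _ (hV1 p hp) _ h
    rw [hB]
    simp only
    rw [Finset.card_insert_of_notMem h2, Finset.card_insert_of_notMem h1,
      Finset.card_union_of_disjoint (hLdis _ _ (hP1 p hp).2.2)]
  have hBJ : ∀ p ∈ P, B p ⊆ J := by
    intro p hp
    rw [hB]
    simp only
    apply Finset.insert_subset (hP1 p hp).1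
    apply Finset.insert_subset (hP1 p hp).2.1
    exact Finset.union_subset ((hLfU _).trans hUJ) ((hLfU _).trans hUJ)
  have hmemB : ∀ p : ι × ι, ∀ x, x ∈ B p ↔ x = p.1 ∨ x = p.2 ∨ (x ∈ Lf p.1 ∨ x ∈ Lf p.2) := by
    intro p x
    rw [hB]
    simp only [Finset.mem_insert, Finset.mem_union]
  have hBdis : ∀ p ∈ P, ∀ q ∈ P, p ≠ q → Disjoint (B p) (B q) := by
    intro p hp q hq hpq
    obtain ⟨h11, h12, h21, h22⟩ := hP2 p hp q hq hpq
    rw [Finset.disjoint_left]
    intro x hx hx'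
    rw [hmemB] at hx hx'
    have d11 := Finset.disjoint_left.1 (hLdis _ _ h11)
    have d12 := Finset.disjoint_left.1 (hLdis _ _ h12)
    have d21 := Finset.disjoint_left.1 (hLdis _ _ h21)
    have d22 := Finset.disjoint_left.1 (hLdis _ _ h22)
    have v1 := hVL _ (hV1 p hp)
    have v2 := hVL _ (hV2 p hp)
    have w1 := hVL _ (hV1 q hq)
    have w2 := hVL _ (hV2 q hq)
    rcases hx with rfl | rfl | h | h
    · rcases hx' with h' | h' | h' | h'
      · exact h11 h'
      · exact h12 h'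
      · exact v1 _ h'
      · exact v1 _ h'
    · rcases hx' with h' | h' | h' | h'
      · exact h21 h'
      · exact h22 h'
      · exact v2 _ h'
      · exact v2 _ h'
    · rcases hx' with rfl | rfl | h' | h'
      · exact w1 _ h
      · exact w2 _ h
      · exact d11 h h'
      · exact d12 h h'
    · rcases hx' with rfl | rfl | h' | h'
      · exact w1 _ h
      · exact w2 _ h
      · exact d21 h h'
      · exact d22 h h'
  have hJB : J ⊆ P.biUnion B := by
    intro x hx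
    rw [Finset.mem_biUnion]
    by_cases hxV : x ∈ V
    · rcases Finset.mem_union.1 hxV with h | h
      · obtain ⟨p, hp, rfl⟩ := Finset.mem_image.1 h
        exact ⟨p, hp, (hmemB _ _).2 (Or.inl rfl)⟩
      · obtain ⟨p, hp, rfl⟩ := Finset.mem_image.1 h
        exact ⟨p, hp, (hmemB _ _).2 (Or.inr (Or.inl rfl))⟩
    · have hxU : x ∈ U := by
        rw [hU, Finset.mem_sdiff]
        exact ⟨hx, hxV⟩
      have hxL : x ∈ Lf (φ x) := Finset.mem_filter.2 ⟨hxU, rfl⟩
      rcases Finset.mem_union.1 (hφ x hxU) with h | h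
      · obtain ⟨p, hp, hpx⟩ := Finset.mem_image.1 h
        refine ⟨p, hp, (hmemB _ _).2 (Or.inr (Or.inr (Or.inl ?_)))⟩
        rw [hpx]
        exact hxL
      · obtain ⟨p, hp, hpx⟩ := Finset.mem_image.1 h
        refine ⟨p, hp, (hmemB _ _).2 (Or.inr (Or.inr (Or.inr ?_)))⟩
        rw [hpx]
        exact hxL
  have hJcard : ∑ p ∈ P, ((Lf p.1).card + (Lf p.2).card + 2) ≤ J.card := by
    rw [← Finset.sum_congr rfl hBcard, ← Finset.card_biUnion (fun p hp q hq h => hBdis p hp q hq h)]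
    exact Finset.card_le_card (Finset.biUnion_subset.2 hBJ)
  -- the weights
  set w : ι × ι → Finset ι → ℝ := fun p S => dw p.1 p.2 (Lf p.1) (Lf p.2) S with hw
  have hwpos : ∀ p S, 0 < w p S := fun p S => dw_pos _ _ _ _ _
  have hwB : ∀ p ∈ P, ∀ S, w p (S ∩ B p) = w p S := by
    intro p hp S
    have h1 : p.1 ∈ B p := (hmemB _ _).2 (Or.inl rfl)
    have h2 : p.2 ∈ B p := (hmemB _ _).2 (Or.inr (Or.inl rfl))
    simp only [hw, dw]
    rw [ew_inter _ _ _ _ h1 h2]
    congr 1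
    congr 1
    · apply Finset.prod_congr rfl
      intro j hj
      exact ew_inter _ _ _ _ h1 ((hmemB _ _).2 (Or.inr (Or.inr (Or.inl hj))))
    · apply Finset.prod_congr rfl
      intro j hj
      exact ew_inter _ _ _ _ h2 ((hmemB _ _).2 (Or.inr (Or.inr (Or.inr hj))))
  set Z : ι × ι → ℝ := fun p => 19 / 12 * ((31 / 12) ^ (Lf p.1).card * (31 / 12) ^ (Lf p.2).card)
    + 2 ^ (Lf p.1).card * (31 / 12) ^ (Lf p.2).card
    + (31 / 12) ^ (Lf p.1).card * 2 ^ (Lf p.2).card
    + 2 ^ (Lf p.1).card * 2 ^ (Lf p.2).card with hZ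
  have hZpos : ∀ p, 0 < Z p := fun p => by
    simp only [hZ]
    positivity
  have hsum : ∑ S ∈ F, ∏ p ∈ P, w p S ≤ ∏ p ∈ P, Z p := by
    have h1 := block_sum_le P B F (fun S hS => (hF S hS).trans hJB) w (fun p S => (hwpos p S).le)
    have h2 : ∑ S ∈ F, ∏ p ∈ P, w p (S ∩ B p) = ∑ S ∈ F, ∏ p ∈ P, w p S := by
      apply Finset.sum_congr rfl
      intro S _
      apply Finset.prod_congr rfl
      intro p hp
      exact hwB p hp S
    have h3 : ∏ p ∈ P, ∑ s ∈ (B p).powerset, w p s = ∏ p ∈ P, Z p := by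
      apply Finset.prod_congr rfl
      intro p hp
      exact dw_sum p.1 p.2 (Lf p.1) (Lf p.2) (hP1 p hp).2.2 (hVL _ (hV1 p hp) _)
        (hVL _ (hV1 p hp) _) (hVL _ (hV2 p hp) _) (hVL _ (hV2 p hp) _)
        (hLdis _ _ (hP1 p hp).2.2)
    rw [h2, h3] at h1
    exact h1
  have hG := gibbs_log F hFne (fun S => ∏ p ∈ P, w p S)
    (fun S _ => Finset.prod_pos fun p _ => hwpos p S) _ hsum
  have hlog1 : Real.log (∏ p ∈ P, Z p) = ∑ p ∈ P, Real.log (Z p) :=
    Real.log_prod (s := P) (fun p _ => (hZpos p).ne')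
  have hlog2 : ∑ S ∈ F, Real.log (∏ p ∈ P, w p S)
      = ∑ p ∈ P, ∑ S ∈ F, Real.log (w p S) := by
    rw [Finset.sum_comm]
    apply Finset.sum_congr rfl
    intro S _
    exact Real.log_prod (s := P) (fun p _ => (hwpos p S).ne')
  have hlow : ∀ p ∈ P, (F.card : ℝ) / 2 * Real.log (19 / 12)
      * ((Lf p.1).card + (Lf p.2).card + 1) ≤ ∑ S ∈ F, Real.log (w p S) := by
    intro p hp
    have h1 : ∀ S ∈ F, Real.log (w p S) = Real.log (ew p.1 p.2 S)
        + (∑ j ∈ Lf p.1, Real.log (ew p.1 j S) + ∑ j ∈ Lf p.2, Real.log (ew p.2 j S)) := by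
      intro S _
      simp only [hw, dw]
      rw [Real.log_mul (ew_pos _ _ _).ne' (mul_pos (Finset.prod_pos fun _ _ => ew_pos _ _ _)
        (Finset.prod_pos fun _ _ => ew_pos _ _ _)).ne',
        Real.log_mul (Finset.prod_pos fun _ _ => ew_pos _ _ _).ne'
        (Finset.prod_pos fun _ _ => ew_pos _ _ _).ne',
        Real.log_prod (s := Lf p.1) (fun _ _ => (ew_pos _ _ _).ne'),
        Real.log_prod (s := Lf p.2) (fun _ _ => (ew_pos _ _ _).ne')]
    rw [Finset.sum_congr rfl h1, Finset.sum_add_distrib, Finset.sum_add_distrib,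
      Finset.sum_comm (s := F) (t := Lf p.1), Finset.sum_comm (s := F) (t := Lf p.2)]
    have h2 := log_ew_sum p.1 p.2 F (hhalf p hp)
    have hleaf : ∀ a, ((Lf a).card : ℝ) * ((F.card : ℝ) / 2 * Real.log (19 / 12))
        ≤ ∑ j ∈ Lf a, ∑ S ∈ F, Real.log (ew a j S) := by
      intro a
      rw [← nsmul_eq_mul]
      apply Finset.card_nsmul_le_sum
      intro j hj
      rw [hLf, Finset.mem_filter] at hj
      have h := hhU j hj.1
      rw [hj.2] at h
      exact log_ew_sum a j F h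
    have h3 := hleaf p.1
    have h4 := hleaf p.2
    linarith
  have hlow2 : ∑ p ∈ P, (F.card : ℝ) / 2 * Real.log (19 / 12)
      * ((Lf p.1).card + (Lf p.2).card + 1) ≤ ∑ p ∈ P, ∑ S ∈ F, Real.log (w p S) :=
    Finset.sum_le_sum hlow
  rw [hlog1, hlog2] at hG
  have hmain : Real.log F.card + ∑ p ∈ P, 1 / 2 * Real.log (19 / 12)
      * ((Lf p.1).card + (Lf p.2).card + 1) ≤ ∑ p ∈ P, Real.log (Z p) := by
    have h1 : (F.card : ℝ) * (Real.log F.card + ∑ p ∈ P, 1 / 2 * Real.log (19 / 12)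
      * ((Lf p.1).card + (Lf p.2).card + 1)) ≤ F.card * ∑ p ∈ P, Real.log (Z p) := by
      refine le_trans ?_ hG
      rw [mul_add]
      refine add_le_add le_rfl (le_trans (le_of_eq ?_) hlow2)
      rw [Finset.mul_sum]
      apply Finset.sum_congr rfl
      intro p _
      ring
    exact le_of_mul_le_mul_left h1 hN
  have hstrict : ∑ p ∈ P, 30 * Real.log (Z p) < ∑ p ∈ P,
      (28 * (((Lf p.1).card : ℝ) + (Lf p.2).card + 2) * Real.log 2
        + 15 * (((Lf p.1).card : ℝ) + (Lf p.2).card + 1) * Real.log (19 / 12)) :=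
    Finset.sum_lt_sum_of_nonempty hne fun p _ => num_real _ _ (hc _) (hc _)
  have hfin : 30 * Real.log F.card < 28 * (J.card : ℝ) * Real.log 2 := by
    have h1 : (∑ p ∈ P, (((Lf p.1).card : ℝ) + (Lf p.2).card + 2)) ≤ J.card := by
      exact_mod_cast hJcard
    have h2 : 0 < Real.log 2 := Real.log_pos (by norm_num)
    have h3 := mul_le_mul_of_nonneg_right h1 (by positivity : (0 : ℝ) ≤ 28 * Real.log 2)
    rw [Finset.sum_add_distrib] at hstrict
    have e1 : ∑ p ∈ P, 28 * (((Lf p.1).card : ℝ) + (Lf p.2).card + 2) * Real.log 2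
        = (∑ p ∈ P, (((Lf p.1).card : ℝ) + (Lf p.2).card + 2)) * (28 * Real.log 2) := by
      rw [Finset.sum_mul]
      apply Finset.sum_congr rfl
      intro p _
      ring
    have e2 : ∑ p ∈ P, 15 * (((Lf p.1).card : ℝ) + (Lf p.2).card + 1) * Real.log (19 / 12)
        = 30 * ∑ p ∈ P, 1 / 2 * Real.log (19 / 12) * ((Lf p.1).card + (Lf p.2).card + 1) := by
      rw [Finset.mul_sum]
      apply Finset.sum_congr rfl
      intro p _
      ring
    rw [e1, e2, ← Finset.mul_sum] at hstrict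
    linarith
  have hlt : Real.log ((F.card : ℝ) ^ 15) < Real.log ((2 : ℝ) ^ (14 * J.card)) := by
    rw [Real.log_pow, Real.log_pow]
    push_cast
    linarith
  have hreal := (Real.log_lt_log_iff (by positivity) (by positivity)).1 hlt
  exact_mod_cast hreal

/-- Hall's theorem with capacity five. -/
theorem hall5 (V U : Finset ι) (r : ι → ι → Prop) [∀ a b, Decidable (r a b)]
    (h : ∀ M ⊆ U, M.card ≤ 5 * (V.filter fun w => ∃ q ∈ M, r w q).card) :
    ∃ φ : ι → ι, (∀ j ∈ U, φ j ∈ V ∧ r (φ j) j) ∧ ∀ a, (U.filter fun j => φ j = a).card ≤ 5 := by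
  classical
  set t : {j // j ∈ U} → Finset (ι × Fin 5) := fun j =>
    (V.filter fun w => r w j.1) ×ˢ Finset.univ with ht
  have hHall : ∀ s : Finset {j // j ∈ U}, s.card ≤ (s.biUnion t).card := by
    intro s
    have h1 := h (s.image Subtype.val) (by
      intro x hx
      obtain ⟨j, _, rfl⟩ := Finset.mem_image.1 hx
      exact j.2)
    rw [Finset.card_image_of_injective _ Subtype.val_injective] at h1
    refine h1.trans ?_
    have h2 : (V.filter fun w => ∃ q ∈ s.image Subtype.val, r w q) ×ˢ (Finset.univ : Finset (Fin 5))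
        ⊆ s.biUnion t := by
      intro x hx
      rw [Finset.mem_product, Finset.mem_filter] at hx
      obtain ⟨⟨hxV, q, hq, hr⟩, -⟩ := hx
      obtain ⟨j, hj, rfl⟩ := Finset.mem_image.1 hq
      rw [Finset.mem_biUnion]
      refine ⟨j, hj, ?_⟩
      rw [ht]
      simp only [Finset.mem_product, Finset.mem_filter, Finset.mem_univ, and_true]
      exact ⟨hxV, hr⟩
    have h3 := Finset.card_le_card h2
    rw [Finset.card_product, Finset.card_univ, Fintype.card_fin, mul_comm] at h3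
    exact h3
  obtain ⟨f, hf1, hf2⟩ := (Finset.all_card_le_biUnion_card_iff_exists_injective t).1 hHall
  refine ⟨fun j => if hj : j ∈ U then (f ⟨j, hj⟩).1 else j, ?_, ?_⟩
  · intro j hj
    have h1 := hf2 ⟨j, hj⟩
    rw [ht] at h1
    simp only [Finset.mem_product, Finset.mem_filter, Finset.mem_univ, and_true] at h1
    simp only [hj, dif_pos]
    exact h1
  · intro a
    have h1 : (U.filter fun j => (if hj : j ∈ U then (f ⟨j, hj⟩).1 else j) = a).card
        ≤ (Finset.univ : Finset (Fin 5)).card := by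
      apply Finset.card_le_card_of_injOn
        (fun j => if hj : j ∈ U then (f ⟨j, hj⟩).2 else 0)
      · intro j _
        exact Finset.mem_coe.2 (Finset.mem_univ _)
      · intro j hj k hk hjk
        rw [Finset.mem_coe, Finset.mem_filter] at hj hk
        obtain ⟨hjU, hja⟩ := hj
        obtain ⟨hkU, hka⟩ := hk
        simp only [hjU, hkU, dif_pos] at hja hka hjk
        have : f ⟨j, hjU⟩ = f ⟨k, hkU⟩ := Prod.ext (hja.trans hka.symm) hjk
        exact congrArg Subtype.val (hf1 this)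
    rwa [Finset.card_univ, Fintype.card_fin] at h1

end

end Pool.Agent.H97.GEN
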