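import Pool.Agent.H97.GEN.Star2
import Pool.Agent.H97.GEN.Gens
import Pool.Agent.H97.GEN.Deletion
import Pool.Agent.H97.GEN.LinX
import Pool.Agent.H97.GEN.Part2

/-!
# Frequent points when `|A| ≥ 2 ^ (14/15 g)`
-/

set_option autoImplicit false

namespace Pool.Agent.H97.GEN

open Finset

variable {α : Type*} [DecidableEq α]

/-- If no point is in more than half of the unions of `J`, and there are at least `2 ^ (14/15 |J|)`
unions, then some member of `J` is disjoint from all others. -/
theorem coreS (J : Finset (Finset α)) (hne : ∀ G ∈ J, G.Nonempty)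
    (hirr : ∀ G ∈ J, G ∉ unions (J.erase G)) (hJ : 1 ≤ J.card)
    (hhalf : ∀ x ∈ J.sup id, 2 * fr (unions J) x ≤ (unions J).card)
    (hd : (2 : ℝ) ^ ((J.card : ℝ) - J.card / 15) ≤ (unions J).card) :
    ∃ G ∈ J, ∀ G' ∈ J, G' ≠ G → Disjoint G' G := by
  classical
  by_contra hcon
  push Not at hcon
  obtain ⟨P, hP1, hP2, hP3, -, hPQ⟩ := matching J
  set V : Finset (Finset α) := P.image Prod.fst ∪ P.image Prod.snd with hV
  -- the Hall condition
  have hH : ∀ M ⊆ J \ V, M.card ≤ 5 * (V.filter fun w => ∃ q ∈ M, ¬ Disjoint w q).card := by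
    intro M hM
    by_contra hlt
    push Not at hlt
    have hMJ : M ⊆ J := hM.trans Finset.sdiff_subset
    have hJM : J \ M ∪ M = J := by
      rw [Finset.union_comm]
      exact Finset.union_sdiff_of_subset hMJ
    have hX := thmXL' (J \ M) M Finset.sdiff_disjoint (by rw [hJM]; exact hne)
      (by
        rw [hJM]
        intro G hG
        exact hirr G (Finset.mem_sdiff.1 hG).1)
      (fun G hG G' hG' hne' => hPQ G (hM hG) G' (hM hG') hne') (by
        refine lt_of_le_of_lt (Nat.mul_le_mul_left _ (Finset.card_le_card ?_)) hlt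
        intro w hw
        rw [Finset.mem_filter, Finset.mem_sdiff] at hw
        obtain ⟨⟨hwJ, hwM⟩, q, hq, hnd⟩ := hw
        rw [Finset.mem_filter]
        refine ⟨?_, q, hq, hnd⟩
        by_contra hwV
        have hne' : w ≠ q := fun h => hwM (h ▸ hq)
        exact hnd (hPQ q (hM hq) w (Finset.mem_sdiff.2 ⟨hwJ, hwV⟩) hne'))
    rw [hJM] at hX
    rcases hX with ⟨G, hG, hiso⟩ | ⟨x, hx, hlt'⟩
    · obtain ⟨G', hG', hne', hnd⟩ := hcon G (hMJ hG)
      exact hnd (hiso G' hG' hne')
    · have := hhalf x hx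
      omega
  obtain ⟨φ, hφ, hφc⟩ := hall5 V (J \ V) (fun w q => ¬ Disjoint w q) hH
  -- the traces
  have hinj : Set.InjOn (K J) (unions J : Set (Finset α)) := fun A hA B hB h =>
    K_injOn (Finset.mem_coe.1 hA) (Finset.mem_coe.1 hB) h
  have hFc : ((unions J).image (K J)).card = (unions J).card := Finset.card_image_of_injOn hinj
  have hedge : ∀ G ∈ J, ∀ G' : Finset α, ¬ Disjoint G' G → ((unions J).image (K J)).card
      ≤ 2 * (((unions J).image (K J)).filter fun S => G' ∉ S ∧ G ∉ S).card := by
    intro G hG G' hnd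
    obtain ⟨x, hx1, hx2⟩ := Finset.not_disjoint_iff.1 hnd
    have hxJ : x ∈ J.sup id := mem_sup_id.2 ⟨G, hG, hx2⟩
    have h1 := hhalf x hxJ
    have h2 := fr_add_nfr (unions J) x
    have h3 : nfr (unions J) x
        ≤ (((unions J).image (K J)).filter fun S => G' ∉ S ∧ G ∉ S).card := by
      unfold nfr
      apply Finset.card_le_card_of_injOn (K J)
      · intro A hA
        rw [Finset.mem_coe, Finset.mem_filter] at hA
        rw [Finset.mem_coe, Finset.mem_filter]
        refine ⟨Finset.mem_image_of_mem _ hA.1, ?_, ?_⟩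
        · intro hc
          exact hA.2 ((mem_K.1 hc).2 hx1)
        · intro hc
          exact hA.2 ((mem_K.1 hc).2 hx2)
      · intro A hA B hB hAB
        rw [Finset.mem_coe, Finset.mem_filter] at hA hB
        exact K_injOn hA.1 hB.1 hAB
    rw [hFc]
    omega
  have hPne : P.Nonempty := by
    rw [Finset.nonempty_iff_ne_empty]
    intro h0
    obtain ⟨G, hG⟩ := Finset.card_pos.1 hJ
    obtain ⟨G', hG', hne', hnd⟩ := hcon G hG
    have hV0 : V = ∅ := by
      rw [hV, h0]
      simp
    rw [hV0, Finset.sdiff_empty] at hPQ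
    exact hnd (hPQ G hG G' hG' hne')
  have hb := star_bound J P hP1 hP2 (J \ V) rfl φ (fun j hj => (hφ j hj).1) hφc
    ((unions J).image (K J)) (by
      intro S hS
      obtain ⟨A, -, rfl⟩ := Finset.mem_image.1 hS
      exact K_subset _ _) (by
      intro p hp
      obtain ⟨x, hx1, hx2⟩ := hP3 p hp
      exact hedge p.2 (hP1 p hp).2.1 p.1 (Finset.not_disjoint_iff.2 ⟨x, hx1, hx2⟩)) (by
      intro j hj
      exact hedge j (Finset.mem_sdiff.1 hj).1 (φ j) (hφ j hj).2) hPne
  rw [hFc] at hb
  have e1 : ((2 : ℝ) ^ ((J.card : ℝ) - J.card / 15)) ^ (15 : ℕ) ≤ ((unions J).card : ℝ) ^ 15 :=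
    pow_le_pow_left₀ (by positivity) hd 15
  have e2 : ((2 : ℝ) ^ ((J.card : ℝ) - J.card / 15)) ^ (15 : ℕ) = (2 : ℝ) ^ (14 * J.card) := by
    rw [← Real.rpow_natCast ((2 : ℝ) ^ ((J.card : ℝ) - J.card / 15)) 15,
      ← Real.rpow_mul (by norm_num), ← Real.rpow_natCast (2 : ℝ) (14 * J.card)]
    congr 1
    push_cast
    ring
  rw [e2] at e1
  have e3 : 2 ^ (14 * J.card) ≤ (unions J).card ^ 15 := by exact_mod_cast e1
  omega

/-- Some point is in at least half of the members, if `|A| ≥ 2 ^ (g - g / 15)`, where `g` is the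
number of generators. -/
theorem part1S {A : Finset (Finset α)} (hA : UnionClosed A) (hne : ∃ T ∈ A, T.Nonempty)
    (hd : (2 : ℝ) ^ (((gens A).card : ℝ) - (gens A).card / 15) ≤ A.card) :
    ∃ x ∈ A.sup id, A.card ≤ 2 * fr A x := by
  classical
  by_contra hcon
  push Not at hcon
  have hu := unions_gens hA
  have hcle : A.card ≤ (unions (gens A)).card := by
    rw [hu]
    exact Finset.card_le_card (Finset.subset_insert _ _)
  have hfr : ∀ x, fr (unions (gens A)) x = fr A x := by
    intro x
    rw [hu]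
    exact fr_insert_empty A x
  have hsup : ∀ x ∈ (gens A).sup id, x ∈ A.sup id := by
    intro x hx
    obtain ⟨G, hG, hxG⟩ := mem_sup_id.1 hx
    exact mem_sup_id.2 ⟨G, gens_subset A hG, hxG⟩
  have hJ : 1 ≤ (gens A).card := by
    by_contra hc
    have h0 : gens A = ∅ := by
      rw [← Finset.card_eq_zero]
      omega
    obtain ⟨T, hT, x, hx⟩ := hne
    have hTu : T ∈ unions (gens A) := by
      rw [hu]
      exact Finset.mem_insert_of_mem hT
    rw [h0] at hTu
    obtain ⟨G, hG, -⟩ := (mem_iff hTu x).1 hx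
    simp at hG
  obtain ⟨G, hG, hiso⟩ := coreS (gens A) (fun G hG => gens_nonempty hG)
    (fun G hG => gens_irr A hG) hJ (by
      intro x hx
      rw [hfr]
      have := hcon x (hsup x hx)
      omega) (hd.trans (by exact_mod_cast hcle))
  obtain ⟨x, hx⟩ := gens_nonempty hG
  have h1 := half_of_isolated (gens A) hG hiso hx
  have h2 := fr_add_nfr (unions (gens A)) x
  have h3 := hcon x (mem_sup_id.2 ⟨G, gens_subset A hG, hx⟩)
  have h4 := hfr x
  omega

/-- Some point is in more than half of the members, if some generators meet and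
`|A| ≥ 2 ^ (g - h / 15)`, where `g` is the number of generators and `h` is the number of
generators that meet another generator. -/
theorem part2S {A : Finset (Finset α)} (hA : UnionClosed A) (hm : (meet A).Nonempty)
    (hd : (2 : ℝ) ^ (((gens A).card : ℝ) - (meet A).card / 15) ≤ A.card) :
    ∃ x ∈ A.sup id, A.card < 2 * fr A x := by
  classical
  by_contra hcon
  push Not at hcon
  have hu := unions_gens hA
  have hcle : A.card ≤ (unions (gens A)).card := by
    rw [hu]
    exact Finset.card_le_card (Finset.subset_insert _ _)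
  have hfr : ∀ x, fr (unions (gens A)) x = fr A x := by
    intro x
    rw [hu]
    exact fr_insert_empty A x
  have hmsub : meet A ⊆ gens A := Finset.filter_subset _ _
  have hsd : gens A \ (gens A \ meet A) = meet A := by
    rw [Finset.sdiff_sdiff_eq_self hmsub]
  have hout : ∀ G ∈ gens A \ meet A, ∀ G' ∈ gens A, G' ≠ G → Disjoint G' G := by
    intro G hG G' hG' hne
    rw [Finset.mem_sdiff] at hG
    by_contra hnd
    exact hG.2 (Finset.mem_filter.2 ⟨hG.1, G', hG', hne, hnd⟩)
  obtain ⟨h1, h2⟩ := remove_isolated (gens A \ meet A) (gens A) Finset.sdiff_subset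
    (fun G hG => ⟨gens_nonempty (Finset.mem_sdiff.1 hG).1, hout G hG⟩)
  rw [hsd] at h1 h2
  have hrc : (gens A \ meet A).card = (gens A).card - (meet A).card :=
    Finset.card_sdiff_of_subset hmsub
  have hmle : (meet A).card ≤ (gens A).card := Finset.card_le_card hmsub
  set r : ℕ := (gens A \ meet A).card with hr
  have hpow : 0 < 2 ^ r := by positivity
  obtain ⟨G, hG, hiso⟩ := coreS (meet A) (fun G hG => gens_nonempty (hmsub hG))
    (fun G hG h => gens_irr A (hmsub hG)
      (unions_mono (Finset.erase_subset_erase _ hmsub) h)) (Finset.card_pos.2 hm) (by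
      intro x hx
      obtain ⟨G0, hG0, hxG0⟩ := mem_sup_id.1 hx
      have h3 : ∀ G ∈ gens A \ meet A, x ∉ G := by
        intro G hG hxG
        have hne : G0 ≠ G := by
          rintro rfl
          exact (Finset.mem_sdiff.1 hG).2 hG0
        exact Finset.disjoint_left.1 (hout G hG G0 (hmsub hG0) hne) hxG0 hxG
      have h4 := h2 x h3
      have h5 := hcon x (mem_sup_id.2 ⟨G0, gens_subset A (hmsub hG0), hxG0⟩)
      rw [← hfr x, h4] at h5
      have h6 : 2 ^ r * (2 * fr (unions (meet A)) x) ≤ 2 ^ r * (unions (meet A)).card := by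
        calc 2 ^ r * (2 * fr (unions (meet A)) x) = 2 * (2 ^ r * fr (unions (meet A)) x) := by ring
          _ ≤ A.card := h5
          _ ≤ (unions (gens A)).card := hcle
          _ = 2 ^ r * (unions (meet A)).card := h1
      exact Nat.le_of_mul_le_mul_left h6 hpow) (by
      have h7 : (2 : ℝ) ^ (((gens A).card : ℝ) - (meet A).card / 15)
          ≤ (2 : ℝ) ^ (r : ℝ) * ((unions (meet A)).card : ℝ) := by
        refine hd.trans ?_
        have h8 : (A.card : ℝ) ≤ ((unions (gens A)).card : ℝ) := by exact_mod_cast hcle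
        rw [h1] at h8
        push_cast at h8
        rw [Real.rpow_natCast]
        exact h8
      have h9 : (2 : ℝ) ^ (((gens A).card : ℝ) - (meet A).card / 15)
          = (2 : ℝ) ^ (r : ℝ) * (2 : ℝ) ^ (((meet A).card : ℝ) - (meet A).card / 15) := by
        rw [← Real.rpow_add (by norm_num)]
        congr 1
        have h10 : (r : ℝ) = ((gens A).card : ℝ) - ((meet A).card : ℝ) := by
          rw [hrc, Nat.cast_sub hmle]
        rw [h10]
        ring
      rw [h9] at h7
      exact le_of_mul_le_mul_left h7 (by positivity))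
  obtain ⟨hG1, G', hG', hne, hnd⟩ := Finset.mem_filter.1 hG
  have hG'm : G' ∈ meet A :=
    Finset.mem_filter.2 ⟨hG', G, hG1, hne.symm, fun h => hnd h.symm⟩
  exact hnd (hiso G' hG'm hne)

end Pool.Agent.H97.GEN
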