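import Pool.Agent.H97.GEN.Star2

/-!
# Gibbs bound for double stars with free weights

As in `Star.lean`, `Star2.lean`, with capacity `c` instead of `5`, and weights `r` (the edge `{a, b}`)
and `ρ` (the other edges) that may depend on the block.
-/

set_option autoImplicit false

namespace Pool.Agent.H97.GEN

open Finset

section

variable {ι : Type*} [DecidableEq ι]

/-- The weight `ρ` for an edge with both ends absent. -/
noncomputable def eg (ρ : ℝ) (a j : ι) (S : Finset ι) : ℝ := if a ∉ S ∧ j ∉ S then ρ else 1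

lemma eg_pos {ρ : ℝ} (hρ : 1 ≤ ρ) (a j : ι) (S : Finset ι) : 0 < eg ρ a j S := by
  unfold eg
  split_ifs <;> linarith

/-- The weight of the double star. -/
noncomputable def dg (r ρ : ℝ) (a b : ι) (X Y : Finset ι) (S : Finset ι) : ℝ :=
  eg r a b S * ((∏ j ∈ X, eg ρ a j S) * ∏ j ∈ Y, eg ρ b j S)

lemma dg_pos {r ρ : ℝ} (hr : 1 ≤ r) (hρ : 1 ≤ ρ) (a b : ι) (X Y : Finset ι) (S : Finset ι) :
    0 < dg r ρ a b X Y S := by
  unfold dg
  exact mul_pos (eg_pos hr _ _ _) (mul_pos (Finset.prod_pos fun _ _ => eg_pos hρ _ _ _)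
    (Finset.prod_pos fun _ _ => eg_pos hρ _ _ _))

lemma dg_sum (r ρ : ℝ) (a b : ι) (X Y : Finset ι) (hab : a ≠ b) (haX : a ∉ X) (haY : a ∉ Y) (hbX : b ∉ X)
    (hbY : b ∉ Y) (hXY : Disjoint X Y) :
    ∑ S ∈ (insert a (insert b (X ∪ Y))).powerset, dg r ρ a b X Y S
      = r * ((1 + ρ) ^ X.card * (1 + ρ) ^ Y.card) + 2 ^ X.card * (1 + ρ) ^ Y.card
        + (1 + ρ) ^ X.card * 2 ^ Y.card + 2 ^ X.card * 2 ^ Y.card := by
  have hbXY : b ∉ X ∪ Y := by
    rw [Finset.mem_union]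
    exact fun h => h.elim hbX hbY
  have haXY : a ∉ insert b (X ∪ Y) := by
    rw [Finset.mem_insert, Finset.mem_union]
    rintro (h | h | h)
    · exact hab h
    · exact haX h
    · exact haY h
  have haXY' : a ∉ X ∪ Y := fun h => haXY (Finset.mem_insert_of_mem h)
  -- a general evaluation
  have gen : ∀ u v : ℝ, ∑ S ∈ (X ∪ Y).powerset,
      (∏ j ∈ X, (if j ∉ S then u else 1)) * ∏ j ∈ Y, (if j ∉ S then v else 1)
        = (1 + u) ^ X.card * (1 + v) ^ Y.card := by
    intro u v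
    have h := sum_prod_absent (X ∪ Y) (fun j => if j ∈ X then u else v)
    rw [Finset.prod_union hXY] at h
    have e1 : ∏ j ∈ X, (1 + if j ∈ X then u else v) = (1 + u) ^ X.card := by
      rw [Finset.prod_congr rfl (fun j hj => by rw [if_pos hj]), Finset.prod_const]
    have e2 : ∏ j ∈ Y, (1 + if j ∈ X then u else v) = (1 + v) ^ Y.card := by
      rw [Finset.prod_congr rfl (fun j hj => by
        rw [if_neg (fun hx => Finset.disjoint_left.1 hXY hx hj)]), Finset.prod_const]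
    rw [e1, e2] at h
    rw [← h]
    apply Finset.sum_congr rfl
    intro S _
    rw [Finset.prod_union hXY]
    congr 1
    · apply Finset.prod_congr rfl
      intro j hj
      rw [if_pos hj]
    · apply Finset.prod_congr rfl
      intro j hj
      rw [if_neg (fun hx => Finset.disjoint_left.1 hXY hx hj)]
  rw [Finset.sum_powerset_insert haXY, Finset.sum_powerset_insert hbXY,
    Finset.sum_powerset_insert hbXY]
  have e00 : ∑ S ∈ (X ∪ Y).powerset, dg r ρ a b X Y S
      = r * ((1 + ρ) ^ X.card * (1 + ρ) ^ Y.card) := by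
    have h := gen ρ ρ
    rw [← h, Finset.mul_sum]
    apply Finset.sum_congr rfl
    intro S hS
    have hSX := Finset.mem_powerset.1 hS
    have ha : a ∉ S := fun h => haXY' (hSX h)
    have hb : b ∉ S := fun h => hbXY (hSX h)
    simp [dg, eg, ha, hb]
  have e01 : ∑ S ∈ (X ∪ Y).powerset, dg r ρ a b X Y (insert b S)
      = (1 + ρ) ^ X.card * 2 ^ Y.card := by
    have h := gen ρ 1
    rw [show (1 + 1 : ℝ) = 2 by norm_num] at h
    rw [← h]
    apply Finset.sum_congr rfl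
    intro S hS
    have hSX := Finset.mem_powerset.1 hS
    have ha : a ∉ S := fun h => haXY' (hSX h)
    have hX : ∏ j ∈ X, eg ρ a j (insert b S) = ∏ j ∈ X, (if j ∉ S then ρ else 1) := by
      apply Finset.prod_congr rfl
      intro j hj
      have hjb : j ≠ b := fun h => hbX (h ▸ hj)
      simp [eg, ha, hab, hjb]
    have hY : ∏ j ∈ Y, eg ρ b j (insert b S) = ∏ j ∈ Y, (if j ∉ S then (1 : ℝ) else 1) := by
      apply Finset.prod_congr rfl
      intro j _
      simp [eg]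
    have h0 : eg r a b (insert b S) = 1 := by simp [eg]
    unfold dg
    rw [hX, hY, h0, one_mul]
  have e10 : ∑ S ∈ (X ∪ Y).powerset, dg r ρ a b X Y (insert a S)
      = 2 ^ X.card * (1 + ρ) ^ Y.card := by
    have h := gen 1 ρ
    rw [show (1 + 1 : ℝ) = 2 by norm_num] at h
    rw [← h]
    apply Finset.sum_congr rfl
    intro S hS
    have hSX := Finset.mem_powerset.1 hS
    have hb : b ∉ S := fun h => hbXY (hSX h)
    have hX : ∏ j ∈ X, eg ρ a j (insert a S) = ∏ j ∈ X, (if j ∉ S then (1 : ℝ) else 1) := by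
      apply Finset.prod_congr rfl
      intro j _
      simp [eg]
    have hY : ∏ j ∈ Y, eg ρ b j (insert a S) = ∏ j ∈ Y, (if j ∉ S then ρ else 1) := by
      apply Finset.prod_congr rfl
      intro j hj
      have hja : j ≠ a := fun h => haY (h ▸ hj)
      simp [eg, hb, hab.symm, hja]
    have h0 : eg r a b (insert a S) = 1 := by simp [eg]
    unfold dg
    rw [hX, hY, h0, one_mul]
  have e11 : ∑ S ∈ (X ∪ Y).powerset, dg r ρ a b X Y (insert a (insert b S))
      = 2 ^ X.card * 2 ^ Y.card := by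
    have h := gen 1 1
    rw [show (1 + 1 : ℝ) = 2 by norm_num] at h
    rw [← h]
    apply Finset.sum_congr rfl
    intro S _
    have hX : ∏ j ∈ X, eg ρ a j (insert a (insert b S)) = ∏ j ∈ X, (if j ∉ S then (1 : ℝ) else 1) := by
      apply Finset.prod_congr rfl
      intro j _
      simp [eg]
    have hY : ∏ j ∈ Y, eg ρ b j (insert a (insert b S)) = ∏ j ∈ Y, (if j ∉ S then (1 : ℝ) else 1) := by
      apply Finset.prod_congr rfl
      intro j _
      simp [eg]
    have h0 : eg r a b (insert a (insert b S)) = 1 := by simp [eg]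
    unfold dg
    rw [hX, hY, h0, one_mul]
  rw [e00, e01, e10, e11]
  ring

lemma eg_inter (ρ : ℝ) (a j : ι) (S B : Finset ι) (ha : a ∈ B) (hj : j ∈ B) : eg ρ a j (S ∩ B) = eg ρ a j S := by
  unfold eg
  simp [ha, hj]

lemma log_eg_sum {ρ : ℝ} (hρ : 1 ≤ ρ) (a j : ι) (F : Finset (Finset ι))
    (h : F.card ≤ 2 * (F.filter fun S => a ∉ S ∧ j ∉ S).card) :
    (F.card : ℝ) / 2 * Real.log ρ ≤ ∑ S ∈ F, Real.log (eg ρ a j S) := by
  have h1 : ∑ S ∈ F, Real.log (eg ρ a j S)
      = ((F.filter fun S => a ∉ S ∧ j ∉ S).card : ℝ) * Real.log ρ := by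
    have : ∀ S ∈ F, Real.log (eg ρ a j S)
        = if a ∉ S ∧ j ∉ S then Real.log ρ else 0 := by
      intro S _
      unfold eg
      split_ifs <;> simp
    rw [Finset.sum_congr rfl this, ← Finset.sum_filter, Finset.sum_const, nsmul_eq_mul]
  rw [h1]
  have hl : 0 ≤ Real.log ρ := Real.log_nonneg hρ
  apply mul_le_mul_of_nonneg_right _ hl
  have h2 : (F.card : ℝ) ≤ 2 * ((F.filter fun S => a ∉ S ∧ j ∉ S).card : ℝ) := by exact_mod_cast h
  linarith

theorem star_bound_g (c : ℕ) (κ : ℝ) (hκ : 0 < κ)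
    (hnum : ∀ s : ℕ, s ≤ c → ∀ t : ℕ, t ≤ c → ∃ r ρ : ℝ, 1 ≤ r ∧ 1 ≤ ρ ∧
      Real.log (r * ((1 + ρ) ^ s * (1 + ρ) ^ t) + 2 ^ s * (1 + ρ) ^ t + (1 + ρ) ^ s * 2 ^ t
          + 2 ^ s * 2 ^ t)
        < κ * ((s : ℝ) + t + 2) * Real.log 2 + 1 / 2 * Real.log r
          + ((s : ℝ) + t) / 2 * Real.log ρ)
    (J : Finset ι) (P : Finset (ι × ι))
    (hP1 : ∀ p ∈ P, p.1 ∈ J ∧ p.2 ∈ J ∧ p.1 ≠ p.2)
    (hP2 : ∀ p ∈ P, ∀ q ∈ P, p ≠ q → p.1 ≠ q.1 ∧ p.1 ≠ q.2 ∧ p.2 ≠ q.1 ∧ p.2 ≠ q.2)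
    (U : Finset ι) (hU : U = J \ (P.image Prod.fst ∪ P.image Prod.snd))
    (φ : ι → ι) (hφ : ∀ j ∈ U, φ j ∈ P.image Prod.fst ∪ P.image Prod.snd)
    (hc : ∀ a, (U.filter fun j => φ j = a).card ≤ c)
    (F : Finset (Finset ι)) (hFne : F.Nonempty) (hF : ∀ S ∈ F, S ⊆ J)
    (hhalf : ∀ p ∈ P, F.card ≤ 2 * (F.filter fun S => p.1 ∉ S ∧ p.2 ∉ S).card)
    (hhU : ∀ j ∈ U, F.card ≤ 2 * (F.filter fun S => φ j ∉ S ∧ j ∉ S).card)
    (hne : P.Nonempty) : Real.log F.card < κ * J.card * Real.log 2 := by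
  classical
  choose! R ϱ hR hϱ hlt using hnum
  have hN : (0 : ℝ) < F.card := by exact_mod_cast Finset.card_pos.2 hFne
  set V : Finset ι := P.image Prod.fst ∪ P.image Prod.snd with hV
  have hV1 : ∀ p ∈ P, p.1 ∈ V := fun p hp =>
    Finset.mem_union_left _ (Finset.mem_image_of_mem _ hp)
  have hV2 : ∀ p ∈ P, p.2 ∈ V := fun p hp =>
    Finset.mem_union_right _ (Finset.mem_image_of_mem _ hp)
  have hUV : ∀ j ∈ U, j ∉ V := fun j hj => by
    rw [hU, Finset.mem_sdiff] at hj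
    exact hj.2
  have hUJ : U ⊆ J := by rw [hU]; exact Finset.sdiff_subset
  set Lf : ι → Finset ι := fun a => U.filter fun j => φ j = a with hLf
  have hLfU : ∀ a, Lf a ⊆ U := fun a => Finset.filter_subset _ _
  set B : ι × ι → Finset ι := fun p => insert p.1 (insert p.2 (Lf p.1 ∪ Lf p.2)) with hB
  have hLdis : ∀ a b, a ≠ b → Disjoint (Lf a) (Lf b) := by
    intro a b hab
    rw [Finset.disjoint_left]
    intro j h1 h2
    rw [hLf, Finset.mem_filter] at h1 h2
    exact hab (h1.2.symm.trans h2.2)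
  have hVL : ∀ a ∈ V, ∀ b, a ∉ Lf b := fun a ha b h => hUV a (hLfU b h) ha
  have hBcard : ∀ p ∈ P, (B p).card = (Lf p.1).card + (Lf p.2).card + 2 := by
    intro p hp
    have h1 : p.2 ∉ Lf p.1 ∪ Lf p.2 := by
      rw [Finset.mem_union]
      exact fun h => h.elim (hVL _ (hV2 p hp) _) (hVL _ (hV2 p hp) _)
    have h2 : p.1 ∉ insert p.2 (Lf p.1 ∪ Lf p.2) := by
      rw [Finset.mem_insert, Finset.mem_union]
      rintro (h | h | h)
      · exact (hP1 p hp).2.2 h
      · exact hVL _ (hV1 p hp) _ h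
      · exact hVL _ (hV1 p hp) _ h
    rw [hB]
    simp only
    rw [Finset.card_insert_of_notMem h2, Finset.card_insert_of_notMem h1,
      Finset.card_union_of_disjoint (hLdis _ _ (hP1 p hp).2.2)]
  have hBJ : ∀ p ∈ P, B p ⊆ J := by
    intro p hp
    rw [hB]
    simp only
    apply Finset.insert_subset (hP1 p hp).1
    apply Finset.insert_subset (hP1 p hp).2.1
    exact Finset.union_subset ((hLfU _).trans hUJ) ((hLfU _).trans hUJ)
  have hmemB : ∀ p : ι × ι, ∀ x, x ∈ B p ↔ x = p.1 ∨ x = p.2 ∨ (x ∈ Lf p.1 ∨ x ∈ Lf p.2) := by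
    intro p x
    rw [hB]
    simp only [Finset.mem_insert, Finset.mem_union]
  have hBdis : ∀ p ∈ P, ∀ q ∈ P, p ≠ q → Disjoint (B p) (B q) := by
    intro p hp q hq hpq
    obtain ⟨h11, h12, h21, h22⟩ := hP2 p hp q hq hpq
    rw [Finset.disjoint_left]
    intro x hx hx'
    rw [hmemB] at hx hx'
    have d11 := Finset.disjoint_left.1 (hLdis _ _ h11)
    have d12 := Finset.disjoint_left.1 (hLdis _ _ h12)
    have d21 := Finset.disjoint_left.1 (hLdis _ _ h21)
    have d22 := Finset.disjoint_left.1 (hLdis _ _ h22)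
    have v1 := hVL _ (hV1 p hp)
    have v2 := hVL _ (hV2 p hp)
    have w1 := hVL _ (hV1 q hq)
    have w2 := hVL _ (hV2 q hq)
    rcases hx with rfl | rfl | h | h
    · rcases hx' with h' | h' | h' | h'
      · exact h11 h'
      · exact h12 h'
      · exact v1 _ h'
      · exact v1 _ h'
    · rcases hx' with h' | h' | h' | h'
      · exact h21 h'
      · exact h22 h'
      · exact v2 _ h'
      · exact v2 _ h'
    · rcases hx' with rfl | rfl | h' | h'
      · exact w1 _ h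
      · exact w2 _ h
      · exact d11 h h'
      · exact d12 h h'
    · rcases hx' with rfl | rfl | h' | h'
      · exact w1 _ h
      · exact w2 _ h
      · exact d21 h h'
      · exact d22 h h'
  have hJB : J ⊆ P.biUnion B := by
    intro x hx
    rw [Finset.mem_biUnion]
    by_cases hxV : x ∈ V
    · rcases Finset.mem_union.1 hxV with h | h
      · obtain ⟨p, hp, rfl⟩ := Finset.mem_image.1 h
        exact ⟨p, hp, (hmemB _ _).2 (Or.inl rfl)⟩
      · obtain ⟨p, hp, rfl⟩ := Finset.mem_image.1 h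
        exact ⟨p, hp, (hmemB _ _).2 (Or.inr (Or.inl rfl))⟩
    · have hxU : x ∈ U := by
        rw [hU, Finset.mem_sdiff]
        exact ⟨hx, hxV⟩
      have hxL : x ∈ Lf (φ x) := Finset.mem_filter.2 ⟨hxU, rfl⟩
      rcases Finset.mem_union.1 (hφ x hxU) with h | h
      · obtain ⟨p, hp, hpx⟩ := Finset.mem_image.1 h
        refine ⟨p, hp, (hmemB _ _).2 (Or.inr (Or.inr (Or.inl ?_)))⟩
        rw [hpx]
        exact hxL
      · obtain ⟨p, hp, hpx⟩ := Finset.mem_image.1 h
        refine ⟨p, hp, (hmemB _ _).2 (Or.inr (Or.inr (Or.inr ?_)))⟩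
        rw [hpx]
        exact hxL
  have hJcard : ∑ p ∈ P, ((Lf p.1).card + (Lf p.2).card + 2) ≤ J.card := by
    rw [← Finset.sum_congr rfl hBcard, ← Finset.card_biUnion (fun p hp q hq h => hBdis p hp q hq h)]
    exact Finset.card_le_card (Finset.biUnion_subset.2 hBJ)
  -- the weights
  set rr : ι × ι → ℝ := fun p => R (Lf p.1).card (Lf p.2).card with hrr
  set ss : ι × ι → ℝ := fun p => ϱ (Lf p.1).card (Lf p.2).card with hss
  have hr1 : ∀ p, 1 ≤ rr p := fun p => hR _ (hc _) _ (hc _)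
  have hs1 : ∀ p, 1 ≤ ss p := fun p => hϱ _ (hc _) _ (hc _)
  set w : ι × ι → Finset ι → ℝ := fun p S => dg (rr p) (ss p) p.1 p.2 (Lf p.1) (Lf p.2) S with hw
  have hwpos : ∀ p S, 0 < w p S := fun p S => dg_pos (hr1 p) (hs1 p) _ _ _ _ _
  have hwB : ∀ p ∈ P, ∀ S, w p (S ∩ B p) = w p S := by
    intro p hp S
    have h1 : p.1 ∈ B p := (hmemB _ _).2 (Or.inl rfl)
    have h2 : p.2 ∈ B p := (hmemB _ _).2 (Or.inr (Or.inl rfl))
    simp only [hw, dg]
    rw [eg_inter _ _ _ _ _ h1 h2]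
    congr 1
    congr 1
    · apply Finset.prod_congr rfl
      intro j hj
      exact eg_inter _ _ _ _ _ h1 ((hmemB _ _).2 (Or.inr (Or.inr (Or.inl hj))))
    · apply Finset.prod_congr rfl
      intro j hj
      exact eg_inter _ _ _ _ _ h2 ((hmemB _ _).2 (Or.inr (Or.inr (Or.inr hj))))
  set Z : ι × ι → ℝ := fun p =>
    rr p * ((1 + ss p) ^ (Lf p.1).card * (1 + ss p) ^ (Lf p.2).card)
    + 2 ^ (Lf p.1).card * (1 + ss p) ^ (Lf p.2).card
    + (1 + ss p) ^ (Lf p.1).card * 2 ^ (Lf p.2).card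
    + 2 ^ (Lf p.1).card * 2 ^ (Lf p.2).card with hZ
  have hZpos : ∀ p, 0 < Z p := fun p => by
    have h1 := hr1 p
    have h2 := hs1 p
    simp only [hZ]
    positivity
  have hsum : ∑ S ∈ F, ∏ p ∈ P, w p S ≤ ∏ p ∈ P, Z p := by
    have h1 := block_sum_le P B F (fun S hS => (hF S hS).trans hJB) w (fun p S => (hwpos p S).le)
    have h2 : ∑ S ∈ F, ∏ p ∈ P, w p (S ∩ B p) = ∑ S ∈ F, ∏ p ∈ P, w p S := by
      apply Finset.sum_congr rfl
      intro S _
      apply Finset.prod_congr rfl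
      intro p hp
      exact hwB p hp S
    have h3 : ∏ p ∈ P, ∑ s ∈ (B p).powerset, w p s = ∏ p ∈ P, Z p := by
      apply Finset.prod_congr rfl
      intro p hp
      exact dg_sum (rr p) (ss p) p.1 p.2 (Lf p.1) (Lf p.2) (hP1 p hp).2.2 (hVL _ (hV1 p hp) _)
        (hVL _ (hV1 p hp) _) (hVL _ (hV2 p hp) _) (hVL _ (hV2 p hp) _)
        (hLdis _ _ (hP1 p hp).2.2)
    rw [h2, h3] at h1
    exact h1
  have hG := gibbs_log F hFne (fun S => ∏ p ∈ P, w p S)
    (fun S _ => Finset.prod_pos fun p _ => hwpos p S) _ hsum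
  have hlog1 : Real.log (∏ p ∈ P, Z p) = ∑ p ∈ P, Real.log (Z p) :=
    Real.log_prod (s := P) (fun p _ => (hZpos p).ne')
  have hlog2 : ∑ S ∈ F, Real.log (∏ p ∈ P, w p S)
      = ∑ p ∈ P, ∑ S ∈ F, Real.log (w p S) := by
    rw [Finset.sum_comm]
    apply Finset.sum_congr rfl
    intro S _
    exact Real.log_prod (s := P) (fun p _ => (hwpos p S).ne')
  have hlow : ∀ p ∈ P, (F.card : ℝ) / 2 * Real.log (rr p)
      + (F.card : ℝ) / 2 * Real.log (ss p) * ((Lf p.1).card + (Lf p.2).card)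
        ≤ ∑ S ∈ F, Real.log (w p S) := by
    intro p hp
    have hp1 := fun a j (S : Finset ι) => eg_pos (hs1 p) a j S
    have hp2 := fun a j (S : Finset ι) => eg_pos (hr1 p) a j S
    have h1 : ∀ S ∈ F, Real.log (w p S) = Real.log (eg (rr p) p.1 p.2 S)
        + (∑ j ∈ Lf p.1, Real.log (eg (ss p) p.1 j S)
          + ∑ j ∈ Lf p.2, Real.log (eg (ss p) p.2 j S)) := by
      intro S _
      simp only [hw, dg]
      rw [Real.log_mul (hp2 _ _ _).ne' (mul_pos (Finset.prod_pos fun _ _ => hp1 _ _ _)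
        (Finset.prod_pos fun _ _ => hp1 _ _ _)).ne',
        Real.log_mul (Finset.prod_pos fun _ _ => hp1 _ _ _).ne'
        (Finset.prod_pos fun _ _ => hp1 _ _ _).ne',
        Real.log_prod (s := Lf p.1) (fun _ _ => (hp1 _ _ _).ne'),
        Real.log_prod (s := Lf p.2) (fun _ _ => (hp1 _ _ _).ne')]
    rw [Finset.sum_congr rfl h1, Finset.sum_add_distrib, Finset.sum_add_distrib,
      Finset.sum_comm (s := F) (t := Lf p.1), Finset.sum_comm (s := F) (t := Lf p.2)]
    have h2 := log_eg_sum (hr1 p) p.1 p.2 F (hhalf p hp)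
    have hleaf : ∀ a, ((Lf a).card : ℝ) * ((F.card : ℝ) / 2 * Real.log (ss p))
        ≤ ∑ j ∈ Lf a, ∑ S ∈ F, Real.log (eg (ss p) a j S) := by
      intro a
      rw [← nsmul_eq_mul]
      apply Finset.card_nsmul_le_sum
      intro j hj
      rw [hLf, Finset.mem_filter] at hj
      have h := hhU j hj.1
      rw [hj.2] at h
      exact log_eg_sum (hs1 p) a j F h
    have h3 := hleaf p.1
    have h4 := hleaf p.2
    linarith
  have hlow2 := Finset.sum_le_sum hlow
  rw [hlog1, hlog2] at hG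
  have hmain : Real.log F.card + ∑ p ∈ P, (1 / 2 * Real.log (rr p)
      + 1 / 2 * Real.log (ss p) * ((Lf p.1).card + (Lf p.2).card)) ≤ ∑ p ∈ P, Real.log (Z p) := by
    have h1 : (F.card : ℝ) * (Real.log F.card + ∑ p ∈ P, (1 / 2 * Real.log (rr p)
      + 1 / 2 * Real.log (ss p) * ((Lf p.1).card + (Lf p.2).card)))
        ≤ F.card * ∑ p ∈ P, Real.log (Z p) := by
      refine le_trans ?_ hG
      rw [mul_add]
      refine add_le_add le_rfl (le_trans (le_of_eq ?_) hlow2)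
      rw [Finset.mul_sum]
      apply Finset.sum_congr rfl
      intro p _
      ring
    exact le_of_mul_le_mul_left h1 hN
  have hstrict : ∑ p ∈ P, Real.log (Z p) < ∑ p ∈ P,
      (κ * (((Lf p.1).card : ℝ) + (Lf p.2).card + 2) * Real.log 2 + (1 / 2 * Real.log (rr p)
        + 1 / 2 * Real.log (ss p) * ((Lf p.1).card + (Lf p.2).card))) := by
    apply Finset.sum_lt_sum_of_nonempty hne
    intro p _
    have h := hlt (Lf p.1).card (hc _) (Lf p.2).card (hc _)
    refine lt_of_lt_of_eq h ?_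
    simp only [hrr, hss]
    ring
  have h1 : (∑ p ∈ P, (((Lf p.1).card : ℝ) + (Lf p.2).card + 2)) ≤ J.card := by
    exact_mod_cast hJcard
  have h2 : 0 < Real.log 2 := Real.log_pos (by norm_num)
  have h3 := mul_le_mul_of_nonneg_right h1 (by positivity : (0 : ℝ) ≤ κ * Real.log 2)
  rw [Finset.sum_add_distrib] at hstrict
  have e1 : ∑ p ∈ P, κ * (((Lf p.1).card : ℝ) + (Lf p.2).card + 2) * Real.log 2
      = (∑ p ∈ P, (((Lf p.1).card : ℝ) + (Lf p.2).card + 2)) * (κ * Real.log 2) := by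
    rw [Finset.sum_mul]
    apply Finset.sum_congr rfl
    intro p _
    ring
  rw [e1] at hstrict
  linarith only [hstrict, hmain, h3]

end

end Pool.Agent.H97.GEN
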