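import Pool.Agent.H97.GEN.StarG
import Pool.Agent.H97.GEN.Gens
import Pool.Agent.H97.GEN.Deletion
import Pool.Agent.H97.GEN.Part2

/-!
# Frequent points when `|A| ≥ 2 ^ (κ g)`, from the local theorem with capacity `c`
-/

set_option autoImplicit false

namespace Pool.Agent.H97.GEN

open Finset

section

variable {ι : Type*} [DecidableEq ι]

/-- Hall's theorem with capacity `c`. -/
theorem hallc (c : ℕ) (V U : Finset ι) (r : ι → ι → Prop) [∀ a b, Decidable (r a b)]
    (h : ∀ M ⊆ U, M.card ≤ c * (V.filter fun w => ∃ q ∈ M, r w q).card) :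
    ∃ φ : ι → ι, (∀ j ∈ U, φ j ∈ V ∧ r (φ j) j) ∧ ∀ a, (U.filter fun j => φ j = a).card ≤ c := by
  classical
  set t : {j // j ∈ U} → Finset (ι × Fin c) := fun j =>
    (V.filter fun w => r w j.1) ×ˢ Finset.univ with ht
  have hHall : ∀ s : Finset {j // j ∈ U}, s.card ≤ (s.biUnion t).card := by
    intro s
    have h1 := h (s.image Subtype.val) (by
      intro x hx
      obtain ⟨j, _, rfl⟩ := Finset.mem_image.1 hx
      exact j.2)
    rw [Finset.card_image_of_injective _ Subtype.val_injective] at h1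
    refine h1.trans ?_
    have h2 : (V.filter fun w => ∃ q ∈ s.image Subtype.val, r w q) ×ˢ (Finset.univ : Finset (Fin c))
        ⊆ s.biUnion t := by
      intro x hx
      rw [Finset.mem_product, Finset.mem_filter] at hx
      obtain ⟨⟨hxV, q, hq, hr⟩, -⟩ := hx
      obtain ⟨j, hj, rfl⟩ := Finset.mem_image.1 hq
      rw [Finset.mem_biUnion]
      refine ⟨j, hj, ?_⟩
      rw [ht]
      simp only [Finset.mem_product, Finset.mem_filter, Finset.mem_univ, and_true]
      exact ⟨hxV, hr⟩
    have h3 := Finset.card_le_card h2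
    rw [Finset.card_product, Finset.card_univ, Fintype.card_fin, mul_comm] at h3
    exact h3
  obtain ⟨f, hf1, hf2⟩ := (Finset.all_card_le_biUnion_card_iff_exists_injective t).1 hHall
  refine ⟨fun j => if hj : j ∈ U then (f ⟨j, hj⟩).1 else j, ?_, ?_⟩
  · intro j hj
    have h1 := hf2 ⟨j, hj⟩
    rw [ht] at h1
    simp only [Finset.mem_product, Finset.mem_filter, Finset.mem_univ, and_true] at h1
    simp only [hj, dif_pos]
    exact h1
  · intro a
    have h1 : (U.filter fun j => (if hj : j ∈ U then (f ⟨j, hj⟩).1 else j) = a).card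
        ≤ (Finset.range c).card := by
      apply Finset.card_le_card_of_injOn
        (fun j => if hj : j ∈ U then ((f ⟨j, hj⟩).2 : ℕ) else 0)
      · intro j hj
        rw [Finset.mem_coe, Finset.mem_filter] at hj
        rw [Finset.mem_coe, Finset.mem_range]
        simp only [hj.1, dif_pos]
        exact (f ⟨j, hj.1⟩).2.isLt
      · intro j hj k hk hjk
        rw [Finset.mem_coe, Finset.mem_filter] at hj hk
        obtain ⟨hjU, hja⟩ := hj
        obtain ⟨hkU, hka⟩ := hk
        simp only [hjU, hkU, dif_pos] at hja hka hjk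
        have : f ⟨j, hjU⟩ = f ⟨k, hkU⟩ := Prod.ext (hja.trans hka.symm) (Fin.ext hjk)
        exact congrArg Subtype.val (hf1 this)
    rwa [Finset.card_range] at h1

lemma log_of_pow (s t : ℕ) (Z r ρ : ℝ) (hZ : 0 < Z) (hr : 1 ≤ r) (hρ : 1 ≤ ρ)
    (h : Z ^ 12 < 2 ^ (11 * (s + t + 2)) * (r ^ 6 * ρ ^ (6 * (s + t)))) :
    Real.log Z < 11 / 12 * ((s : ℝ) + t + 2) * Real.log 2 + 1 / 2 * Real.log r
      + ((s : ℝ) + t) / 2 * Real.log ρ := by
  have hr0 : 0 < r := by linarith
  have hρ0 : 0 < ρ := by linarith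
  have h1 := Real.log_lt_log (by positivity) h
  rw [Real.log_pow, Real.log_mul (by positivity) (by positivity),
    Real.log_mul (by positivity) (by positivity), Real.log_pow, Real.log_pow, Real.log_pow] at h1
  push_cast at h1
  linarith only [h1]

theorem num3 : ∀ s : ℕ, s ≤ 3 → ∀ t : ℕ, t ≤ 3 → ∃ r ρ : ℝ, 1 ≤ r ∧ 1 ≤ ρ ∧
      Real.log (r * ((1 + ρ) ^ s * (1 + ρ) ^ t) + 2 ^ s * (1 + ρ) ^ t + (1 + ρ) ^ s * 2 ^ t
          + 2 ^ s * 2 ^ t)
        < 11 / 12 * ((s : ℝ) + t + 2) * Real.log 2 + 1 / 2 * Real.log r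
          + ((s : ℝ) + t) / 2 * Real.log ρ := by
  intro s hs t ht
  rcases Nat.eq_zero_or_pos s with h0 | h0
  · rcases Nat.eq_zero_or_pos t with h1 | h1
    · refine ⟨3, 3, by norm_num, by norm_num, log_of_pow s t _ _ _ (by positivity) (by norm_num)
        (by norm_num) ?_⟩
      rw [h0, h1]
      norm_num
    · refine ⟨9 / 5, 9 / 5, by norm_num, by norm_num, log_of_pow s t _ _ _ (by positivity)
        (by norm_num) (by norm_num) ?_⟩
      rw [h0]
      interval_cases t <;> norm_num
  · rcases Nat.eq_zero_or_pos t with h1 | h1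
    · refine ⟨9 / 5, 9 / 5, by norm_num, by norm_num, log_of_pow s t _ _ _ (by positivity)
        (by norm_num) (by norm_num) ?_⟩
      rw [h1]
      interval_cases s <;> norm_num
    · refine ⟨1, 2, by norm_num, by norm_num, log_of_pow s t _ _ _ (by positivity) (by norm_num)
        (by norm_num) ?_⟩
      interval_cases s <;> interval_cases t <;> norm_num

end

variable {α : Type*} [DecidableEq α]

/-- If no point is in more than half of the unions of `J`, and there are at least `2 ^ (κ |J|)`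
unions, then some member of `J` is disjoint from all others. -/
theorem coreG (c : ℕ) (κ : ℝ) (hκ : 0 < κ)
    (hnum : ∀ s : ℕ, s ≤ c → ∀ t : ℕ, t ≤ c → ∃ r ρ : ℝ, 1 ≤ r ∧ 1 ≤ ρ ∧
      Real.log (r * ((1 + ρ) ^ s * (1 + ρ) ^ t) + 2 ^ s * (1 + ρ) ^ t + (1 + ρ) ^ s * 2 ^ t
          + 2 ^ s * 2 ^ t)
        < κ * ((s : ℝ) + t + 2) * Real.log 2 + 1 / 2 * Real.log r
          + ((s : ℝ) + t) / 2 * Real.log ρ)
    (hthm : ∀ V Q : Finset (Finset α), Disjoint V Q → (∀ G ∈ V ∪ Q, G.Nonempty) →
      (∀ G ∈ V, G ∉ unions ((V ∪ Q).erase G)) → (∀ G ∈ Q, ∀ G' ∈ Q, G' ≠ G → Disjoint G' G) →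
      c * (V.filter fun w => ∃ q ∈ Q, ¬ Disjoint w q).card < Q.card →
      (∃ G ∈ Q, ∀ G' ∈ V ∪ Q, G' ≠ G → Disjoint G' G) ∨
        (∃ x ∈ (V ∪ Q).sup id, (unions (V ∪ Q)).card < 2 * fr (unions (V ∪ Q)) x))
    (J : Finset (Finset α)) (hne : ∀ G ∈ J, G.Nonempty)
    (hirr : ∀ G ∈ J, G ∉ unions (J.erase G)) (hJ : 1 ≤ J.card)
    (hhalf : ∀ x ∈ J.sup id, 2 * fr (unions J) x ≤ (unions J).card)
    (hd : (2 : ℝ) ^ (κ * J.card) ≤ (unions J).card) :
    ∃ G ∈ J, ∀ G' ∈ J, G' ≠ G → Disjoint G' G := by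
  classical
  by_contra hcon
  push Not at hcon
  obtain ⟨P, hP1, hP2, hP3, -, hPQ⟩ := matching J
  set V : Finset (Finset α) := P.image Prod.fst ∪ P.image Prod.snd with hV
  -- the Hall condition
  have hH : ∀ M ⊆ J \ V, M.card ≤ c * (V.filter fun w => ∃ q ∈ M, ¬ Disjoint w q).card := by
    intro M hM
    by_contra hlt
    push Not at hlt
    have hMJ : M ⊆ J := hM.trans Finset.sdiff_subset
    have hJM : J \ M ∪ M = J := by
      rw [Finset.union_comm]
      exact Finset.union_sdiff_of_subset hMJ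
    have hX := hthm (J \ M) M Finset.sdiff_disjoint (by rw [hJM]; exact hne)
      (by
        rw [hJM]
        intro G hG
        exact hirr G (Finset.mem_sdiff.1 hG).1)
      (fun G hG G' hG' hne' => hPQ G (hM hG) G' (hM hG') hne') (by
        refine lt_of_le_of_lt (Nat.mul_le_mul_left _ (Finset.card_le_card ?_)) hlt
        intro w hw
        rw [Finset.mem_filter, Finset.mem_sdiff] at hw
        obtain ⟨⟨hwJ, hwM⟩, q, hq, hnd⟩ := hw
        rw [Finset.mem_filter]
        refine ⟨?_, q, hq, hnd⟩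
        by_contra hwV
        have hne' : w ≠ q := fun h => hwM (h ▸ hq)
        exact hnd (hPQ q (hM hq) w (Finset.mem_sdiff.2 ⟨hwJ, hwV⟩) hne'))
    rw [hJM] at hX
    rcases hX with ⟨G, hG, hiso⟩ | ⟨x, hx, hlt'⟩
    · obtain ⟨G', hG', hne', hnd⟩ := hcon G (hMJ hG)
      exact hnd (hiso G' hG' hne')
    · have := hhalf x hx
      omega
  obtain ⟨φ, hφ, hφc⟩ := hallc c V (J \ V) (fun w q => ¬ Disjoint w q) hH
  -- the traces
  have hinj : Set.InjOn (K J) (unions J : Set (Finset α)) := fun A hA B hB h =>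
    K_injOn (Finset.mem_coe.1 hA) (Finset.mem_coe.1 hB) h
  have hFc : ((unions J).image (K J)).card = (unions J).card := Finset.card_image_of_injOn hinj
  have hedge : ∀ G ∈ J, ∀ G' : Finset α, ¬ Disjoint G' G → ((unions J).image (K J)).card
      ≤ 2 * (((unions J).image (K J)).filter fun S => G' ∉ S ∧ G ∉ S).card := by
    intro G hG G' hnd
    obtain ⟨x, hx1, hx2⟩ := Finset.not_disjoint_iff.1 hnd
    have hxJ : x ∈ J.sup id := mem_sup_id.2 ⟨G, hG, hx2⟩
    have h1 := hhalf x hxJ
    have h2 := fr_add_nfr (unions J) x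
    have h3 : nfr (unions J) x
        ≤ (((unions J).image (K J)).filter fun S => G' ∉ S ∧ G ∉ S).card := by
      unfold nfr
      apply Finset.card_le_card_of_injOn (K J)
      · intro A hA
        rw [Finset.mem_coe, Finset.mem_filter] at hA
        rw [Finset.mem_coe, Finset.mem_filter]
        refine ⟨Finset.mem_image_of_mem _ hA.1, ?_, ?_⟩
        · intro hc
          exact hA.2 ((mem_K.1 hc).2 hx1)
        · intro hc
          exact hA.2 ((mem_K.1 hc).2 hx2)
      · intro A hA B hB hAB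
        rw [Finset.mem_coe, Finset.mem_filter] at hA hB
        exact K_injOn hA.1 hB.1 hAB
    rw [hFc]
    omega
  have hPne : P.Nonempty := by
    rw [Finset.nonempty_iff_ne_empty]
    intro h0
    obtain ⟨G, hG⟩ := Finset.card_pos.1 hJ
    obtain ⟨G', hG', hne', hnd⟩ := hcon G hG
    have hV0 : V = ∅ := by
      rw [hV, h0]
      simp
    rw [hV0, Finset.sdiff_empty] at hPQ
    exact hnd (hPQ G hG G' hG' hne')
  have hFne : ((unions J).image (K J)).Nonempty := ⟨_, Finset.mem_image_of_mem _ (empty_mem J)⟩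
  have hb := star_bound_g c κ hκ hnum J P hP1 hP2 (J \ V) rfl φ (fun j hj => (hφ j hj).1) hφc
    ((unions J).image (K J)) hFne (by
      intro S hS
      obtain ⟨A, -, rfl⟩ := Finset.mem_image.1 hS
      exact K_subset _ _) (by
      intro p hp
      obtain ⟨x, hx1, hx2⟩ := hP3 p hp
      exact hedge p.2 (hP1 p hp).2.1 p.1 (Finset.not_disjoint_iff.2 ⟨x, hx1, hx2⟩)) (by
      intro j hj
      exact hedge j (Finset.mem_sdiff.1 hj).1 (φ j) (hφ j hj).2) hPne
  rw [hFc] at hb
  have e1 := Real.log_le_log (by positivity) hd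
  rw [Real.log_rpow (by norm_num)] at e1
  linarith only [e1, hb]

/-- Some point is in at least half of the members, if `|A| ≥ 2 ^ (κ g)`, where `g` is the
number of generators. -/
theorem part1G (κ : ℝ)
    (hcore : ∀ J : Finset (Finset α), (∀ G ∈ J, G.Nonempty) →
      (∀ G ∈ J, G ∉ unions (J.erase G)) → 1 ≤ J.card →
      (∀ x ∈ J.sup id, 2 * fr (unions J) x ≤ (unions J).card) →
      (2 : ℝ) ^ (κ * J.card) ≤ (unions J).card → ∃ G ∈ J, ∀ G' ∈ J, G' ≠ G → Disjoint G' G)
    {A : Finset (Finset α)} (hA : UnionClosed A) (hne : ∃ T ∈ A, T.Nonempty)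
    (hd : (2 : ℝ) ^ (κ * (gens A).card) ≤ A.card) :
    ∃ x ∈ A.sup id, A.card ≤ 2 * fr A x := by
  classical
  by_contra hcon
  push Not at hcon
  have hu := unions_gens hA
  have hcle : A.card ≤ (unions (gens A)).card := by
    rw [hu]
    exact Finset.card_le_card (Finset.subset_insert _ _)
  have hfr : ∀ x, fr (unions (gens A)) x = fr A x := by
    intro x
    rw [hu]
    exact fr_insert_empty A x
  have hsup : ∀ x ∈ (gens A).sup id, x ∈ A.sup id := by
    intro x hx
    obtain ⟨G, hG, hxG⟩ := mem_sup_id.1 hx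
    exact mem_sup_id.2 ⟨G, gens_subset A hG, hxG⟩
  have hJ : 1 ≤ (gens A).card := by
    by_contra hc
    have h0 : gens A = ∅ := by
      rw [← Finset.card_eq_zero]
      omega
    obtain ⟨T, hT, x, hx⟩ := hne
    have hTu : T ∈ unions (gens A) := by
      rw [hu]
      exact Finset.mem_insert_of_mem hT
    rw [h0] at hTu
    obtain ⟨G, hG, -⟩ := (mem_iff hTu x).1 hx
    simp at hG
  obtain ⟨G, hG, hiso⟩ := hcore (gens A) (fun G hG => gens_nonempty hG)
    (fun G hG => gens_irr A hG) hJ (by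
      intro x hx
      rw [hfr]
      have := hcon x (hsup x hx)
      omega) (hd.trans (by exact_mod_cast hcle))
  obtain ⟨x, hx⟩ := gens_nonempty hG
  have h1 := half_of_isolated (gens A) hG hiso hx
  have h2 := fr_add_nfr (unions (gens A)) x
  have h3 := hcon x (mem_sup_id.2 ⟨G, gens_subset A hG, hx⟩)
  have h4 := hfr x
  omega

/-- Some point is in more than half of the members, if some generators meet and
`|A| ≥ 2 ^ (g - (1 - κ) h)`, where `g` is the number of generators and `h` is the number of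
generators that meet another generator. -/
theorem part2G (κ : ℝ)
    (hcore : ∀ J : Finset (Finset α), (∀ G ∈ J, G.Nonempty) →
      (∀ G ∈ J, G ∉ unions (J.erase G)) → 1 ≤ J.card →
      (∀ x ∈ J.sup id, 2 * fr (unions J) x ≤ (unions J).card) →
      (2 : ℝ) ^ (κ * J.card) ≤ (unions J).card → ∃ G ∈ J, ∀ G' ∈ J, G' ≠ G → Disjoint G' G)
    {A : Finset (Finset α)} (hA : UnionClosed A) (hm : (meet A).Nonempty)
    (hd : (2 : ℝ) ^ (((gens A).card : ℝ) - (1 - κ) * (meet A).card) ≤ A.card) :
    ∃ x ∈ A.sup id, A.card < 2 * fr A x := by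
  classical
  by_contra hcon
  push Not at hcon
  have hu := unions_gens hA
  have hcle : A.card ≤ (unions (gens A)).card := by
    rw [hu]
    exact Finset.card_le_card (Finset.subset_insert _ _)
  have hfr : ∀ x, fr (unions (gens A)) x = fr A x := by
    intro x
    rw [hu]
    exact fr_insert_empty A x
  have hmsub : meet A ⊆ gens A := Finset.filter_subset _ _
  have hsd : gens A \ (gens A \ meet A) = meet A := by
    rw [Finset.sdiff_sdiff_eq_self hmsub]
  have hout : ∀ G ∈ gens A \ meet A, ∀ G' ∈ gens A, G' ≠ G → Disjoint G' G := by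
    intro G hG G' hG' hne
    rw [Finset.mem_sdiff] at hG
    by_contra hnd
    exact hG.2 (Finset.mem_filter.2 ⟨hG.1, G', hG', hne, hnd⟩)
  obtain ⟨h1, h2⟩ := remove_isolated (gens A \ meet A) (gens A) Finset.sdiff_subset
    (fun G hG => ⟨gens_nonempty (Finset.mem_sdiff.1 hG).1, hout G hG⟩)
  rw [hsd] at h1 h2
  have hrc : (gens A \ meet A).card = (gens A).card - (meet A).card :=
    Finset.card_sdiff_of_subset hmsub
  have hmle : (meet A).card ≤ (gens A).card := Finset.card_le_card hmsub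
  set r : ℕ := (gens A \ meet A).card with hr
  have hpow : 0 < 2 ^ r := by positivity
  obtain ⟨G, hG, hiso⟩ := hcore (meet A) (fun G hG => gens_nonempty (hmsub hG))
    (fun G hG h => gens_irr A (hmsub hG)
      (unions_mono (Finset.erase_subset_erase _ hmsub) h)) (Finset.card_pos.2 hm) (by
      intro x hx
      obtain ⟨G0, hG0, hxG0⟩ := mem_sup_id.1 hx
      have h3 : ∀ G ∈ gens A \ meet A, x ∉ G := by
        intro G hG hxG
        have hne : G0 ≠ G := by
          rintro rfl
          exact (Finset.mem_sdiff.1 hG).2 hG0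
        exact Finset.disjoint_left.1 (hout G hG G0 (hmsub hG0) hne) hxG0 hxG
      have h4 := h2 x h3
      have h5 := hcon x (mem_sup_id.2 ⟨G0, gens_subset A (hmsub hG0), hxG0⟩)
      rw [← hfr x, h4] at h5
      have h6 : 2 ^ r * (2 * fr (unions (meet A)) x) ≤ 2 ^ r * (unions (meet A)).card := by
        calc 2 ^ r * (2 * fr (unions (meet A)) x) = 2 * (2 ^ r * fr (unions (meet A)) x) := by ring
          _ ≤ A.card := h5
          _ ≤ (unions (gens A)).card := hcle
          _ = 2 ^ r * (unions (meet A)).card := h1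
      exact Nat.le_of_mul_le_mul_left h6 hpow) (by
      have h7 : (2 : ℝ) ^ (((gens A).card : ℝ) - (1 - κ) * (meet A).card)
          ≤ (2 : ℝ) ^ (r : ℝ) * ((unions (meet A)).card : ℝ) := by
        refine hd.trans ?_
        have h8 : (A.card : ℝ) ≤ ((unions (gens A)).card : ℝ) := by exact_mod_cast hcle
        rw [h1] at h8
        push_cast at h8
        rw [Real.rpow_natCast]
        exact h8
      have h9 : (2 : ℝ) ^ (((gens A).card : ℝ) - (1 - κ) * (meet A).card)
          = (2 : ℝ) ^ (r : ℝ) * (2 : ℝ) ^ (κ * (meet A).card) := by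
        rw [← Real.rpow_add (by norm_num)]
        congr 1
        have h10 : (r : ℝ) = ((gens A).card : ℝ) - ((meet A).card : ℝ) := by
          rw [hrc, Nat.cast_sub hmle]
        rw [h10]
        ring
      rw [h9] at h7
      exact le_of_mul_le_mul_left h7 (by positivity))
  obtain ⟨hG1, G', hG', hne, hnd⟩ := Finset.mem_filter.1 hG
  have hG'm : G' ∈ meet A :=
    Finset.mem_filter.2 ⟨hG', G, hG1, hne.symm, fun h => hnd h.symm⟩
  exact hnd (hiso G' hG'm hne)

end Pool.Agent.H97.GEN
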