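import Pool.Agent.H97.GEN.Defs

/-! Exact statements of the parts (interface only, not imported by the hand-in). -/

set_option autoImplicit false

namespace Pool.Agent.H97.GEN.Stubs

open Finset Pool.Agent.H97.GEN

variable {α : Type*} [DecidableEq α]

/-! ### Part A (helper83): file `Pool/Agent/H97/GEN/Gibbs.lean` -/

/-- Gibbs with the product weight: pairs: neither 1/2, other patterns 1/6; free elements 1/2. -/
theorem pair_bound {ι : Type*} [DecidableEq ι] (J : Finset ι) (P : Finset (ι × ι))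
    (hP1 : ∀ p ∈ P, p.1 ∈ J ∧ p.2 ∈ J ∧ p.1 ≠ p.2)
    (hP2 : ∀ p ∈ P, ∀ q ∈ P, p ≠ q → p.1 ≠ q.1 ∧ p.1 ≠ q.2 ∧ p.2 ≠ q.1 ∧ p.2 ≠ q.2)
    (F : Finset (Finset ι)) (hF : ∀ S ∈ F, S ⊆ J)
    (hhalf : ∀ p ∈ P, F.card ≤ 2 * (F.filter fun S => p.1 ∉ S ∧ p.2 ∉ S).card) :
    F.card ^ 2 * 4 ^ P.card ≤ 4 ^ J.card * 3 ^ P.card := sorry

/-- Numerics: `m ≤ 4.819 (g - log a) ≤ .302 h / log (h + 1)`. -/
theorem numeric (g h m a : ℕ) (hh : 1 ≤ h) (ha : 1 ≤ a)
    (hd : (2 : ℝ) ^ ((g : ℝ) - h / (16 * Real.logb 2 (h + 1))) ≤ a)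
    (hp : a ^ 2 * 4 ^ m ≤ 4 ^ g * 3 ^ m) :
    2 * m * (Nat.log 2 (2 * m) + 3) + 2 * m < h := sorry

/-! ### Part B (helper84): file `Pool/Agent/H97/GEN/HallPart.lean` -/

theorem hall_part {ι κ : Type*} [DecidableEq ι] [DecidableEq κ] (Vs : Finset ι) (Qs : Finset κ)
    (N : ι → Finset κ) (hN : ∀ v ∈ Vs, N v ⊆ Qs) (D : ℕ) (h : Vs.card * D < Qs.card) :
    ∃ V2 ⊆ Vs, ∃ Q2 ⊆ Qs, Q2.Nonempty ∧ (∀ v ∈ Vs, v ∉ V2 → Disjoint (N v) Q2) ∧
      ∃ M : ι → Finset κ, (∀ v ∈ V2, M v ⊆ N v ∧ M v ⊆ Q2 ∧ (M v).card = D) ∧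
        (∀ v ∈ V2, ∀ w ∈ V2, v ≠ w → Disjoint (M v) (M w)) := sorry

/-! ### Part D (helper66): file `Pool/Agent/H97/GEN/Deletion.lean` -/

/-- A generator disjoint from all others: exactly half of the members contain a point of it
(`A ↦ A ∪ G`, `A ↦ A \ G`). -/
theorem half_of_isolated (J : Finset (Finset α)) {G : Finset α} (hG : G ∈ J)
    (hiso : ∀ G' ∈ J, G' ≠ G → Disjoint G' G) {x : α} (hx : x ∈ G) :
    fr (unions J) x = nfr (unions J) x := sorry

/-- Removing an isolated generator: all counts are halved (`x ∉ G`). -/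
theorem card_isolated (J : Finset (Finset α)) {G : Finset α} (hG : G ∈ J) (hne : G.Nonempty)
    (hiso : ∀ G' ∈ J, G' ≠ G → Disjoint G' G) :
    (unions J).card = 2 * (unions (J.erase G)).card := sorry

theorem fr_isolated (J : Finset (Finset α)) {G : Finset α} (hG : G ∈ J) (hne : G.Nonempty)
    (hiso : ∀ G' ∈ J, G' ≠ G → Disjoint G' G) {x : α} (hx : x ∉ G) :
    fr (unions J) x = 2 * fr (unions (J.erase G)) x := sorry

/-- Deletion count. -/
theorem crit_count {J V Q : Finset (Finset α)} {D : ℕ} {M : Finset α → Finset (Finset α)}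
    {y : Finset α → α} (hS : Setup J V Q D M y) (hD : 1 ≤ D) {v : Finset α} (hv : v ∈ V) :
    2 ^ (D - 1) * ((FFv J V M y v).filter fun A => crit V M y A v).card
      ≤ (D + 1) * (FFv J V M y v).card := sorry

/-! ### Part C (helper97): file `Pool/Agent/H97/GEN/Core.lean` -/

theorem bias_sum {J V Q : Finset (Finset α)} {D : ℕ} {M : Finset α → Finset (Finset α)}
    {y : Finset α → α} (hS : Setup J V Q D M y) (hD : 1 ≤ D) :
    ∑ j ∈ V.biUnion M, nfr (FF J V) (y j) + (D - 1) * (FF J V).card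
      ≤ ∑ j ∈ V.biUnion M, fr (FF J V) (y j)
        + ∑ v ∈ V, ((FFv J V M y v).filter fun A => crit V M y A v).card := sorry

/-- Theorem X. -/
theorem thmX (V Q : Finset (Finset α)) (hVQ : Disjoint V Q) (hne : ∀ G ∈ V ∪ Q, G.Nonempty)
    (hirr : ∀ G ∈ V, G ∉ unions ((V ∪ Q).erase G))
    (hQ : ∀ G ∈ Q, ∀ G' ∈ Q, G' ≠ G → Disjoint G' G)
    (hcard : V.card * (Nat.log 2 V.card + 3) < Q.card) :
    (∃ G ∈ Q, ∀ G' ∈ V ∪ Q, G' ≠ G → Disjoint G' G) ∨
      (∃ x ∈ (V ∪ Q).sup id, (unions (V ∪ Q)).card < 2 * fr (unions (V ∪ Q)) x) := sorry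

/-! ### Part F (helper84): file `Pool/Agent/H97/GEN/Final.lean` -/

/-- Maximal set of disjoint intersecting pairs. -/
theorem matching (J : Finset (Finset α)) :
    ∃ P : Finset (Finset α × Finset α),
      (∀ p ∈ P, p.1 ∈ J ∧ p.2 ∈ J ∧ p.1 ≠ p.2) ∧
      (∀ p ∈ P, ∀ q ∈ P, p ≠ q → p.1 ≠ q.1 ∧ p.1 ≠ q.2 ∧ p.2 ≠ q.1 ∧ p.2 ≠ q.2) ∧
      (∀ p ∈ P, ∃ x, x ∈ p.1 ∧ x ∈ p.2) ∧
      (P.image Prod.fst ∪ P.image Prod.snd).card = 2 * P.card ∧
      ∀ G ∈ J \ (P.image Prod.fst ∪ P.image Prod.snd),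
        ∀ G' ∈ J \ (P.image Prod.fst ∪ P.image Prod.snd), G' ≠ G → Disjoint G' G := sorry

/-- The union of any two members is a member. -/
def UnionClosed (A : Finset (Finset α)) : Prop :=
  ∀ S ∈ A, ∀ T ∈ A, S ∪ T ∈ A

/-- `A` has a member, separates the points of its union, and is not the power set of its union. -/
def SepNotPower (A : Finset (Finset α)) : Prop :=
  A.Nonempty ∧ (∀ x ∈ A.sup id, ∀ y ∈ A.sup id, x ≠ y → ∃ T ∈ A, ¬ (x ∈ T ↔ y ∈ T)) ∧
    A ≠ (A.sup id).powerset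

/-- The generators: the (nonempty) members that are not the union of the members properly inside. -/
def gens (A : Finset (Finset α)) : Finset (Finset α) :=
  A.filter fun G => (A.filter fun T => T ⊂ G).sup id ≠ G

/-- The generators with at least two points. -/
def bigGens (A : Finset (Finset α)) : Finset (Finset α) := (gens A).filter fun G => 2 ≤ G.card

theorem unions_gens {A : Finset (Finset α)} (hA : UnionClosed A) :
    unions (gens A) = insert ∅ A := sorry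

theorem part1 {A : Finset (Finset α)} (hA : UnionClosed A) (hne : ∃ T ∈ A, T.Nonempty)
    (hd : (2 : ℝ) ^ (((gens A).card : ℝ)
      - (gens A).card / (16 * Real.logb 2 ((gens A).card + 1))) ≤ A.card) :
    ∃ x ∈ A.sup id, A.card ≤ 2 * fr A x := sorry

theorem part2 {A : Finset (Finset α)} (hA : UnionClosed A) (hS : SepNotPower A)
    (hd : (2 : ℝ) ^ (((gens A).card : ℝ)
      - (bigGens A).card / (16 * Real.logb 2 ((bigGens A).card + 1))) ≤ A.card) :
    ∃ x ∈ A.sup id, A.card < 2 * fr A x := sorry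

end Pool.Agent.H97.GEN.Stubs
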